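import Pool.Agent.P.MP_de3acd_gt.IDefs

/-! Powers of the cat map. -/

open Set Real Filter Topology
open scoped ContDiff NNReal

namespace Pool.Agent.P.MP_de3acd_gt

theorem abs_comb_Cat {a b x y K N : ℝ} (hx : |x| ≤ N) (hy : |y| ≤ N) (hK : |a| + |b| ≤ K) :
    |a * x + b * y| ≤ K * N := by
  have hN : 0 ≤ N := (abs_nonneg x).trans hx
  calc |a * x + b * y| ≤ |a * x| + |b * y| := abs_add_le _ _
    _ = |a| * |x| + |b| * |y| := by rw [abs_mul, abs_mul]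
    _ ≤ |a| * N + |b| * N := by gcongr
    _ = (|a| + |b|) * N := by ring
    _ ≤ K * N := by gcongr

theorem norm_cat_le_Cat {n : ℕ} (hn : 1 ≤ n) (y : Pl) : ‖cat n y‖ ≤ 2 * n * ‖y‖ := by
  have h : (1 : ℝ) ≤ n := by exact_mod_cast hn
  have h1 : |y.1| ≤ ‖y‖ := norm_fst_le y
  have h2 : |y.2| ≤ ‖y‖ := norm_snd_le y
  rw [cat_apply, Prod.norm_mk]
  refine max_le ?_ ?_
  · have := abs_comb_Cat (a := n) (b := 1) (K := 2 * n) h1 h2
      (by rw [abs_of_nonneg (by linarith), abs_one]; linarith)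
    rwa [one_mul] at this
  · have := abs_comb_Cat (a := n - 1) (b := 1) (K := 2 * n) h1 h2
      (by rw [abs_of_nonneg (by linarith), abs_one]; linarith)
    rwa [one_mul] at this

theorem norm_cat_inv_le_Cat {n : ℕ} (hn : 1 ≤ n) (y : Pl) : ‖(cat n)⁻¹ y‖ ≤ 2 * n * ‖y‖ := by
  have h : (1 : ℝ) ≤ n := by exact_mod_cast hn
  have h1 : |y.1| ≤ ‖y‖ := norm_fst_le y
  have h2 : |y.2| ≤ ‖y‖ := norm_snd_le y
  rw [cat_inv_apply, Prod.norm_mk]
  refine max_le ?_ ?_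
  · have := abs_comb_Cat (a := 1) (b := -1) (K := 2 * n) h1 h2
      (by rw [abs_neg, abs_one]; linarith)
    rwa [one_mul, neg_one_mul, ← sub_eq_add_neg] at this
  · exact abs_comb_Cat (a := 1 - n) (b := n) (K := 2 * n) h1 h2
      (by rw [abs_of_nonpos (by linarith), abs_of_nonneg (by linarith)]; linarith)

theorem norm_pow_le_Cat {A : Pl ≃L[ℝ] Pl} {K : ℝ} (hK : 0 ≤ K) (h : ∀ y, ‖A y‖ ≤ K * ‖y‖) (i : ℕ)
    (y : Pl) : ‖(A ^ i) y‖ ≤ K ^ i * ‖y‖ := by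
  induction i with
  | zero =>
    rw [pow_zero, pow_zero, one_mul]
    exact le_rfl
  | succ i ih =>
    rw [pow_succ', pow_succ', mul_assoc]
    exact (h ((A ^ i) y)).trans (mul_le_mul_of_nonneg_left ih hK)

theorem norm_cat_zpow_le {n : ℕ} (hn : 1 ≤ n) (m : ℤ) (y : Pl) :
    ‖(cat n ^ m) y‖ ≤ (2 * n) ^ m.natAbs * ‖y‖ := by
  obtain ⟨i, rfl | rfl⟩ := m.eq_nat_or_neg
  · rw [zpow_natCast, Int.natAbs_natCast]
    exact norm_pow_le_Cat (by positivity) (norm_cat_le_Cat hn) i y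
  · rw [zpow_neg, zpow_natCast, ← inv_pow, Int.natAbs_neg, Int.natAbs_natCast]
    exact norm_pow_le_Cat (by positivity) (norm_cat_inv_le_Cat hn) i y

theorem cat_pow_ge {n : ℕ} (hn : 1 ≤ n) (i : ℕ) {y : Pl} (h1 : 0 ≤ y.1) (h2 : 0 ≤ y.2) :
    (n : ℝ) ^ i * y.1 ≤ ((cat n ^ (i : ℤ)) y).1 ∧ 0 ≤ ((cat n ^ (i : ℤ)) y).2 := by
  have h : (1 : ℝ) ≤ n := by exact_mod_cast hn
  rw [zpow_natCast]
  induction i with
  | zero =>
    rw [pow_zero, pow_zero, one_mul]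
    exact ⟨le_rfl, h2⟩
  | succ i ih =>
    have e : (cat n ^ (i + 1)) y = cat n ((cat n ^ i) y) := by
      rw [pow_succ']
      rfl
    have h0 : 0 ≤ ((cat n ^ i) y).1 := le_trans (by positivity) ih.1
    rw [e, cat_apply, pow_succ', mul_assoc]
    refine ⟨?_, add_nonneg (mul_nonneg (by linarith) h0) ih.2⟩
    have := mul_le_mul_of_nonneg_left ih.1 (show (0 : ℝ) ≤ n by linarith)
    have h3 := ih.2
    change _ ≤ n * ((cat n ^ i) y).1 + ((cat n ^ i) y).2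
    linarith

theorem fix_Cat {n : ℕ} (hn : 3 ≤ n) {i : ℕ} (hi : i ≠ 0) {y : Pl}
    (h : (cat n ^ (i : ℤ)) y = y) : y = 0 := by
  have h3 : (3 : ℝ) ≤ n := by exact_mod_cast hn
  have ha := (cat_pow_ge (n := n) (by omega) i (y := (1, 0)) zero_le_one le_rfl).1
  have hb := (cat_pow_ge (n := n) (by omega) i (y := (0, 1)) le_rfl zero_le_one).2
  have hd := ar_cat_zpow n i (1, 0) (0, 1)
  have hp : (n : ℝ) ≤ (n : ℝ) ^ i := le_self_pow₀ (by linarith) hi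
  have e : y = y.1 • ((1, 0) : Pl) + y.2 • ((0, 1) : Pl) := by
    ext <;> simp
  have h' : y.1 • (cat n ^ (i : ℤ)) (1, 0) + y.2 • (cat n ^ (i : ℤ)) (0, 1) = y := by
    rw [← map_smul, ← map_smul, ← map_add, ← e, h]
  generalize (cat n ^ (i : ℤ)) (1, 0) = a at ha hd h'
  generalize (cat n ^ (i : ℤ)) (0, 1) = b at hb hd h'
  have e1 : y.1 * a.1 + y.2 * b.1 = y.1 := congrArg Prod.fst h'
  have e2 : y.1 * a.2 + y.2 * b.2 = y.2 := congrArg Prod.snd h'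
  simp only [ar, mul_one, mul_zero, sub_zero] at ha hd
  have hne : 2 - a.1 - b.2 ≠ 0 := ne_of_lt (by linarith)
  have k1 : (2 - a.1 - b.2) * y.1 = 0 := by
    linear_combination (b.2 - 1) * e1 - b.1 * e2 - y.1 * hd
  have k2 : (2 - a.1 - b.2) * y.2 = 0 := by
    linear_combination (a.1 - 1) * e2 - a.2 * e1 - y.2 * hd
  exact Prod.ext ((mul_eq_zero.1 k1).resolve_left hne) ((mul_eq_zero.1 k2).resolve_left hne)

theorem cat_zpow_sub {n : ℕ} (hn : 3 ≤ n) {m : ℤ} (hm : m ≠ 0) :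
    ∃ K : ℝ, 0 < K ∧ ∀ y : Pl, ‖y‖ ≤ K * ‖(cat n ^ m) y - y‖ := by
  have hfix : ∀ y : Pl, (cat n ^ m) y = y → y = 0 := by
    intro y hy
    obtain ⟨i, rfl | rfl⟩ := m.eq_nat_or_neg
    · exact fix_Cat hn (by omega) hy
    · refine fix_Cat hn (i := i) (by omega) ?_
      have := cat_zpow_neg n (-(i : ℤ)) y
      rwa [neg_neg, hy] at this
  let f : Pl →ₗ[ℝ] Pl := ((cat n ^ m : Pl ≃L[ℝ] Pl) : Pl →ₗ[ℝ] Pl) - LinearMap.id
  have hf : ∀ y, f y = (cat n ^ m) y - y := fun _ => rfl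
  have hk : LinearMap.ker f = ⊥ := by
    rw [LinearMap.ker_eq_bot']
    intro y hy
    exact hfix y (sub_eq_zero.1 (by rw [← hf, hy]))
  obtain ⟨K, hK, h⟩ := f.exists_antilipschitzWith hk
  refine ⟨K, by exact_mod_cast hK, fun y => ?_⟩
  rw [← hf]
  exact ZeroHomClass.bound_of_antilipschitz f h y

end Pool.Agent.P.MP_de3acd_gt
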