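import Pool.Agent.P.MP_de3acd_gt.IDefs

/-! A Crofton type counting lemma. -/

open Set Real Filter Topology
open scoped ContDiff NNReal

namespace Pool.Agent.P.MP_de3acd_gt

section Abs

open MeasureTheory MeasureTheory.Measure
open scoped ENNReal

variable {V : Type} [NormedAddCommGroup V] [NormedSpace ℝ V] [FiniteDimensional ℝ V]
  [MeasurableSpace V] [BorelSpace V]

theorem null_crof {Ψ : V → V} {s : Set V} {L : ℝ≥0} (hL : LipschitzOnWith L Ψ s) {P : V → Prop}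
    (hP : ∀ᵐ p ∂(μH[Module.finrank ℝ V] : Measure V), P p)
    (hd : ∀ p, P p → DifferentiableAt ℝ Ψ p) :
    ∀ᵐ y ∂(μH[Module.finrank ℝ V] : Measure V), ∀ p ∈ s, Ψ p = y →
      P p ∧ Function.Injective (fderiv ℝ Ψ p) := by
  have h1 : (μH[Module.finrank ℝ V] : Measure V) (Ψ '' (s ∩ {p | ¬ P p})) = 0 := by
    have e := (hL.mono (inter_subset_left (t := {p | ¬ P p}))).hausdorffMeasure_image_le
      (d := Module.finrank ℝ V) (by positivity)
    rw [measure_mono_null inter_subset_right (ae_iff.1 hP), mul_zero] at e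
    exact le_antisymm e bot_le
  have h2 : (μH[Module.finrank ℝ V] : Measure V)
      (Ψ '' {p | P p ∧ (fderiv ℝ Ψ p).det = 0}) = 0 :=
    addHaar_image_eq_zero_of_det_fderivWithin_eq_zero _
      (fun p hp => (hd p hp.1).hasFDerivAt.hasFDerivWithinAt) fun p hp => hp.2
  filter_upwards [measure_eq_zero_iff_ae_notMem.1 h1, measure_eq_zero_iff_ae_notMem.1 h2]
    with y k1 k2 p hp e
  have hPp : P p := by
    by_contra hn
    exact k1 ⟨p, ⟨hp, hn⟩, e⟩
  refine ⟨hPp, ?_⟩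
  have hdet : (fderiv ℝ Ψ p).det ≠ 0 := fun h => k2 ⟨p, ⟨hPp, h⟩, e⟩
  exact ((fderiv ℝ Ψ p).toContinuousLinearEquivOfDetNeZero hdet).injective

theorem cover_crof {Ψ : V → V} {s : Set V} {L : ℝ≥0} (hL : LipschitzOnWith L Ψ s)
    (hd : ∀ p ∈ s, DifferentiableAt ℝ Ψ p ∧ Function.Injective (fderiv ℝ Ψ p)) :
    ∃ t : ℕ → Set V, s ⊆ ⋃ n, t n ∧ (∀ n, InjOn Ψ (s ∩ t n)) ∧
      ∑' n, (μH[Module.finrank ℝ V] : Measure V) (Ψ '' (s ∩ t n)) ≤
        (L : ℝ≥0∞) ^ Module.finrank ℝ V * (μH[Module.finrank ℝ V] : Measure V) s := by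
  have hr : ∀ A : V →L[ℝ] V, ∃ r : ℝ≥0, r ≠ 0 ∧
      (Function.Injective A → ∀ v, ‖A v‖ ≤ r * ‖v‖ → v = 0) := by
    intro A
    by_cases hA : Function.Injective A
    · obtain ⟨K, hK, h⟩ := LinearMap.exists_antilipschitzWith (A : V →ₗ[ℝ] V)
        (LinearMap.ker_eq_bot.2 hA)
      refine ⟨(2 * K)⁻¹, by positivity, fun _ v hv => ?_⟩
      have e := h.le_mul_dist v 0
      simp only [map_zero, dist_zero_right, ContinuousLinearMap.coe_coe] at e
      have hK' : (0 : ℝ) < K := hK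
      have e2 : (K : ℝ) * ‖A v‖ ≤ ‖v‖ / 2 := by
        calc (K : ℝ) * ‖A v‖ ≤ K * ((((2 * K)⁻¹ : ℝ≥0) : ℝ) * ‖v‖) := by gcongr
          _ = ‖v‖ / 2 := by
            push_cast
            field_simp
      exact norm_le_zero_iff.1 (by linarith)
    · exact ⟨1, one_ne_zero, fun h => absurd h hA⟩
  choose r hr0 hr using hr
  obtain ⟨t, A, h1, h2, h3, h4, h5⟩ := exists_partition_approximatesLinearOn_of_hasFDerivWithinAt
    Ψ s (fun p => fderiv ℝ Ψ p) (fun p hp => (hd p hp).1.hasFDerivAt.hasFDerivWithinAt) r hr0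
  refine ⟨t, h3, fun n x hx y hy e => ?_, ?_⟩
  · obtain ⟨p, hp, hA⟩ := h5 ⟨x, hx.1⟩ n
    have k := h4 n x hx y hy
    rw [e, sub_self, zero_sub, norm_neg] at k
    exact sub_eq_zero.1 (hr _ (hA ▸ (hd p hp).2) _ k)
  · calc _ ≤ ∑' n, (L : ℝ≥0∞) ^ Module.finrank ℝ V *
          ((μH[Module.finrank ℝ V] : Measure V).restrict s) (t n) := by
          refine ENNReal.tsum_le_tsum fun n => ?_
          have e := (hL.mono (inter_subset_left (t := t n))).hausdorffMeasure_image_le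
            (d := Module.finrank ℝ V) (by positivity)
          rwa [ENNReal.rpow_natCast, inter_comm, ← Measure.restrict_apply (h2 n), inter_comm] at e
      _ ≤ _ := by
          rw [ENNReal.tsum_mul_left, ← measure_iUnion h1 h2]
          exact mul_le_mul_right
            ((measure_mono (subset_univ _)).trans_eq (Measure.restrict_apply_univ _)) _

theorem count_crof {W J : Type} [MeasurableSpace W] [Countable J] (μ : Measure W) (T : J → Set W)
    {s : Set W} (h0 : μ s ≠ 0) (h1 : μ s ≠ ⊤) :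
    ∃ y ∈ s, ∀ Y : Finset J, (∀ j ∈ Y, y ∈ T j) → (Y.card : ℝ≥0∞) ≤ (∑' j, μ (T j)) / μ s := by
  have hm : ∀ j, Measurable ((toMeasurable μ (T j)).indicator (1 : W → ℝ≥0∞)) := fun j =>
    measurable_one.indicator (measurableSet_toMeasurable _ _)
  obtain ⟨y, hy, h⟩ := exists_le_setLAverage
    (f := fun y => ∑' j, (toMeasurable μ (T j)).indicator (1 : W → ℝ≥0∞) y) h0 h1
    (Measurable.tsum hm).aemeasurable
  refine ⟨y, hy, fun Y hY => le_trans ?_ (h.trans ?_)⟩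
  · refine le_trans (le_of_eq ?_) (ENNReal.sum_le_tsum Y)
    rw [Finset.sum_congr rfl fun j hj =>
      indicator_of_mem (subset_toMeasurable μ _ (hY j hj)) (1 : W → ℝ≥0∞)]
    simp
  · rw [setLAverage_eq]
    gcongr
    refine (setLIntegral_le_lintegral _ _).trans_eq ?_
    rw [lintegral_tsum fun j => (hm j).aemeasurable]
    refine tsum_congr fun j => ?_
    rw [lintegral_indicator_one (measurableSet_toMeasurable _ _), measure_toMeasurable]

end Abs

section Conc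

variable {ι : Type} [Fintype ι]

/-- the parametrisation of the solutions -/
noncomputable def psiCrof (d c : (ι → ℝ) → ι → ℝ) (a : ι → ℤ) (p : (ι → ℝ) × (ι → ℝ)) :
    (ι → ℝ) × (ι → ℝ) :=
  (fun i => (2 * π * a i - d p.1 i) * cos (c p.1 i) + p.2 i * sin (c p.1 i),
    fun i => p.2 i * cos (c p.1 i) - (2 * π * a i - d p.1 i) * sin (c p.1 i))

/-- the domain of the parametrisation -/
def domCrof (d : (ι → ℝ) → ι → ℝ) (a : ι → ℤ) : Set ((ι → ℝ) × (ι → ℝ)) :=
  {p | ∀ i, |2 * π * a i - d p.1 i| ≤ 2 ∧ |p.2 i| ≤ 2}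

theorem mul_sub_crof {e e' s s' δ δ' : ℝ} (h1 : |e - e'| ≤ δ) (h2 : |e'| ≤ 2) (h3 : |s| ≤ 1)
    (h4 : |s - s'| ≤ δ') : |e * s - e' * s'| ≤ δ + 2 * δ' := by
  have e1 : e * s - e' * s' = (e - e') * s + e' * (s - s') := by ring
  rw [e1]
  refine (abs_add_le _ _).trans (add_le_add ?_ ?_) <;> rw [abs_mul]
  · exact (mul_le_of_le_one_right (abs_nonneg _) h3).trans h1
  · exact mul_le_mul h2 h4 (abs_nonneg _) zero_le_two

theorem lip_crof {K : ℝ≥0} (hK : 1 ≤ K) {d c : (ι → ℝ) → ι → ℝ} (hd : LipschitzWith K d)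
    (hc : LipschitzWith K c) (a : ι → ℤ) : LipschitzOnWith (6 * K) (psiCrof d c a) (domCrof d a) := by
  refine LipschitzOnWith.of_dist_le_mul fun p hp q hq => ?_
  have hK' : (1 : ℝ) ≤ K := hK
  have h0 : 0 ≤ dist p q := dist_nonneg
  have h1 : dist p.1 q.1 ≤ dist p q := le_max_left _ _
  have h2 : dist p.2 q.2 ≤ dist p q := le_max_right _ _
  have k : ∀ g : (ι → ℝ) → ι → ℝ, LipschitzWith K g → ∀ i, |g p.1 i - g q.1 i| ≤ K * dist p q :=
    fun g hg i => (dist_le_pi_dist (g p.1) (g q.1) i).trans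
      ((hg.dist_le_mul _ _).trans (by gcongr))
  have k1 : ∀ i, |(2 * π * a i - d p.1 i) - (2 * π * a i - d q.1 i)| ≤ K * dist p q := fun i => by
    rw [sub_sub_sub_cancel_left, abs_sub_comm]
    exact k d hd i
  have k2 : ∀ i, |p.2 i - q.2 i| ≤ K * dist p q := fun i =>
    (dist_le_pi_dist p.2 q.2 i).trans (h2.trans (le_mul_of_one_le_left h0 hK'))
  have k3 : ∀ i, |cos (c p.1 i) - cos (c q.1 i)| ≤ K * dist p q := fun i =>
    (abs_cos_sub_cos_le _ _).trans (k c hc i)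
  have k4 : ∀ i, |sin (c p.1 i) - sin (c q.1 i)| ≤ K * dist p q := fun i =>
    (abs_sin_sub_sin_le _ _).trans (k c hc i)
  have hb : 0 ≤ ((6 * K : ℝ≥0) : ℝ) * dist p q := by positivity
  refine max_le ((dist_pi_le_iff hb).2 fun i => ?_) ((dist_pi_le_iff hb).2 fun i => ?_)
  · have e1 := mul_sub_crof (k1 i) (hq i).1 (abs_cos_le_one _) (k3 i)
    have e2 := mul_sub_crof (k2 i) (hq i).2 (abs_sin_le_one _) (k4 i)
    rw [abs_le] at e1 e2
    simp only [psiCrof, Real.dist_eq, abs_le]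
    push_cast
    constructor <;> linarith [e1.1, e1.2, e2.1, e2.2]
  · have e1 := mul_sub_crof (k1 i) (hq i).1 (abs_sin_le_one _) (k4 i)
    have e2 := mul_sub_crof (k2 i) (hq i).2 (abs_cos_le_one _) (k3 i)
    rw [abs_le] at e1 e2
    simp only [psiCrof, Real.dist_eq, abs_le]
    push_cast
    constructor <;> linarith [e1.1, e1.2, e2.1, e2.2]

theorem diff_crof {d c : (ι → ℝ) → ι → ℝ} (a : ι → ℤ) {p : (ι → ℝ) × (ι → ℝ)}
    (hd : DifferentiableAt ℝ d p.1) (hc : DifferentiableAt ℝ c p.1) :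
    DifferentiableAt ℝ (psiCrof d c a) p := by
  have h1 : ∀ i, DifferentiableAt ℝ (fun q : (ι → ℝ) × (ι → ℝ) => d q.1 i) p := fun i =>
    differentiableAt_pi.1 (hd.comp p differentiableAt_fst) i
  have h2 : ∀ i, DifferentiableAt ℝ (fun q : (ι → ℝ) × (ι → ℝ) => c q.1 i) p := fun i =>
    differentiableAt_pi.1 (hc.comp p differentiableAt_fst) i
  have h3 : ∀ i, DifferentiableAt ℝ (fun q : (ι → ℝ) × (ι → ℝ) => q.2 i) p := fun i =>
    differentiableAt_pi.1 differentiableAt_snd i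
  refine DifferentiableAt.prodMk (differentiableAt_pi.2 fun i => ?_)
    (differentiableAt_pi.2 fun i => ?_)
  · exact (((h1 i).const_sub _).fun_mul (h2 i).cos).fun_add ((h3 i).fun_mul (h2 i).sin)
  · exact ((h3 i).fun_mul (h2 i).cos).fun_sub (((h1 i).const_sub _).fun_mul (h2 i).sin)

/-- the second coordinate of a solution -/
noncomputable def wCrof (c : (ι → ℝ) → ι → ℝ) (u v x : ι → ℝ) : ι → ℝ :=
  fun i => u i * sin (c x i) + v i * cos (c x i)

omit [Fintype ι] in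
theorem psi_w_crof (d c : (ι → ℝ) → ι → ℝ) (a : ι → ℤ) (u v x : ι → ℝ) :
    psiCrof d c a (x, wCrof c u v x) =
      (fun i => u i + (2 * π * a i - Rm d c u v x i) * cos (c x i),
        fun i => v i + (2 * π * a i - Rm d c u v x i) * (-sin (c x i))) := by
  refine Prod.ext (funext fun i => ?_) (funext fun i => ?_) <;>
    simp only [psiCrof, wCrof, Rm, tr]
  · linear_combination u i * sin_sq_add_cos_sq (c x i)
  · linear_combination v i * sin_sq_add_cos_sq (c x i)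

theorem sol_crof {d c : (ι → ℝ) → ι → ℝ} {a : ι → ℤ} {u v x : ι → ℝ} (hu : ‖u‖ ≤ 1) (hv : ‖v‖ ≤ 1)
    (h : ∀ i, Rm d c u v x i = 2 * π * a i) :
    (x, wCrof c u v x) ∈ domCrof d a ∧ psiCrof d c a (x, wCrof c u v x) = (u, v) := by
  constructor
  · intro i
    have h1 : |u i| ≤ 1 := (norm_le_pi_norm u i).trans hu
    have h2 : |v i| ≤ 1 := (norm_le_pi_norm v i).trans hv
    have k : ∀ x y : ℝ, |x| ≤ 1 → |y| ≤ 1 → |x * y| ≤ 1 := fun x y hx hy => by
      rw [abs_mul]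
      exact mul_le_one₀ hx (abs_nonneg _) hy
    constructor
    · rw [← h i]
      simp only [Rm, tr, add_sub_cancel_left]
      linarith [abs_sub (u i * cos (c x i)) (v i * sin (c x i)), k _ _ h1 (abs_cos_le_one (c x i)),
        k _ _ h2 (abs_sin_le_one (c x i))]
    · simp only [wCrof]
      linarith [abs_add_le (u i * sin (c x i)) (v i * cos (c x i)),
        k _ _ h1 (abs_sin_le_one (c x i)), k _ _ h2 (abs_cos_le_one (c x i))]
  · rw [psi_w_crof]
    simp [h]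

theorem reg_crof {d c : (ι → ℝ) → ι → ℝ} {a : ι → ℤ} {u v x : ι → ℝ}
    (h : ∀ i, Rm d c u v x i = 2 * π * a i) (hd : DifferentiableAt ℝ d x)
    (hc : DifferentiableAt ℝ c x)
    (hi : Function.Injective (fderiv ℝ (psiCrof d c a) (x, wCrof c u v x))) :
    ∃ D : (ι → ℝ) →L[ℝ] ι → ℝ, HasFDerivAt (Rm d c u v) D x ∧ Function.Injective D := by
  have h1 := differentiableAt_pi.1 hd
  have h2 := differentiableAt_pi.1 hc
  have hR : DifferentiableAt ℝ (Rm d c u v) x := differentiableAt_pi.2 fun i =>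
    (h1 i).fun_add (((h2 i).cos.const_mul _).fun_sub ((h2 i).sin.const_mul _))
  have hW : DifferentiableAt ℝ (wCrof c u v) x := differentiableAt_pi.2 fun i =>
    ((h2 i).sin.const_mul _).fun_add ((h2 i).cos.const_mul _)
  refine ⟨_, hR.hasFDerivAt, (injective_iff_map_eq_zero _).2 fun ξ hξ => ?_⟩
  have k1 := (diff_crof a (p := (x, wCrof c u v x)) hd hc).hasFDerivAt.comp x
    ((hasFDerivAt_id x).prodMk hW.hasFDerivAt)
  have k0 : ∀ (w : ι → ℝ) (g : (ι → ℝ) → ι → ℝ), (∀ i, DifferentiableAt ℝ (fun y => g y i) x) →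
      ∃ D : (ι → ℝ) →L[ℝ] ι → ℝ, HasFDerivAt
        (fun y i => w i + (2 * π * a i - Rm d c u v y i) * g y i) D x ∧ D ξ = 0 := by
    intro w g hg
    refine ⟨_, hasFDerivAt_pi.2 fun i => ((((hasFDerivAt_pi'.1 hR.hasFDerivAt i).const_sub
      (2 * π * a i)).fun_mul (hg i).hasFDerivAt).const_add (w i)), ?_⟩
    funext i
    simp [h, hξ]
  obtain ⟨D₁, k2, k3⟩ := k0 u (fun y i => cos (c y i)) fun i => (h2 i).cos
  obtain ⟨D₂, k4, k5⟩ := k0 v (fun y i => -sin (c y i)) fun i => (h2 i).sin.fun_neg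
  have k6 := k2.prodMk k4
  simp only [← psi_w_crof] at k6
  have k7 := DFunLike.congr_fun (k1.unique k6) ξ
  simp only [ContinuousLinearMap.comp_apply, ContinuousLinearMap.prod_apply, k3, k5,
    ContinuousLinearMap.id_apply, Prod.mk_zero_zero] at k7
  exact congrArg Prod.fst ((injective_iff_map_eq_zero _).1 hi _ k7)

end Conc

open MeasureTheory MeasureTheory.Measure
open scoped ENNReal

theorem crofton (ι : Type) [Fintype ι] {ε : ℝ} (hε : 0 < ε) : ∃ C : ℝ, 0 ≤ C ∧ ∀ K : ℝ≥0, 1 ≤ K →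
    ∀ d c : (ι → ℝ) → ι → ℝ, LipschitzWith K d → LipschitzWith K c → (∀ x, ‖d x‖ ≤ K) →
      ∃ u v : ι → ℝ, ‖u‖ ≤ ε ∧ ‖v‖ ≤ ε ∧
        (∀ x, (∀ i, Rm d c u v x i ∈ Z1) → ∃ D : (ι → ℝ) →L[ℝ] ι → ℝ,
          HasFDerivAt (Rm d c u v) D x ∧ Function.Injective D) ∧
        ∃ X : Finset (ι → ℝ), (X.card : ℝ) ≤ C * (K : ℝ) ^ (3 * Fintype.card ι) ∧
          ∀ x, (∀ i, x i ∈ Ico 0 (2 * π)) → (∀ i, Rm d c u v x i ∈ Z1) → x ∈ X := by
  classical
  set μ : Measure ((ι → ℝ) × (ι → ℝ)) := μH[Module.finrank ℝ ((ι → ℝ) × (ι → ℝ))] with hμ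
  have hrk : Module.finrank ℝ ((ι → ℝ) × (ι → ℝ)) = 2 * Fintype.card ι := by
    simp [two_mul]
  have hε' : 0 < min ε 1 := lt_min hε one_pos
  have hb0 : μ (Metric.ball 0 (min ε 1)) ≠ 0 := (Metric.measure_ball_pos μ 0 hε').ne'
  have hb1 : μ (Metric.ball 0 (min ε 1)) ≠ ⊤ := measure_ball_lt_top.ne
  have hb2 : μ (Metric.closedBall 0 7) ≠ ⊤ := measure_closedBall_lt_top.ne
  set ρ : ℝ≥0∞ := μ (Metric.closedBall 0 7) / μ (Metric.ball 0 (min ε 1)) with hρ
  have hρ1 : ρ ≠ ⊤ := ENNReal.div_ne_top hb2 hb0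
  refine ⟨108 ^ Fintype.card ι * ρ.toReal, by positivity, fun K hK d c hd hc hdK => ?_⟩
  have hK' : (1 : ℝ) ≤ K := hK
  have hP : ∀ᵐ p ∂μ, DifferentiableAt ℝ d p.1 ∧ DifferentiableAt ℝ c p.1 := by
    have k : ∀ g : (ι → ℝ) → ι → ℝ, LipschitzWith K g → ∀ᵐ p ∂μ, DifferentiableAt ℝ g p.1 := by
      intro g hg
      filter_upwards [(hg.comp (LipschitzWith.prod_fst (β := ι → ℝ))).ae_differentiableAt (μ := μ)]
        with p hp
      exact DifferentiableAt.comp (g := g ∘ Prod.fst) (f := fun x => (x, p.2)) p.1 hp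
        (differentiableAt_id.prodMk (differentiableAt_const _))
    exact (k d hd).and (k c hc)
  have hZ := ae_all_iff.2 fun a : ι → ℤ =>
    null_crof (lip_crof hK hd hc a) hP fun p hp => diff_crof a hp.1 hp.2
  set s : (ι → ℤ) → Set ((ι → ℝ) × (ι → ℝ)) := fun a =>
    {p | p ∈ domCrof d a ∧ p ∈ Metric.closedBall 0 7 ∧ DifferentiableAt ℝ (psiCrof d c a) p ∧
      Function.Injective (fderiv ℝ (psiCrof d c a) p)} with hs
  choose t ht1 ht2 ht3 using fun a => cover_crof (s := s a)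
    ((lip_crof hK hd hc a).mono fun p hp => hp.1) fun p hp => hp.2.2
  set A : Finset (ι → ℤ) := Fintype.piFinset fun _ => Finset.Icc (-(⌊(K : ℝ)⌋₊ : ℤ)) ⌊(K : ℝ)⌋₊
    with hA
  have hm := measure_sdiff_null (s := Metric.ball 0 (min ε 1)) (ae_iff.1 hZ)
  obtain ⟨⟨u, v⟩, ⟨hy1, hy2⟩, hy⟩ := count_crof μ
    (fun j : A × ℕ => psiCrof d c j.1 '' (s j.1 ∩ t j.1 j.2)) (hm.trans_ne hb0) (hm.trans_ne hb1)
  rw [mem_ofPred_eq, not_not] at hy2
  rw [mem_ball_zero_iff, lt_min_iff, Prod.norm_mk, max_lt_iff, max_lt_iff] at hy1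
  have hu := hy1.2.1.le
  have hv := hy1.2.2.le
  refine ⟨u, v, hy1.1.1.le, hy1.1.2.le, fun x hx => ?_, ?_⟩
  · choose a ha using fun i => mem_Z1.1 (hx i)
    obtain ⟨k1, k2⟩ := sol_crof hu hv ha
    obtain ⟨k3, k4⟩ := hy2 a _ k1 k2
    exact reg_crof ha k3.1 k3.2 k4
  have hbd : (∑' j : A × ℕ, μ (psiCrof d c j.1 '' (s j.1 ∩ t j.1 j.2))) /
      μ (Metric.ball 0 (min ε 1)) ≤
        ((108 ^ Fintype.card ι * K ^ (3 * Fintype.card ι) : ℝ≥0) : ℝ≥0∞) * ρ := by
    rw [hρ, ← mul_div_assoc]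
    gcongr
    have k1 : ((A.card : ℝ≥0) : ℝ≥0∞) ≤ ((3 * K) ^ Fintype.card ι : ℝ≥0) := by
      rw [ENNReal.coe_le_coe, hA, Fintype.card_piFinset, ← NNReal.coe_le_coe, Finset.prod_const,
        Finset.card_univ, Int.card_Icc]
      push_cast
      gcongr
      have e : ((⌊(K : ℝ)⌋₊ : ℤ) + 1 - -(⌊(K : ℝ)⌋₊ : ℤ)).toNat = 2 * ⌊(K : ℝ)⌋₊ + 1 := by omega
      rw [e]
      push_cast
      linarith [Nat.floor_le (a := (K : ℝ)) (by positivity)]
    calc _ = ∑' a : A, ∑' n, μ (psiCrof d c a '' (s a ∩ t a n)) := ENNReal.tsum_prod'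
      _ ≤ ∑' a : A, ((6 * K : ℝ≥0) : ℝ≥0∞) ^ (2 * Fintype.card ι) * μ (Metric.closedBall 0 7) := by
          refine ENNReal.tsum_le_tsum fun a => (ht3 a).trans ?_
          rw [← hμ, hrk]
          gcongr
          exact fun p hp => hp.2.1
      _ = ((A.card : ℝ≥0) : ℝ≥0∞) * (((6 * K : ℝ≥0) : ℝ≥0∞) ^ (2 * Fintype.card ι) *
            μ (Metric.closedBall 0 7)) := by
          simp
      _ ≤ _ := by
          rw [← mul_assoc]
          gcongr
          refine (mul_le_mul_left k1 _).trans_eq ?_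
          rw [← ENNReal.coe_pow, ← ENNReal.coe_mul, pow_mul, pow_mul, ← mul_pow, ← mul_pow]
          congr 2
          ring
  set S : Set (ι → ℝ) := {x | (∀ i, x i ∈ Ico 0 (2 * π)) ∧ ∀ i, Rm d c u v x i ∈ Z1} with hS
  have hj : ∀ x : S, ∃ j : A × ℕ, (x.1, wCrof c u v x) ∈ s j.1 ∩ t j.1 j.2 ∧
      psiCrof d c j.1 (x.1, wCrof c u v x) = (u, v) := by
    rintro ⟨x, hx0, hx⟩
    choose a ha using fun i => mem_Z1.1 (hx i)
    obtain ⟨k1, k2⟩ := sol_crof hu hv ha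
    obtain ⟨k3, k4⟩ := hy2 a _ k1 k2
    have k5 : (x, wCrof c u v x) ∈ s a := by
      refine ⟨k1, ?_, diff_crof a k3.1 k3.2, k4⟩
      rw [mem_closedBall_zero_iff, Prod.norm_mk, max_le_iff, pi_norm_le_iff_of_nonneg (by norm_num),
        pi_norm_le_iff_of_nonneg (by norm_num)]
      refine ⟨fun i => ?_, fun i => (k1 i).2.trans (by norm_num)⟩
      rw [Real.norm_of_nonneg (hx0 i).1]
      linarith [(hx0 i).2, pi_lt_d2]
    obtain ⟨n, hn⟩ := mem_iUnion.1 (ht1 a k5)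
    have k6 : a ∈ A := by
      rw [hA, Fintype.mem_piFinset]
      intro i
      have e1 : |d x i| ≤ K := (norm_le_pi_norm (d x) i).trans (hdK x)
      have e2 := (k1 i).1
      have e3 : |(a i : ℝ)| ≤ K := by
        have e4 : |2 * π * a i| ≤ 2 + K := by
          have := abs_add_le (2 * π * a i - d x i) (d x i)
          rw [sub_add_cancel] at this
          linarith
        rw [abs_mul, abs_of_pos two_pi_pos] at e4
        nlinarith [pi_gt_three, abs_nonneg (a i : ℝ)]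
      rw [Finset.mem_Icc, ← abs_le, Int.natCast_floor_eq_floor (by positivity), Int.le_floor]
      exact_mod_cast e3
    exact ⟨(⟨a, k6⟩, n), ⟨k5, hn⟩, k2⟩
  choose j hj1 hj2 using hj
  have hinj : Function.Injective j := by
    intro x x' e
    have k1 := hj1 x
    have k2 := hj2 x
    rw [e] at k1 k2
    exact Subtype.ext (congrArg Prod.fst (ht2 _ _ k1 (hj1 x') (k2.trans (hj2 x').symm)))
  have hcard : ∀ X : Finset S,
      (X.card : ℝ) ≤ 108 ^ Fintype.card ι * ρ.toReal * (K : ℝ) ^ (3 * Fintype.card ι) := by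
    intro X
    have k1 := hy (X.image j) (by
      intro i hi
      obtain ⟨x, -, rfl⟩ := Finset.mem_image.1 hi
      exact ⟨_, hj1 x, hj2 x⟩)
    rw [Finset.card_image_of_injective _ hinj, hm] at k1
    have k2 := ENNReal.toReal_mono (ENNReal.mul_ne_top ENNReal.coe_ne_top hρ1) (k1.trans hbd)
    rw [ENNReal.toReal_mul, ENNReal.coe_toReal, ENNReal.toReal_natCast] at k2
    push_cast at k2
    linarith
  have hfin : Finite S := by
    by_contra hn
    rw [not_finite_iff_infinite] at hn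
    obtain ⟨n, hn'⟩ := exists_nat_gt
      (108 ^ Fintype.card ι * ρ.toReal * (K : ℝ) ^ (3 * Fintype.card ι))
    obtain ⟨X, hX⟩ := Infinite.exists_subset_card_eq S n
    have := hcard X
    rw [hX] at this
    linarith
  have := Fintype.ofFinite S
  refine ⟨Finset.univ.image (Subtype.val : S → ι → ℝ), ?_, fun x h1 h2 => ?_⟩
  · exact le_trans (Nat.cast_le.2 Finset.card_image_le) (hcard _)
  · exact Finset.mem_image.2 ⟨⟨x, h1, h2⟩, Finset.mem_univ _, rfl⟩

end Pool.Agent.P.MP_de3acd_gt
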