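import Mathlib

/-! Hamiltonian dynamics on compact quotients of the standard symplectic six-space. -/

open Set
open scoped ContDiff

namespace Pool.Agent.P.MP_de3acd_gt

/-- A plane with coordinates `(q, p)`. -/
abbrev Pl : Type := ℝ × ℝ

/-- Six-space. -/
abbrev E : Type := Pl × Pl × Pl

/-- The area form of the plane. -/
def ar (u v : Pl) : ℝ := u.1 * v.2 - u.2 * v.1

/-- The standard symplectic form. -/
def om (u v : E) : ℝ := ar u.1 v.1 + ar u.2.1 v.2.1 + ar u.2.2 v.2.2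

/-- The integer multiples of `2π`. -/
noncomputable def Z1 : AddSubgroup ℝ := AddSubgroup.zmultiples (2 * Real.pi)

/-- The lattice `(2πℤ)^2`. -/
noncomputable def Z2 : AddSubgroup Pl := Z1.prod Z1

/-- The lattice `(2πℤ)^6`. -/
noncomputable def Z6 : AddSubgroup E := Z2.prod (Z2.prod Z2)

/-- The orbit space. -/
abbrev Q (Γ : Subgroup (Equiv.Perm E)) : Type := Quotient (MulAction.orbitRel Γ E)

/-- The projection to the orbit space. -/
def pr (Γ : Subgroup (Equiv.Perm E)) (z : E) : Q Γ := Quotient.mk _ z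

/-- `Γ` acts freely, properly discontinuously and cocompactly by affine symplectic maps that
preserve the lattice. -/
structure Good (Γ : Subgroup (Equiv.Perm E)) : Prop where
  aff : ∀ γ ∈ Γ, ∃ (L : E →ₗ[ℝ] E) (b : E), (∀ u v, om (L u) (L v) = om u v) ∧
    (∀ u ∈ Z6, L u ∈ Z6) ∧ b ∈ Z6 ∧ ∀ z, γ z = L z + b
  free : ∀ γ ∈ Γ, ∀ z, γ z = z → γ = 1
  cont : ContinuousConstSMul Γ E
  disc : ProperlyDiscontinuousSMul Γ E
  cpt : CompactSpace (Q Γ)

/-- Topological entropy (natural logarithm) on the compact Hausdorff orbit space. -/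
noncomputable def htop {Γ : Subgroup (Equiv.Perm E)} (h : Good Γ) (f : Q Γ → Q Γ) : EReal :=
  haveI := h.cont
  haveI := h.disc
  haveI := h.cpt
  @Dynamics.coverEntropy (Q Γ) uniformSpaceOfCompactR1 f univ

/-- `φ` is the time-one map of the smooth `Γ`-invariant Hamiltonian `F`. -/
structure Gen (Γ : Subgroup (Equiv.Perm E)) (F : ℝ → E → ℝ) (φ : E → E) : Prop where
  smooth : ContDiff ℝ ∞ fun p : ℝ × E => F p.1 p.2
  inv : ∀ γ ∈ Γ, ∀ s z, F s (γ z) = F s z
  flow : ∃ Φ : ℝ → E → E, (∀ z, Φ 0 z = z) ∧ (∀ z, Φ 1 z = φ z) ∧ ∀ z s, ∃ w,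
    HasDerivAt (fun s => Φ s z) w s ∧ ∀ v, om w v = fderiv ℝ (F s) (Φ s z) v

/-- All fixed points of the map induced by `ψ` on the orbit space are nondegenerate. -/
def Nondeg (Γ : Subgroup (Equiv.Perm E)) (ψ : E → E) : Prop :=
  ∀ γ ∈ Γ, ∀ z, ψ z = γ z → ∃ D : E →L[ℝ] E, HasFDerivAt (fun x => ψ x - γ x) D z ∧
    Function.Injective D

/-- The fixed points of the map induced by `ψ` on the orbit space. -/
def fixSet (Γ : Subgroup (Equiv.Perm E)) (ψ : E → E) : Set (Q Γ) :=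
  {x | ∃ z : E, pr Γ z = x ∧ pr Γ (ψ z) = x}

end Pool.Agent.P.MP_de3acd_gt
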