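import Pool.Agent.P.MP_de3acd_gt.Est
import Pool.Agent.P.MP_75a63e_an.Flow

/-! The base system. -/

open Set Real Filter Topology
open scoped ContDiff NNReal

namespace Pool.Agent.P.MP_de3acd_gt

noncomputable section

/-- The vector field as a function of the trigonometric data. -/
def dynY (α ν B : ℝ → ℝ) (M j : ℝ) (p : ℝ × (ℝ × ℝ) × (ℝ × ℝ) × (ℝ × ℝ)) : E :=
  ((p.2.2.1.2 * (3 * M * p.2.2.1.1 ^ 2 + p.1 + B p.2.2.1.2 * ν (p.2.1.1 / j)) -
      p.2.2.1.1 * deriv B p.2.2.1.2 * (p.2.2.1.1 * ν (p.2.1.1 / j) + α (p.2.1.1 / j) * p.2.2.2.1),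
    -(B p.2.2.1.2 * (p.2.2.1.1 * deriv ν (p.2.1.1 / j) + deriv α (p.2.1.1 / j) * p.2.2.2.1) *
      (p.2.1.2 / j))),
    (B p.2.2.1.2 * α (p.2.1.1 / j) * p.2.2.2.2, 0), 0)

/-- The trigonometric data. -/
def dynP (δ : ℝ) (z : E) : ℝ × (ℝ × ℝ) × (ℝ × ℝ) × (ℝ × ℝ) :=
  (δ, (sin z.1.1, cos z.1.1), (sin z.1.2, cos z.1.2), (sin z.2.1.2, cos z.2.1.2))

/-- The vector field. -/
def dynX (α ν B : ℝ → ℝ) (M j δ : ℝ) (z : E) : E := dynY α ν B M j (dynP δ z)

/-- The Hamiltonian. -/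
def dynH (α ν B : ℝ → ℝ) (M j δ : ℝ) (z : E) : ℝ := h1 α ν B M j δ (sin z.2.1.2) z.1.1 z.1.2

variable {α ν B : ℝ → ℝ} {M j : ℝ}

theorem dynY_smooth (h : Prof α ν B) (M j : ℝ) : ContDiff ℝ ∞ (dynY α ν B M j) := by
  have h1 := h.α_smooth
  have h2 := h.ν_smooth
  have h3 := h.B_smooth
  have h4 := (contDiff_infty_iff_deriv.1 h1).2
  have h5 := (contDiff_infty_iff_deriv.1 h2).2
  have h6 := (contDiff_infty_iff_deriv.1 h3).2
  unfold dynY
  generalize deriv α = α' at h4 ⊢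
  generalize deriv ν = ν' at h5 ⊢
  generalize deriv B = B' at h6 ⊢
  fun_prop

theorem dynH_smooth (h : Prof α ν B) (M j δ : ℝ) : ContDiff ℝ ∞ (dynH α ν B M j δ) := by
  have h1 := h.α_smooth
  have h2 := h.ν_smooth
  have h3 := h.B_smooth
  unfold dynH MP_de3acd_gt.h1
  fun_prop

theorem dynP_mem {δ : ℝ} (hδ : δ ∈ Icc (0 : ℝ) 1) (z : E) : dynP δ z ∈ Metric.closedBall 0 1 := by
  rw [mem_closedBall_zero_iff]
  simp only [dynP, Prod.norm_def, Real.norm_eq_abs, max_le_iff, abs_sin_le_one, abs_cos_le_one,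
    and_self, and_true]
  rw [abs_of_nonneg hδ.1]
  exact hδ.2

theorem dynP_lip (δ : ℝ) (z z' : E) : dist (dynP δ z) (dynP δ z') ≤ dist z z' := by
  have h1 : |z.1.1 - z'.1.1| ≤ dist z z' := by
    rw [← Real.dist_eq]
    exact (le_max_left _ _).trans (le_max_left _ _)
  have h2 : |z.1.2 - z'.1.2| ≤ dist z z' := by
    rw [← Real.dist_eq]
    exact (le_max_right _ _).trans (le_max_left _ _)
  have h3 : |z.2.1.2 - z'.2.1.2| ≤ dist z z' := by
    rw [← Real.dist_eq]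
    exact ((le_max_right _ _).trans (le_max_left _ _)).trans (le_max_right _ _)
  simp only [dynP, Prod.dist_eq, dist_self, max_le_iff, Real.dist_eq] at *
  exact ⟨by simp, ⟨(abs_sin_sub_sin_le _ _).trans h1, (abs_cos_sub_cos_le _ _).trans h1⟩,
    ⟨(abs_sin_sub_sin_le _ _).trans h2, (abs_cos_sub_cos_le _ _).trans h2⟩,
    (abs_sin_sub_sin_le _ _).trans h3, (abs_cos_sub_cos_le _ _).trans h3⟩

theorem dyn_lip (h : Prof α ν B) (M j : ℝ) : ∃ L : ℝ≥0, ∀ δ ∈ Icc (0 : ℝ) 1,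
    LipschitzWith L (dynX α ν B M j δ) ∧ ∀ z, ‖dynX α ν B M j δ z‖ ≤ L := by
  obtain ⟨K, hK⟩ := (dynY_smooth h M j).contDiffOn.exists_lipschitzOnWith (by simp)
    (convex_closedBall 0 1) (isCompact_closedBall 0 1)
  obtain ⟨R, hR⟩ := (isCompact_closedBall (0 : ℝ × (ℝ × ℝ) × (ℝ × ℝ) × (ℝ × ℝ)) 1
    ).exists_bound_of_continuousOn (dynY_smooth h M j).continuous.continuousOn
  refine ⟨K + R.toNNReal, fun δ hδ => ⟨LipschitzWith.of_dist_le_mul fun z z' => ?_, fun z => ?_⟩⟩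
  · refine (hK.dist_le_mul _ (dynP_mem hδ z) _ (dynP_mem hδ z')).trans ?_
    refine mul_le_mul ?_ (dynP_lip δ z z') dist_nonneg (NNReal.coe_nonneg _)
    simp
  · refine (hR _ (dynP_mem hδ z)).trans ?_
    have h1 := Real.le_coe_toNNReal R
    have h2 := K.coe_nonneg
    push_cast
    linarith

theorem dyn_vf (h : Prof α ν B) (M j δ : ℝ) (z v : E) :
    om (dynX α ν B M j δ z) v = fderiv ℝ (dynH α ν B M j δ) z v := by
  have hl : HasDerivAt (fun s : ℝ => z + s • v) v 0 := by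
    simpa using ((hasDerivAt_id (0 : ℝ)).smul_const v).const_add z
  have hF : HasDerivAt (fun s : ℝ => dynH α ν B M j δ (z + s • v))
      (fderiv ℝ (dynH α ν B M j δ) z v) 0 := by
    have h1 : HasFDerivAt (dynH α ν B M j δ) (fderiv ℝ (dynH α ν B M j δ) z) (z + (0 : ℝ) • v) := by
      rw [zero_smul, add_zero]
      exact (((dynH_smooth h M j δ).differentiable (by simp)) z).hasFDerivAt
    exact h1.comp_hasDerivAt 0 hl
  have hlin : ∀ a b : ℝ, HasDerivAt (fun s : ℝ => a + s * b) b 0 := fun a b => by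
    simpa using ((hasDerivAt_id (0 : ℝ)).mul_const b).const_add a
  have hθ := hlin z.1.1 v.1.1
  have hI := hlin z.1.2 v.1.2
  have hκ := hlin z.2.1.2 v.2.1.2
  have hx := hθ.sin.div_const j
  have hα := (((h.α_smooth.differentiable (by simp)) _).hasDerivAt).comp 0 hx
  have hν := (((h.ν_smooth.differentiable (by simp)) _).hasDerivAt).comp 0 hx
  have hB := (((h.B_smooth.differentiable (by simp)) _).hasDerivAt).comp 0 hI.cos
  have hG := (((hI.sin.pow 3).const_mul M).add (hI.sin.const_mul δ)).add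
    (hB.mul ((hI.sin.mul hν).add (hα.mul hκ.sin)))
  refine Eq.trans ?_ (hG.unique hF)
  simp only [om, ar, dynX, dynY, dynP, zero_mul, add_zero, Function.comp_apply, Pi.add_apply,
    Pi.mul_apply, Prod.fst_zero, Prod.snd_zero, Nat.cast_ofNat, Nat.add_one_sub_one]
  ring

theorem dyn_per {x : ℝ} (hx : x ∈ Z1) (y : ℝ) : sin (y + x) = sin y ∧ cos (y + x) = cos y := by
  obtain ⟨a, rfl⟩ := mem_Z1.1 hx
  rw [mul_comm (2 * π)]
  exact ⟨sin_add_int_mul_two_pi y a, cos_add_int_mul_two_pi y a⟩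

theorem dynP_add (δ : ℝ) (z w : E) (h1 : w.1 ∈ Z2) (h2 : w.2.1.2 ∈ Z1) :
    dynP δ (z + w) = dynP δ z := by
  simp only [dynP, Prod.fst_add, Prod.snd_add, dyn_per (mem_Z2.1 h1).1, dyn_per (mem_Z2.1 h1).2,
    dyn_per h2]

theorem dyn_om_self (w : E) : om w w = 0 := by
  simp only [om, ar]
  ring

theorem dyn_prim {φ : ℝ → ℝ} (hc : Continuous φ) (hp : Function.Periodic φ (2 * π))
    (h0 : ∫ x in (0 : ℝ)..2 * π, φ x = 0) {K : ℝ} (hK : ∀ x, |φ x| ≤ K) :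
    ∃ Ψ : ℝ → ℝ, (∀ x, HasDerivAt Ψ (φ x) x) ∧ ∀ x y, ∀ l ∈ Z1, Ψ x - Ψ y ≤ K * |x - y - l| := by
  have hd : ∀ x, HasDerivAt (fun u => ∫ x in (0 : ℝ)..u, φ x) (φ x) x := fun x =>
    intervalIntegral.integral_hasDerivAt_right (hc.intervalIntegrable _ _)
      (hc.stronglyMeasurableAtFilter _ _) hc.continuousAt
  have hper : Function.Periodic (fun u => ∫ x in (0 : ℝ)..u, φ x) (2 * π) := by
    intro u
    have h1 := hp.intervalIntegral_add_eq u 0
    rw [zero_add, h0] at h1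
    have h2 := intervalIntegral.integral_add_adjacent_intervals (μ := MeasureTheory.volume)
      (hc.intervalIntegrable 0 u) (hc.intervalIntegrable u (u + 2 * π))
    rw [h1, add_zero] at h2
    exact h2.symm
  refine ⟨_, hd, fun x y l hl => ?_⟩
  obtain ⟨a, rfl⟩ := mem_Z1.1 hl
  have h1 := hper.int_mul a y
  have h2 := (convex_univ (𝕜 := ℝ) (E := ℝ)).norm_image_sub_le_of_norm_hasDerivWithin_le
    (f := fun u => ∫ x in (0 : ℝ)..u, φ x) (f' := φ) (C := K)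
    (fun x _ => (hd x).hasDerivWithinAt) (fun x _ => hK x) (mem_univ (y + a * (2 * π)))
    (mem_univ x)
  simp only [Real.norm_eq_abs] at h1 h2
  rw [h1] at h2
  have h3 : x - y - 2 * π * a = x - (y + a * (2 * π)) := by ring
  rw [h3]
  exact (le_abs_self _).trans h2

open MP_75a63e_an in
theorem dyn_cons {δ : ℝ} {φ : ℝ → E → E} {L : ℝ≥0} (hf : BFlow (dynX α ν B M j δ) φ L L) (s : ℝ)
    (z : E) : (φ s z).2.1.2 = z.2.1.2 ∧ (φ s z).2.2 = z.2.2 := by
  have h1 : ∀ t, HasDerivAt (fun s => (φ s z).2.1.2) 0 t := fun t => (hf.deriv z t).snd.fst.snd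
  have h2 : ∀ t, HasDerivAt (fun s => (φ s z).2.2) 0 t := fun t => (hf.deriv z t).snd.snd
  have h3 := is_const_of_deriv_eq_zero (fun s => (h1 s).differentiableAt)
    (fun s => (h1 s).deriv) s 0
  have h4 := is_const_of_deriv_eq_zero (fun s => (h2 s).differentiableAt)
    (fun s => (h2 s).deriv) s 0
  simp only [hf.zero] at h3 h4
  exact ⟨h3, h4⟩

open MP_75a63e_an in
theorem dyn_flat (h : Prof α ν B) {δ : ℝ} {φ : ℝ → E → E} {L : ℝ≥0}
    (hf : BFlow (dynX α ν B M j δ) φ L L) {z : E} (hz : cos z.1.2 ≤ 1 / 2) (s : ℝ) :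
    (φ s z).2.1.1 = z.2.1.1 := by
  have hB : B (cos z.1.2) = 0 := h.B_zero _ hz
  have hB' : deriv B (cos z.1.2) = 0 :=
    IsLocalMin.deriv_eq_zero (Filter.Eventually.of_forall fun x => hB ▸ h.B_nonneg x)
  set w : E := ((cos z.1.2 * (3 * M * sin z.1.2 ^ 2 + δ), 0), 0, 0) with hw
  have hX : ∀ t : ℝ, dynX α ν B M j δ (z + t • w) = w := by
    intro t
    have h1 : (z + t • w).1.2 = z.1.2 := by simp [hw]
    simp only [dynX, dynY, dynP, h1, hB, hB', zero_mul, mul_zero, add_zero, sub_zero, neg_zero]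
    rfl
  have h2 := hf.unique (γ := fun t : ℝ => z + t • w) (fun t => by
    rw [hX]
    simpa using ((hasDerivAt_id t).smul_const w).const_add z) s
  simp only [zero_smul, add_zero] at h2
  rw [← h2]
  simp [hw]

open MP_75a63e_an in
theorem dyn_wind (h : Prof α ν B) {δ K : ℝ} {φ : ℝ → E → E} {L : ℝ≥0}
    (hf : BFlow (dynX α ν B M j δ) φ L L) (hK : 0 ≤ K)
    (he : ∀ g, |g| ≤ 1 → ∀ e, ∃ ψ : ℝ → ℝ, Continuous ψ ∧
      Function.Periodic ψ (2 * π) ∧ ∫ x in (0 : ℝ)..2 * π, ψ x = 0 ∧ (∀ x, |ψ x| ≤ K) ∧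
      ∀ θ I, 1 / 2 < cos I → h1 α ν B M j δ g θ I = e →
        |α (sin θ / j)| ≤ 1 / 16 + ψ θ * v1 α ν B M j δ g θ I)
    (s : ℝ) (z : E) (hs : 0 ≤ s) {l : ℝ} (hl : l ∈ Z1) :
    |(φ s z).2.1.1 - z.2.1.1| ≤ s / 16 + K * |(φ s z).1.1 - z.1.1 - l| := by
  by_cases hc : ∃ s₀, cos (φ s₀ z).1.2 ≤ 1 / 2
  · obtain ⟨s₀, hs₀⟩ := hc
    have h1 := dyn_flat h hf hs₀ (s - s₀)
    have h2 := dyn_flat h hf hs₀ (-s₀)
    rw [← hf.add, sub_add_cancel] at h1
    rw [hf.neg_apply] at h2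
    rw [h1, h2, sub_self, abs_zero]
    positivity
  · push Not at hc
    obtain ⟨ψ, hψc, hψp, hψ0, hψK, hψ⟩ := he (sin z.2.1.2) (abs_sin_le_one _) (dynH α ν B M j δ z)
    obtain ⟨Ψ, hΨ, hΨK⟩ := dyn_prim hψc hψp hψ0 hψK
    have hH : ∀ t, dynH α ν B M j δ (φ t z) = dynH α ν B M j δ z := fun t =>
      hf.conserved (fun t => ((dynH_smooth h M j δ).differentiable (by simp)) _)
        (fun t => by rw [← dyn_vf h, dyn_om_self]) t
    have hθ : ∀ t, HasDerivAt (fun s => (φ s z).1.1)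
        (v1 α ν B M j δ (sin z.2.1.2) (φ t z).1.1 (φ t z).1.2) t := fun t => by
      rw [← (dyn_cons hf t z).1]
      exact (hf.deriv z t).fst.fst
    have ht : ∀ t, HasDerivAt (fun s => (φ s z).2.1.1)
        (B (cos (φ t z).1.2) * α (sin (φ t z).1.1 / j) * cos (φ t z).2.1.2) t := fun t =>
      (hf.deriv z t).snd.fst.fst
    have hb : ∀ t, |B (cos (φ t z).1.2) * α (sin (φ t z).1.1 / j) * cos (φ t z).2.1.2| ≤
        1 / 16 + ψ (φ t z).1.1 * v1 α ν B M j δ (sin z.2.1.2) (φ t z).1.1 (φ t z).1.2 := by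
      intro t
      refine le_trans ?_ (hψ _ _ (hc t) ?_)
      · rw [abs_mul, abs_mul, abs_of_nonneg (h.B_nonneg _)]
        exact (mul_le_of_le_one_right (mul_nonneg (h.B_nonneg _) (abs_nonneg _))
          (abs_cos_le_one _)).trans (mul_le_of_le_one_left (abs_nonneg _) (h.B_le _))
      · rw [← hH t, ← (dyn_cons hf t z).1]
        rfl
    have hd : ∀ t, HasDerivAt (fun s => s / 16 + Ψ (φ s z).1.1)
        (1 / 16 + ψ (φ t z).1.1 * v1 α ν B M j δ (sin z.2.1.2) (φ t z).1.1 (φ t z).1.2) t :=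
      fun t => ((hasDerivAt_id t).div_const 16).add ((hΨ _).comp t (hθ t))
    have m1 : Monotone fun s => s / 16 + Ψ (φ s z).1.1 - (φ s z).2.1.1 :=
      monotone_of_deriv_nonneg (fun t => ((hd t).sub (ht t)).differentiableAt) fun t => by
        rw [((hd t).fun_sub (ht t)).deriv]
        linarith [(abs_le.1 (hb t)).2]
    have m2 : Monotone fun s => s / 16 + Ψ (φ s z).1.1 + (φ s z).2.1.1 :=
      monotone_of_deriv_nonneg (fun t => ((hd t).add (ht t)).differentiableAt) fun t => by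
        rw [((hd t).fun_add (ht t)).deriv]
        linarith [(abs_le.1 (hb t)).1]
    have k1 := m1 hs
    have k2 := m2 hs
    have k3 := hΨK (φ s z).1.1 z.1.1 l hl
    simp only [hf.zero] at k1 k2
    rw [abs_le]
    constructor <;> linarith

end

theorem exists_base : ∃ H Φ L C, Base H Φ L C := by
  obtain ⟨α, ν, B, h⟩ := exists_prof
  obtain ⟨M, j, C, hj, hC, he⟩ := est h
  obtain ⟨L, hL⟩ := dyn_lip h M j
  have hch : ∀ δ : ℝ, ∃ φ : ℝ → E → E,
      δ ∈ Icc (0 : ℝ) 1 → MP_75a63e_an.BFlow (dynX α ν B M j δ) φ L L := by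
    intro δ
    by_cases hδ : δ ∈ Icc (0 : ℝ) 1
    · obtain ⟨φ, hφ⟩ := MP_75a63e_an.exists_bflow (hL δ hδ).1 (hL δ hδ).2
      exact ⟨φ, fun _ => hφ⟩
    · exact ⟨fun _ z => z, fun h => absurd h hδ⟩
  choose Φ hΦ using hch
  refine ⟨dynH α ν B M j, Φ, L, C, L.coe_nonneg, hC, dynH_smooth h M j, ?_, ?_,
    fun δ hδ => (hΦ δ hδ).zero, fun δ hδ => (hΦ δ hδ).add,
    fun δ hδ z s => ⟨_, (hΦ δ hδ).deriv z s, dyn_vf h M j δ _⟩, ?_,
    fun δ hδ => dyn_cons (hΦ δ hδ), ?_, ?_, ?_, ?_⟩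
  · intro δ z w h1 h2
    simp only [dynH, MP_de3acd_gt.h1, Prod.fst_add, Prod.snd_add, dyn_per (mem_Z2.1 h1).1,
      dyn_per (mem_Z2.1 h1).2, dyn_per h2]
  · intro δ z
    have h1 : dynH α ν B M j 0 z - dynH α ν B M j δ z = -(δ * sin z.1.2) := by
      simp only [dynH, MP_de3acd_gt.h1]
      ring
    rw [h1, abs_neg, abs_mul]
    exact mul_le_of_le_one_right (abs_nonneg _) (abs_sin_le_one _)
  · intro δ hδ s z w h1 h2
    have h3 := (hΦ δ hδ).unique (γ := fun t => Φ δ t z + w) (fun t => by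
      rw [dynX, dynP_add δ _ w h1 h2]
      exact ((hΦ δ hδ).deriv z t).add_const w) s
    simp only [(hΦ δ hδ).zero] at h3
    exact h3.symm
  · intro δ hδ s z z' hs
    rw [mul_comm]
    exact (hΦ δ hδ).dist_le_of_nonneg z z' hs
  · intro δ hδ s z hs
    have h1 := (hΦ δ hδ).dist_time z s 0
    rwa [(hΦ δ hδ).zero, sub_zero, abs_of_nonneg hs] at h1
  · intro s y
    have h0 : (0 : ℝ) ∈ Icc (0 : ℝ) 1 := ⟨le_rfl, zero_le_one⟩
    have hX : ∀ t : ℝ, dynX α ν B M j 0 ((0, (t, 0), y) : E) = (0, (1, 0), 0) := by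
      intro t
      have h1 : α 0 = 1 := by simpa using h.α_eq 0 (by norm_num)
      have h2 : B 1 = 1 := h.B_one 1 (by norm_num)
      simp [dynX, dynY, dynP, h.ν_zero, h1, h2]
    have h3 := (hΦ 0 h0).unique (γ := fun t : ℝ => ((0, (t, 0), y) : E)) (fun t => by
      rw [hX]
      exact (hasDerivAt_const t (0 : Pl)).prodMk
        (((hasDerivAt_id t).prodMk (hasDerivAt_const t (0 : ℝ))).prodMk (hasDerivAt_const t y))) s
    exact h3.symm
  · intro δ hδ s z hs l hl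
    exact dyn_wind h (hΦ δ (Ioc_subset_Icc_self hδ)) (div_pos hC hδ.1).le (he δ hδ) s z hs hl

end Pool.Agent.P.MP_de3acd_gt
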