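import Pool.Agent.P.MP_de3acd_gt.Grp
import Pool.Agent.P.MP_de3acd_gt.Cat

/-! The lower bound for the entropy. -/

open Set Real Filter Topology
open scoped ContDiff NNReal

namespace Pool.Agent.P.MP_de3acd_gt

theorem int_zero_Ent {m : ℤ} (h : |2 * π * m| < 6) : m = 0 := by
  by_contra hm
  have h1 : (1 : ℝ) ≤ |(m : ℝ)| := by exact_mod_cast Int.one_le_abs hm
  rw [abs_mul, abs_of_pos two_pi_pos] at h
  nlinarith [pi_gt_three]

theorem lattice_zero_Ent {l : Pl} (hl : l ∈ Z2) (h : ‖l‖ < 6) : l = 0 := by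
  obtain ⟨a, ha⟩ := mem_Z1.1 hl.1
  obtain ⟨b, hb⟩ := mem_Z1.1 hl.2
  have h1 : |l.1| < 6 := (norm_fst_le l).trans_lt h
  have h2 : |l.2| < 6 := (norm_snd_le l).trans_lt h
  rw [ha] at h1
  rw [hb] at h2
  refine Prod.ext ?_ ?_
  · rw [ha, int_zero_Ent h1]; simp
  · rw [hb, int_zero_Ent h2]; simp

theorem lift_Ent {n : ℕ} {z : E} {y : Pl} (h : pr (Gam n) z = pr (Gam n) (0, 0, y))
    (ht : |z.2.1.1| < 6) : ∃ l ∈ Z2, z.2.2 = y + l := by
  obtain ⟨γ, ⟨m, l, h1, h2, h3⟩, rfl⟩ := pr_eq.1 h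
  rw [h3] at ht ⊢
  have h4 : m = 0 := by
    apply int_zero_Ent
    simpa [h2] using ht
  exact ⟨l.2.2, h1.2.2, by rw [h4]; rfl⟩

theorem sep_Ent {n k : ℕ} (hn : 3 ≤ n) {a : ℝ} (h0 : 1 ≤ (n : ℝ) ^ k * a) (h1 : a < 1)
    (h : ∀ i < k + 1, ∃ l ∈ Z2, ‖(cat n ^ (i : ℤ)) (a, 0) - l‖ < 1 / (2 * n + 1)) : False := by
  have hn' : (3 : ℝ) ≤ n := by exact_mod_cast hn
  have hr : 1 / (2 * (n : ℝ) + 1) < 1 := by
    rw [div_lt_one (by linarith)]; linarith
  have ha : 0 < a := by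
    by_contra hc
    nlinarith [pow_pos (show (0 : ℝ) < n by linarith) k]
  have step : ∀ i < k + 1, ‖(cat n ^ (i : ℤ)) (a, 0)‖ < 1 →
      ‖(cat n ^ (i : ℤ)) (a, 0)‖ < 1 / (2 * n + 1) := by
    intro i hi hx
    obtain ⟨l, hl, h2⟩ := h i hi
    have h3 : ‖l‖ < 6 := by
      have := norm_sub_norm_le l ((cat n ^ (i : ℤ)) (a, 0))
      rw [norm_sub_rev] at this
      linarith
    rwa [lattice_zero_Ent hl h3, sub_zero] at h2
  have key : ∀ i < k + 1, ‖(cat n ^ (i : ℤ)) (a, 0)‖ < 1 / (2 * n + 1) := by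
    intro i
    induction i with
    | zero =>
      intro hi
      refine step 0 hi ?_
      change ‖((a, 0) : Pl)‖ < 1
      simp [abs_of_pos ha, h1]
    | succ i ih =>
      intro hi
      refine step _ hi ?_
      have h2 := ih (by omega)
      have h3 := norm_cat_zpow_le (n := n) (by omega) 1 ((cat n ^ (i : ℤ)) (a, 0))
      rw [← cat_zpow_add, add_comm] at h3
      push_cast
      refine h3.trans_lt ?_
      rw [lt_div_iff₀ (by linarith)] at h2
      simp only [Int.natAbs_one, pow_one]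
      nlinarith [norm_nonneg ((cat n ^ (i : ℤ)) (a, 0))]
  have h4 := (cat_pow_ge (n := n) (by omega) k (y := (a, 0)) ha.le le_rfl).1
  have h5 := (norm_fst_le _).trans_lt (key k (by omega))
  rw [Real.norm_eq_abs] at h5
  have h6 := le_abs_self ((cat n ^ (k : ℤ)) (a, 0)).1
  simp only at h4
  linarith

theorem entropy_ge {n : ℕ} (hn : 3 ≤ n) (hΓ : Good (Gam n)) (f : Q (Gam n) → Q (Gam n))
    (hf : ∀ y : Pl, f (pr _ (0, 0, y)) = pr _ (0, 0, cat n y)) :
    ((log n : ℝ) : EReal) ≤ htop hΓ f := by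
  have := hΓ.cont
  have := hΓ.disc
  have := hΓ.cpt
  let _ : UniformSpace (Q (Gam n)) := uniformSpaceOfCompactR1
  change _ ≤ Dynamics.coverEntropy f univ
  have hn' : (3 : ℝ) ≤ n := by exact_mod_cast hn
  have hr : 1 / (2 * (n : ℝ) + 1) < 1 := by
    rw [div_lt_one (by linarith)]; linarith
  let W : Set (E × E) := {p | dist p.1 p.2 < 1 / (2 * n + 1) ∧ |p.1.2.1.1| < 5}
  let U : Set (Q (Gam n) × Q (Gam n)) := Prod.map (pr _) (pr _) '' W
  have hW : IsOpen W :=
    IsOpen.and (isOpen_lt (by fun_prop) continuous_const) (isOpen_lt (by fun_prop) continuous_const)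
  have hpr : IsOpenMap (pr (Gam n)) := isOpenMap_quotient_mk'_mul
  have hdiag : ∀ x, (x, x) ∈ U := by
    intro x
    obtain ⟨z, rfl⟩ := Quotient.exists_rep x
    obtain ⟨γ, hγ, -, -, h3, -⟩ := exists_rep n z
    have h4 : pr (Gam n) (γ z) = pr (Gam n) z := pr_eq.2 ⟨γ, hγ, rfl⟩
    refine ⟨(γ z, γ z), ⟨?_, ?_⟩, Prod.ext h4 h4⟩
    · rw [dist_self]; positivity
    · rw [abs_lt]
      constructor <;> nlinarith [h3.1, h3.2, pi_lt_d2]
  have hU : U ∈ uniformity (Q (Gam n)) := by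
    change U ∈ 𝓝ˢ (diagonal _)
    refine (hpr.prodMap hpr W hW).mem_nhdsSet.2 ?_
    rintro ⟨x, x'⟩ h
    obtain rfl : x = x' := h
    exact hdiag x
  have hkey : ∀ y y' : Pl, (pr (Gam n) (0, 0, y), pr (Gam n) (0, 0, y')) ∈ U →
      ∃ l ∈ Z2, ‖y - y' - l‖ < 1 / (2 * n + 1) := by
    rintro y y' ⟨⟨z, z'⟩, ⟨h1, h2⟩, h3⟩
    rw [Prod.ext_iff] at h3
    rw [dist_eq_norm] at h1
    have h4 : |z.2.1.1 - z'.2.1.1| < 1 :=
      (((norm_fst_le (z - z').2.1).trans (norm_fst_le (z - z').2)).trans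
        (norm_snd_le (z - z'))).trans_lt (h1.trans hr)
    obtain ⟨l, hl, e⟩ := lift_Ent h3.1 (h2.trans (by norm_num))
    obtain ⟨l', hl', e'⟩ := lift_Ent h3.2 (by
      simp only at h2
      rw [abs_lt] at h2 h4 ⊢
      constructor <;> linarith [h2.1, h2.2, h4.1, h4.2])
    refine ⟨l' - l, sub_mem hl' hl, ?_⟩
    have h5 : y - y' - (l' - l) = (z - z').2.2 := by
      change _ = z.2.2 - z'.2.2
      rw [e, e']; abel
    rw [h5]
    exact ((norm_snd_le _).trans (norm_snd_le _)).trans_lt h1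
  have hit : ∀ (i : ℕ) (y : Pl),
      f^[i] (pr _ (0, 0, y)) = pr _ (0, 0, (cat n ^ (i : ℤ)) y) := by
    intro i y
    induction i with
    | zero => rfl
    | succ i ih =>
      rw [Function.iterate_succ_apply', ih, hf, Nat.cast_succ, add_comm, cat_zpow_add, zpow_one]
  obtain ⟨V, hV, hVs, hVU⟩ := comp_symm_mem_uniformity_sets hU
  refine le_trans ?_ (Dynamics.netEntropyEntourage_le_coverEntropy f univ hV)
  have hcard : ∀ k : ℕ, ((n ^ k : ℕ) : ℕ∞) ≤ Dynamics.netMaxcard f univ V (k + 1) := by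
    intro k
    classical
    let x : ℕ → Q (Gam n) := fun j => pr _ (0, 0, ((j : ℝ) / n ^ k, 0))
    have hpos : (0 : ℝ) < n ^ k := by positivity
    have hx : ∀ j < n ^ k, ∀ j' < n ^ k,
        (∀ i < k + 1, (f^[i] (x j), f^[i] (x j')) ∈ U) → j = j' := by
      intro j hj j' hj' h
      have hj1 : (j : ℝ) < n ^ k := by exact_mod_cast hj
      have hj2 : (j' : ℝ) < n ^ k := by exact_mod_cast hj'
      have hj3 : (0 : ℝ) ≤ j := Nat.cast_nonneg j
      have hj4 : (0 : ℝ) ≤ j' := Nat.cast_nonneg j'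
      rcases lt_trichotomy j j' with c | c | c
      · exfalso
        have c' : (j : ℝ) + 1 ≤ j' := by exact_mod_cast c
        refine sep_Ent hn (k := k) (a := (j' - j) / n ^ k) ?_ ?_ fun i hi => ?_
        · rw [mul_div_cancel₀ _ hpos.ne']; linarith
        · rw [div_lt_one hpos]; linarith
        · have h1 := h i hi
          simp only [x, hit] at h1
          obtain ⟨l, hl, h2⟩ := hkey _ _ h1
          refine ⟨-l, neg_mem hl, ?_⟩
          rw [← norm_neg, ← map_sub] at h2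
          have h3 : (((j' - j) / n ^ k, 0) : Pl) =
              -((((j : ℝ) / n ^ k, 0) : Pl) - ((j' : ℝ) / n ^ k, 0)) := by
            refine Prod.ext ?_ ?_ <;> simp
            ring
          rw [h3, map_neg, ← neg_sub']
          exact h2
      · exact c
      · exfalso
        have c' : (j' : ℝ) + 1 ≤ j := by exact_mod_cast c
        refine sep_Ent hn (k := k) (a := (j - j') / n ^ k) ?_ ?_ fun i hi => ?_
        · rw [mul_div_cancel₀ _ hpos.ne']; linarith
        · rw [div_lt_one hpos]; linarith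
        · have h1 := h i hi
          simp only [x, hit] at h1
          obtain ⟨l, hl, h2⟩ := hkey _ _ h1
          refine ⟨l, hl, ?_⟩
          rw [← map_sub] at h2
          have h3 : (((j - j') / n ^ k, 0) : Pl) =
              (((j : ℝ) / n ^ k, 0) : Pl) - ((j' : ℝ) / n ^ k, 0) := by
            refine Prod.ext ?_ ?_ <;> simp
            ring
          rw [h3]
          exact h2
    have hnet : Dynamics.IsDynNetIn f univ V (k + 1)
        ((Finset.range (n ^ k)).image x : Finset _) := by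
      refine ⟨subset_univ _, ?_⟩
      intro a ha b hb hab
      simp only [Finset.coe_image, Finset.coe_range, mem_image, mem_Iio] at ha hb
      obtain ⟨j, hj, rfl⟩ := ha
      obtain ⟨j', hj', rfl⟩ := hb
      refine disjoint_left.2 fun w h1 h2 => hab (congrArg x (hx j hj j' hj' fun i hi => ?_))
      exact hVU ⟨f^[i] w, Dynamics.mem_dynEntourage.1 h1 i hi,
        SetRel.symm V (Dynamics.mem_dynEntourage.1 h2 i hi)⟩
    have h1 := hnet.card_le_netMaxcard
    rwa [Finset.card_image_of_injOn, Finset.card_range] at h1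
    intro j hj j' hj' e
    refine hx j (Finset.mem_range.1 hj) j' (Finset.mem_range.1 hj') fun i _ => ?_
    rw [e]; exact hdiag _
  have hn0 : (n : ENNReal) ≠ 0 := Nat.cast_ne_zero.2 (by omega)
  have h2 : ((log n : ℝ) : EReal) = ExpGrowth.expGrowthSup fun k => (n : ENNReal) ^ k := by
    rw [ExpGrowth.expGrowthSup_pow, ← ENNReal.ofReal_natCast,
      ENNReal.log_ofReal_of_pos (by linarith)]
  rw [h2]
  refine ExpGrowth.expGrowthSup_of_eventually_ge (b := (n : ENNReal)⁻¹)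
    (ENNReal.inv_ne_zero.2 (ENNReal.natCast_ne_top n)) (eventually_atTop.2 ⟨1, fun k hk => ?_⟩)
  obtain ⟨k, rfl⟩ : ∃ j, k = j + 1 := ⟨k - 1, by omega⟩
  rw [pow_succ', ← mul_assoc, ENNReal.inv_mul_cancel hn0 (ENNReal.natCast_ne_top n), one_mul]
  have h3 := ENat.toENNReal_mono (hcard k)
  simpa using h3

end Pool.Agent.P.MP_de3acd_gt
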