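import Pool.Agent.P.MP_de3acd_gt.EstA

/-! The Lyapunov function. -/

open Set Real Filter Topology
open scoped ContDiff NNReal

namespace Pool.Agent.P.MP_de3acd_gt

variable {α ν B : ℝ → ℝ}

theorem est_root : ∃ r : ℝ → ℝ, Continuous r ∧ (∀ t, 0 ≤ r t) ∧ ∀ t, 0 ≤ t → r t ^ 3 = t := by
  refine ⟨fun t => |t| ^ ((3 : ℕ) : ℝ)⁻¹, continuous_abs.rpow_const fun _ => Or.inr (by positivity),
    fun t => by positivity, fun t ht => ?_⟩
  simp only [abs_of_nonneg ht]
  exact Real.rpow_inv_natCast_pow ht (by norm_num)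

theorem est_int_le {f : ℝ → ℝ} (hf : Continuous f) {a b K : ℝ} (hab : a ≤ b)
    (h : ∀ x ∈ Icc a b, f x ≤ K) : ∫ x in a..b, f x ≤ (b - a) * K := by
  have h1 := intervalIntegral.integral_mono_on (μ := MeasureTheory.volume) hab
    (hf.intervalIntegrable a b) (continuous_const.intervalIntegrable a b) h
  simpa using h1

theorem est_scale {ψ : ℝ → ℝ} (hc : Continuous ψ) (h0 : ∀ x, 1 ≤ |x| → ψ x = 0) {j : ℝ}
    (hj : 0 < j) (hj1 : j ≤ 1) :
    ∫ y in (-1 : ℝ)..1, ψ (y / j) = j * ∫ y in (-1 : ℝ)..1, ψ y := by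
  rw [intervalIntegral.integral_comp_div _ hj.ne', smul_eq_mul]
  congr 1
  have h1 : 1 ≤ 1 / j := by rwa [le_div_iff₀ hj, one_mul]
  have h2 : ∫ y in (-1 / j)..(-1 : ℝ), ψ y = 0 := by
    rw [intervalIntegral.integral_congr (g := fun _ => (0 : ℝ)) ?_, intervalIntegral.integral_zero]
    intro x hx
    rw [uIcc_of_le (by rw [neg_div]; linarith)] at hx
    exact h0 x (by rw [le_abs]; right; linarith [hx.2])
  have h3 : ∫ y in (1 : ℝ)..(1 / j), ψ y = 0 := by
    rw [intervalIntegral.integral_congr (g := fun _ => (0 : ℝ)) ?_, intervalIntegral.integral_zero]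
    intro x hx
    rw [uIcc_of_le h1] at hx
    exact h0 x (by rw [le_abs]; left; exact hx.1)
  rw [← intervalIntegral.integral_add_adjacent_intervals (b := -1) (hc.intervalIntegrable _ _)
    (hc.intervalIntegrable _ _), ← intervalIntegral.integral_add_adjacent_intervals (a := -1)
    (b := 1) (hc.intervalIntegrable _ _) (hc.intervalIntegrable _ _), h2, h3, zero_add, add_zero]

theorem est_bound (h : Prof α ν B) {g : ℝ} (hg : |g| ≤ 1) {σ : ℝ} (hσ : |σ| ≤ 1) (x : ℝ) :
    |σ * ν x + α x * g| ≤ 18 := by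
  have h1 : |σ * ν x| ≤ 16 := by
    rw [abs_mul, abs_of_nonneg (h.ν_nonneg x)]
    exact (mul_le_of_le_one_left (h.ν_nonneg x) hσ).trans (h.ν_le x)
  have h2 : |α x * g| ≤ 2 := by
    rw [abs_mul]
    exact (mul_le_of_le_one_right (abs_nonneg _) hg).trans (h.α_le x)
  linarith [abs_add_le (σ * ν x) (α x * g)]

theorem est_energy (h : Prof α ν B) {M δ g e : ℝ} (hδ : δ ∈ Ioc (0 : ℝ) 1) (hg : |g| ≤ 1) {σ : ℝ}
    (hσ : |σ| ≤ 1) {x c : ℝ} (he : M * σ ^ 3 + δ * σ + B c * (σ * ν x + α x * g) = e) :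
    |e - M * σ ^ 3| ≤ 19 := by
  have h1 : |δ * σ| ≤ 1 := by
    rw [abs_mul, abs_of_pos hδ.1]
    exact (mul_le_of_le_one_right hδ.1.le hσ).trans hδ.2
  have h2 : |B c * (σ * ν x + α x * g)| ≤ 18 := by
    rw [abs_mul, abs_of_nonneg (h.B_nonneg c)]
    exact (mul_le_of_le_one_left (abs_nonneg _) (h.B_le c)).trans (est_bound h hg hσ x)
  have h3 : e - M * σ ^ 3 = δ * σ + B c * (σ * ν x + α x * g) := by
    rw [← he]
    ring
  rw [h3]
  linarith [abs_add_le (δ * σ) (B c * (σ * ν x + α x * g))]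

/-- The property of the weight used in both cases. -/
def EstW (α ν B : ℝ → ℝ) (M K δ g e : ℝ) (ψ : ℝ → ℝ) : Prop :=
  Continuous ψ ∧ (∀ x, 0 ≤ ψ x) ∧ (∀ x, ψ x ≤ 4 / δ) ∧ (∀ x, 1 ≤ |x| → ψ x = 0) ∧
    (∀ σ, |σ| ≤ 1 → M * σ ^ 3 + δ * σ = e → (∫ x in (-1 : ℝ)..1, ψ x) * (3 * M * σ ^ 2 + δ) ≤ K) ∧
    ∀ x I, 1 / 2 < cos I → M * sin I ^ 3 + δ * sin I + B (cos I) * (sin I * ν x + α x * g) = e →
      |α x| ≤ ψ x * (cos I * (3 * M * sin I ^ 2 + δ + B (cos I) * ν x) -
        sin I * deriv B (cos I) * (sin I * ν x + α x * g))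

theorem est_big (h : Prof α ν B) {M D K δ g e : ℝ} (hM : 747 ≤ M) (hD : 42 * (18 * D) ≤ M)
    (hB : ∀ c ∈ Icc (-1 : ℝ) 1, |deriv B c| ≤ D) (hK : 112 ≤ K) (hδ : δ ∈ Ioc (0 : ℝ) 1)
    (hg : |g| ≤ 1) (he : M / 16 ≤ |e|) : ∃ ψ, EstW α ν B M K δ g e ψ := by
  have hM0 : 0 < M := by linarith
  have hc : Continuous fun x => 7 * |α x| / M := by
    have := h.α_smooth.continuous
    fun_prop
  have hle : ∀ x, 7 * |α x| / M ≤ 14 / M := fun x =>
    div_le_div_of_nonneg_right (by linarith [h.α_le x]) hM0.le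
  refine ⟨fun x => 7 * |α x| / M, hc, fun x => by positivity, fun x => (hle x).trans ?_,
    fun x hx => by simp [h.α_zero x hx], fun σ hσ _ => ?_, fun x I hI hE => ?_⟩
  · rw [div_le_div_iff₀ hM0 hδ.1]
    linarith [hδ.2]
  · have h1 := est_int_le hc (a := -1) (b := 1) (by norm_num) fun x _ => hle x
    have h2 : σ ^ 2 ≤ 1 := by rwa [sq_le_one_iff_abs_le_one]
    have h3 : 3 * M * σ ^ 2 + δ ≤ 4 * M := by nlinarith [hδ.2]
    have h4 : 0 ≤ 3 * M * σ ^ 2 + δ := by
      have := hδ.1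
      positivity
    calc (∫ x in (-1 : ℝ)..1, 7 * |α x| / M) * (3 * M * σ ^ 2 + δ)
        ≤ ((1 - -1) * (14 / M)) * (4 * M) := mul_le_mul h1 h3 h4 (by positivity)
      _ = 112 := by field_simp; ring
      _ ≤ K := hK
  · have h1 := est_energy h hδ hg (abs_sin_le_one I) hE
    have h2 : 1 / 9 ≤ sin I ^ 2 := by
      by_contra hlt
      push Not at hlt
      have h3 : |sin I| ≤ 1 / 3 := by
        rw [← sq_le_sq₀ (abs_nonneg _) (by norm_num), sq_abs]
        linarith
      have h4 : |sin I| ^ 3 ≤ (1 / 3) ^ 3 := pow_le_pow_left₀ (abs_nonneg _) h3 3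
      have h5 : |M * sin I ^ 3| ≤ M * (1 / 3) ^ 3 := by
        rw [abs_mul, abs_of_pos hM0, abs_pow]
        exact mul_le_mul_of_nonneg_left h4 hM0.le
      have h6 := abs_sub_abs_le_abs_sub e (M * sin I ^ 3)
      linarith
    have h3 : |sin I * deriv B (cos I) * (sin I * ν x + α x * g)| ≤ 18 * D := by
      rw [abs_mul, abs_mul]
      have h4 := hB (cos I) ⟨neg_one_le_cos I, cos_le_one I⟩
      have h5 := est_bound h hg (abs_sin_le_one I) x
      have h6 : |sin I| * |deriv B (cos I)| ≤ D :=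
        (mul_le_of_le_one_left (abs_nonneg _) (abs_sin_le_one I)).trans h4
      calc _ ≤ D * 18 := mul_le_mul h6 h5 (abs_nonneg _) ((abs_nonneg _).trans h4)
        _ = 18 * D := by ring
    have h4 : M / 3 ≤ 3 * M * sin I ^ 2 + δ + B (cos I) * ν x := by
      have h5 := mul_nonneg (h.B_nonneg (cos I)) (h.ν_nonneg x)
      nlinarith [hδ.1]
    have h5 : 1 / 2 * (M / 3) ≤ cos I * (3 * M * sin I ^ 2 + δ + B (cos I) * ν x) :=
      mul_le_mul hI.le h4 (by positivity) (by linarith)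
    have h6 : M / 7 ≤ cos I * (3 * M * sin I ^ 2 + δ + B (cos I) * ν x) -
        sin I * deriv B (cos I) * (sin I * ν x + α x * g) := by
      linarith [(abs_le.1 h3).2]
    calc |α x| = 7 * |α x| / M * (M / 7) := by field_simp
      _ ≤ _ := mul_le_mul_of_nonneg_left h6 (by positivity)

theorem est_small (h : Prof α ν B) {c : ℝ} (hc0 : 0 < c)
    (hc : ∀ (ψ : ℝ → ℝ) (x₀ b : ℝ), Continuous ψ → |x₀| ≤ 5 →
      0 ≤ b → (∀ x, |x| ≤ 1 / 2 → ψ x ^ 3 * (x - x₀) ^ 2 ≤ b ^ 3) →
      ∫ x in (-1 / 2 : ℝ)..1 / 2, ψ x ≤ c * b)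
    {M K δ g e : ℝ} (hM : 747 ≤ M) (hK : 3 * (64 * M + 11 * c) + 8 ≤ K) (hδ : δ ∈ Ioc (0 : ℝ) 1)
    (hg : |g| ≤ 1) (he : |e| < M / 16) : ∃ ψ, EstW α ν B M K δ g e ψ := by
  obtain ⟨r, hr, hr0, hr3⟩ := est_root
  have hM0 : 0 < M := by linarith
  have hδ0 := hδ.1
  set d : ℝ → ℝ := fun x => max (δ + ν x) (r (M * (e - g * α x) ^ 2)) with hd
  have hd1 : ∀ x, δ + ν x ≤ d x := fun x => le_max_left _ _
  have hd2 : ∀ x, M * (e - g * α x) ^ 2 ≤ d x ^ 3 := fun x => by
    rw [← hr3 (M * (e - g * α x) ^ 2) (by positivity)]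
    exact pow_le_pow_left₀ (hr0 _) (le_max_right _ _) 3
  have hd3 : ∀ x, δ ≤ d x := fun x => le_trans (by linarith [h.ν_nonneg x]) (hd1 x)
  have hd0 : ∀ x, 0 < d x := fun x => hδ0.trans_le (hd3 x)
  have hdc : Continuous d := by
    have := h.α_smooth.continuous
    have := h.ν_smooth.continuous
    fun_prop
  have hψc : Continuous fun x => 2 * |α x| / d x :=
    (continuous_const.mul h.α_smooth.continuous.abs).div hdc fun x => (hd0 x).ne'
  have hψ0 : ∀ x, 0 ≤ 2 * |α x| / d x := fun x => div_nonneg (by positivity) (hd0 x).le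
  have hψ1 : ∀ x, 2 * |α x| / d x ≤ 4 / d x := fun x =>
    div_le_div_of_nonneg_right (by linarith [h.α_le x]) (hd0 x).le
  have hψ2 : ∀ x, 2 * |α x| / d x ≤ 4 / δ := fun x =>
    (hψ1 x).trans (div_le_div_of_nonneg_left (by norm_num) hδ0 (hd3 x))
  refine ⟨fun x => 2 * |α x| / d x, hψc, hψ0, hψ2, fun x hx => by simp [h.α_zero x hx],
    fun σ hσ hE => ?_, fun x I hI hE => ?_⟩
  · set N := M * σ ^ 2 with hN
    have hN0 : 0 ≤ N := by positivity
    have hN3 : N ^ 3 ≤ M * e ^ 2 := by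
      have h1 : M * e ^ 2 = N * (N + δ) ^ 2 := by
        rw [← hE, hN]
        ring
      rw [h1, pow_succ']
      exact mul_le_mul_of_nonneg_left (pow_le_pow_left₀ hN0 (by linarith) 2) hN0
    have hNc : Continuous fun x => N * (2 * |α x| / d x) := continuous_const.mul hψc
    have h1 := est_int_le hψc (a := -1) (b := 1) (by norm_num) fun x _ => hψ2 x
    have h2 : (∫ x in (-1 : ℝ)..1, 2 * |α x| / d x) * δ ≤ 8 :=
      calc _ ≤ ((1 - -1) * (4 / δ)) * δ := mul_le_mul_of_nonneg_right h1 hδ0.le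
        _ = 8 := by field_simp; ring
    have h3 : ∫ x in (-1 : ℝ)..1, N * (2 * |α x| / d x) ≤ 64 * M + 11 * c := by
      by_cases hge : 4 * |g| ≤ |e|
      · have h4 : ∀ x, N * (2 * |α x| / d x) ≤ 8 := by
          intro x
          have h5 : |g * α x| ≤ |e| / 2 := by
            rw [abs_mul]
            nlinarith [h.α_le x, abs_nonneg g]
          have h6 : |e| / 2 ≤ |e - g * α x| := by
            linarith [abs_sub_abs_le_abs_sub e (g * α x)]
          have h7 : e ^ 2 / 4 ≤ (e - g * α x) ^ 2 := by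
            have h8 := pow_le_pow_left₀ (by positivity) h6 2
            rw [sq_abs, div_pow, sq_abs] at h8
            linarith
          have h8 : N ^ 3 ≤ (2 * d x) ^ 3 := by
            have h9 := hd2 x
            have h10 := mul_le_mul_of_nonneg_left h7 hM0.le
            have h11 := pow_pos (hd0 x) 3
            nlinarith
          have h9 : N ≤ 2 * d x :=
            le_of_pow_le_pow_left₀ (by norm_num) (by linarith [hd0 x]) h8
          calc N * (2 * |α x| / d x) ≤ (2 * d x) * (4 / d x) :=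
                mul_le_mul h9 (hψ1 x) (hψ0 x) (by linarith [hd0 x])
            _ = 8 := by
              have := (hd0 x).ne'
              field_simp
              ring
        have h5 := est_int_le hNc (a := -1) (b := 1) (by norm_num) fun x _ => h4 x
        linarith
      · push Not at hge
        have hg0 : g ≠ 0 := by
          rintro rfl
          simp only [abs_zero, mul_zero] at hge
          linarith [abs_nonneg e]
        have hg2 : 0 < g ^ 2 := by positivity
        have he2 : e ^ 2 ≤ 16 * g ^ 2 := by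
          have h4 := pow_le_pow_left₀ (abs_nonneg e) hge.le 2
          rw [sq_abs, mul_pow, sq_abs] at h4
          linarith
        have hN16 : N ≤ 16 * M := by
          have h2 : σ ^ 2 ≤ 1 := by rwa [sq_le_one_iff_abs_le_one]
          rw [hN]
          nlinarith
        have h4 : ∀ x, 1 / 2 ≤ |x| → |x| ≤ 1 → N * (2 * |α x| / d x) ≤ 64 * M := by
          intro x hx1 hx2
          have h5 : 1 ≤ d x := le_trans (by linarith [h.ν_ge x hx1 hx2]) (hd1 x)
          have h6 : 2 * |α x| / d x ≤ 4 := (hψ1 x).trans (div_le_self (by norm_num) h5)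
          calc _ ≤ (16 * M) * 4 := mul_le_mul hN16 h6 (hψ0 x) (by positivity)
            _ = 64 * M := by ring
        have h5 := est_int_le hNc (a := -1) (b := -1 / 2) (by norm_num) fun x hx =>
          h4 x (by rw [le_abs]; right; linarith [hx.2]) (abs_le.2 ⟨hx.1, by linarith [hx.2]⟩)
        have h6 := est_int_le hNc (a := 1 / 2) (b := 1) (by norm_num) fun x hx =>
          h4 x (by rw [le_abs]; left; exact hx.1) (abs_le.2 ⟨by linarith [hx.1], hx.2⟩)
        have h7 := hc _ (e / g - 1) 11 hNc (by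
          have h8 : |e / g| ≤ 4 := by
            rw [abs_div, div_le_iff₀ (abs_pos.2 hg0)]
            exact hge.le
          have h9 := abs_le.1 h8
          rw [abs_le]
          constructor <;> linarith [h9.1, h9.2]) (by norm_num) (by
          intro x hx
          have h8 : (e - g * α x) ^ 2 = g ^ 2 * (x - (e / g - 1)) ^ 2 := by
            rw [h.α_eq x hx]
            field_simp
            ring
          have h9 := hd2 x
          rw [h8] at h9
          have h10 : (2 * |α x| / d x) ^ 3 ≤ (4 / d x) ^ 3 := pow_le_pow_left₀ (hψ0 x) (hψ1 x) 3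
          have h11 := pow_pos (hd0 x) 3
          have h12 : N ^ 3 * (x - (e / g - 1)) ^ 2 ≤ 16 * d x ^ 3 := by
            have h13 : N ^ 3 ≤ M * (16 * g ^ 2) :=
              hN3.trans (mul_le_mul_of_nonneg_left he2 hM0.le)
            have h14 := mul_le_mul_of_nonneg_right h13 (sq_nonneg (x - (e / g - 1)))
            linarith
          calc (N * (2 * |α x| / d x)) ^ 3 * (x - (e / g - 1)) ^ 2
              = (N ^ 3 * (x - (e / g - 1)) ^ 2) * (2 * |α x| / d x) ^ 3 := by ring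
            _ ≤ (16 * d x ^ 3) * (4 / d x) ^ 3 :=
              mul_le_mul h12 h10 (pow_nonneg (hψ0 x) 3) (by positivity)
            _ = 1024 := by
              have := (hd0 x).ne'
              field_simp
              ring
            _ ≤ 11 ^ 3 := by norm_num)
        rw [← intervalIntegral.integral_add_adjacent_intervals (b := -1 / 2)
          (hNc.intervalIntegrable _ _) (hNc.intervalIntegrable _ _),
          ← intervalIntegral.integral_add_adjacent_intervals (a := -1 / 2)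
          (b := 1 / 2) (hNc.intervalIntegrable _ _) (hNc.intervalIntegrable _ _)]
        linarith
    rw [intervalIntegral.integral_const_mul] at h3
    have h4 : 3 * M * σ ^ 2 = 3 * N := by
      rw [hN]
      ring
    rw [h4]
    linarith
  · have h1 := est_energy h hδ hg (abs_sin_le_one I) hE
    have h2 : |sin I| ≤ 1 / 2 := by
      refine le_of_pow_le_pow_left₀ (n := 3) (by norm_num) (by norm_num) ?_
      have h3 : M * |sin I| ^ 3 = |M * sin I ^ 3| := by rw [abs_mul, abs_of_pos hM0, abs_pow]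
      have h4 := abs_sub_abs_le_abs_sub (M * sin I ^ 3) e
      rw [abs_sub_comm] at h4
      have h5 : M * |sin I| ^ 3 ≤ M * (1 / 2) ^ 3 := by linarith
      exact le_of_mul_le_mul_left h5 hM0
    have h3 : sin I ^ 2 ≤ 1 / 4 := by
      have h4 := pow_le_pow_left₀ (abs_nonneg _) h2 2
      rw [sq_abs] at h4
      linarith
    have h4 : 3 / 4 ≤ cos I := by
      have h5 := sin_sq_add_cos_sq I
      nlinarith
    have hB : B (cos I) = 1 := h.B_one _ h4
    have hB' : deriv B (cos I) = 0 :=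
      IsLocalMax.deriv_eq_zero (Filter.Eventually.of_forall fun x => hB ▸ h.B_le x)
    rw [hB] at hE
    rw [hB, hB', mul_zero, zero_mul, sub_zero, one_mul]
    have hν := h.ν_nonneg x
    have hs : 0 ≤ M * sin I ^ 2 := by positivity
    have h5 : d x ≤ 3 * M * sin I ^ 2 + δ + ν x := by
      refine max_le (by linarith) ?_
      refine le_of_pow_le_pow_left₀ (n := 3) (by norm_num) (by positivity) ?_
      rw [hr3 _ (by positivity)]
      have h6 : M * (e - g * α x) ^ 2 = (M * sin I ^ 2) * (M * sin I ^ 2 + δ + ν x) ^ 2 := by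
        rw [← hE]
        ring
      rw [h6, pow_succ' _ 2]
      have h7 : M * sin I ^ 2 + δ + ν x ≤ 3 * M * sin I ^ 2 + δ + ν x := by linarith
      exact mul_le_mul (by linarith) (pow_le_pow_left₀ (by positivity) h7 2)
        (by positivity) (by positivity)
    have h6 : 1 / 2 * d x ≤ cos I * (3 * M * sin I ^ 2 + δ + ν x) :=
      mul_le_mul hI.le h5 (hd0 x).le (by linarith)
    calc |α x| = 2 * |α x| / d x * (1 / 2 * d x) := by
          have := (hd0 x).ne'
          field_simp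
      _ ≤ _ := mul_le_mul_of_nonneg_left h6 (hψ0 x)

theorem est_key (h : Prof α ν B) : ∃ M K : ℝ, 0 < M ∧ 0 < K ∧ ∀ δ ∈ Ioc (0 : ℝ) 1, ∀ g, |g| ≤ 1 →
    ∀ e, ∃ ψ, EstW α ν B M K δ g e ψ := by
  obtain ⟨c, hc0, hc⟩ := exists_sing
  obtain ⟨D, hD⟩ := (isCompact_Icc (a := (-1 : ℝ)) (b := 1)).exists_bound_of_continuousOn
    (contDiff_infty_iff_deriv.1 h.B_smooth).2.continuous.continuousOn
  have hM : (747 : ℝ) ≤ max 747 (42 * (18 * D)) := le_max_left _ _
  refine ⟨max 747 (42 * (18 * D)), 3 * (64 * max 747 (42 * (18 * D)) + 11 * c) + 8, by linarith,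
    by linarith, fun δ hδ g hg e => ?_⟩
  rcases le_or_gt (max 747 (42 * (18 * D)) / 16) |e| with he | he
  · exact est_big h hM (le_max_right _ _) hD (by linarith) hδ hg he
  · exact est_small h hc0 hc hM le_rfl hδ hg he

theorem est {α ν B : ℝ → ℝ} (h : Prof α ν B) : ∃ M j C : ℝ, 0 < j ∧ 0 < C ∧
    ∀ δ ∈ Ioc (0 : ℝ) 1, ∀ g, |g| ≤ 1 → ∀ e, ∃ φ : ℝ → ℝ, Continuous φ ∧
      Function.Periodic φ (2 * π) ∧ ∫ x in (0 : ℝ)..2 * π, φ x = 0 ∧ (∀ x, |φ x| ≤ C / δ) ∧
      ∀ θ I, 1 / 2 < cos I → h1 α ν B M j δ g θ I = e →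
        |α (sin θ / j)| ≤ 1 / 16 + φ θ * v1 α ν B M j δ g θ I := by
  obtain ⟨M, K, hM, hK, hW⟩ := est_key h
  obtain ⟨c, hc1, hc⟩ := exists_mean_zero
  have hc0 : 0 < c := by linarith
  set j : ℝ := min (1 / 4) (1 / (16 * (c * K))) with hj
  have hj0 : 0 < j := lt_min (by norm_num) (by positivity)
  have hj1 : j ≤ 1 / 4 := min_le_left _ _
  have hj2 : j * (c * K) ≤ 1 / 16 := by
    have h1 : j ≤ 1 / (16 * (c * K)) := min_le_right _ _
    rw [le_div_iff₀ (by positivity)] at h1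
    linarith
  have hout : ∀ y, 1 / 2 ≤ |y| → 2 ≤ |y / j| := by
    intro y hy
    rw [abs_div, abs_of_pos hj0, le_div_iff₀ hj0]
    linarith
  refine ⟨M, j, c * 4, hj0, by positivity, fun δ hδ g hg e => ?_⟩
  obtain ⟨ψ, hψc, hψ0, hψ1, hψz, hψi, hψ⟩ := hW δ hδ g hg e
  obtain ⟨φ, hφc, hφp, hφ0, hφ1, hφe, hφl⟩ := hc (fun y => ψ (y / j)) (4 / δ)
    (j * ∫ y in (-1 : ℝ)..1, ψ y) (hψc.comp (continuous_id.div_const j)) (fun y => hψ0 _)
    (fun y => hψ1 _) (fun y hy => hψz _ (by linarith [hout y hy]))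
    (est_scale hψc hψz hj0 (by linarith)).le
  refine ⟨φ, hφc, hφp, hφ0, fun x => by rw [mul_div_assoc]; exact hφ1 x, fun θ I hI hE => ?_⟩
  rcases le_total |sin θ| (1 / 2) with hθ | hθ
  · rw [hφe θ hθ]
    have h2 := hψ (sin θ / j) I hI hE
    rw [v1]
    linarith
  · have h2 := hout _ hθ
    have hα := h.α_zero (sin θ / j) (by linarith)
    have hν := h.ν_out (sin θ / j) h2
    simp only [h1, hα, hν, mul_zero, zero_mul, add_zero] at hE
    simp only [v1, hα, hν, mul_zero, zero_mul, add_zero, sub_zero, abs_zero]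
    have h3 := hψi (sin I) (abs_sin_le_one I) hE
    have hδ0 := hδ.1
    have h4 : 0 ≤ 3 * M * sin I ^ 2 + δ := by positivity
    have h5 : 0 ≤ ∫ y in (-1 : ℝ)..1, ψ y :=
      intervalIntegral.integral_nonneg (by norm_num) fun y _ => hψ0 y
    have h6 : cos I * (3 * M * sin I ^ 2 + δ) ≤ 3 * M * sin I ^ 2 + δ :=
      mul_le_of_le_one_left h4 (cos_le_one I)
    have h7 : 0 ≤ cos I * (3 * M * sin I ^ 2 + δ) := mul_nonneg (by linarith) h4
    have h8 := mul_le_mul_of_nonneg_right (hφl θ) h7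
    have h9 : (∫ y in (-1 : ℝ)..1, ψ y) * (cos I * (3 * M * sin I ^ 2 + δ)) ≤ K :=
      (mul_le_mul_of_nonneg_left h6 h5).trans h3
    have h10 := mul_le_mul_of_nonneg_left h9 (mul_pos hc0 hj0).le
    linarith

end Pool.Agent.P.MP_de3acd_gt
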