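import Pool.Agent.P.MP_de3acd_gt.IDefs

/-! Profile functions and two integral estimates. -/

open Set Real Filter Topology
open scoped ContDiff NNReal

namespace Pool.Agent.P.MP_de3acd_gt

theorem exists_prof : ∃ α ν B, Prof α ν B := by
  have sq1 : ∀ {x c : ℝ}, 0 ≤ c → |x| ≤ c → x ^ 2 ≤ c ^ 2 := fun {x c} hc h => by
    rw [← sq_abs x]
    exact pow_le_pow_left₀ (abs_nonneg x) h 2
  have sq2 : ∀ {x c : ℝ}, 0 ≤ c → c ≤ |x| → c ^ 2 ≤ x ^ 2 := fun {x c} hc h => by
    rw [← sq_abs x]
    exact pow_le_pow_left₀ hc h 2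
  have hs : ContDiff ℝ ∞ smoothTransition := smoothTransition.contDiff
  refine ⟨fun x => (1 + x) * smoothTransition ((1 - x ^ 2) * (4 / 3)),
    fun x => 4 * x ^ 2 * smoothTransition ((4 - x ^ 2) * (1 / 3)),
    fun x => smoothTransition (4 * x - 2), ?_, ?_, ?_, fun x hx => ?_, fun x hx => ?_, fun x => ?_,
    by simp, fun x => ?_, fun x => ?_, fun x hx hx' => ?_, fun x hx => ?_, fun x hx => ?_,
    fun x hx => ?_, fun x => smoothTransition.nonneg _, fun x => smoothTransition.le_one _⟩
  · exact (contDiff_const.add contDiff_id).mul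
      (hs.comp ((contDiff_const.sub (contDiff_id.pow 2)).mul contDiff_const))
  · exact (contDiff_const.mul (contDiff_id.pow 2)).mul
      (hs.comp ((contDiff_const.sub (contDiff_id.pow 2)).mul contDiff_const))
  · exact hs.comp ((contDiff_const.mul contDiff_id).sub contDiff_const)
  · have := sq1 (by norm_num) hx
    rw [smoothTransition.one_of_one_le (by linarith), mul_one]
  · have := sq2 (by norm_num) hx
    rw [smoothTransition.zero_of_nonpos (by linarith), mul_zero]
  · rcases le_total 1 |x| with hx | hx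
    · have := sq2 (by norm_num) hx
      rw [smoothTransition.zero_of_nonpos (by linarith), mul_zero, abs_zero]
      norm_num
    · rw [abs_mul, abs_of_nonneg (smoothTransition.nonneg _)]
      refine (mul_le_of_le_one_right (abs_nonneg _) (smoothTransition.le_one _)).trans ?_
      rw [abs_le] at hx ⊢
      constructor <;> linarith [hx.1, hx.2]
  · exact mul_nonneg (by positivity) (smoothTransition.nonneg _)
  · rcases le_total 2 |x| with hx | hx
    · have := sq2 (by norm_num) hx
      rw [smoothTransition.zero_of_nonpos (by linarith), mul_zero]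
      norm_num
    · have := sq1 (by norm_num) hx
      exact (mul_le_of_le_one_right (by positivity) (smoothTransition.le_one _)).trans
        (by linarith)
  · have h1 := sq1 (by norm_num) hx'
    have h2 := sq2 (by norm_num) hx
    rw [smoothTransition.one_of_one_le (by linarith), mul_one]
    linarith
  · have := sq2 (by norm_num) hx
    rw [smoothTransition.zero_of_nonpos (by linarith), mul_zero]
  · exact smoothTransition.zero_of_nonpos (by linarith)
  · exact smoothTransition.one_of_one_le (by linarith)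

theorem int_sin_le_EstA {ψ : ℝ → ℝ} (hc : Continuous ψ) (h0 : ∀ y, 0 ≤ ψ y)
    (hz : ∀ y, 1 / 2 ≤ |y| → ψ y = 0) :
    ∫ x in (0 : ℝ)..2 * π, ψ (sin x) ≤ 4 * ∫ y in (-1 : ℝ)..1, ψ y := by
  have hc1 : Continuous fun x => ψ (sin x) := hc.comp continuous_sin
  have hc2 : Continuous fun x => ψ (sin x) * cos x := hc1.mul continuous_cos
  have hper : Function.Periodic (fun x => ψ (sin x)) (2 * π) := fun x => by
    simp only [sin_add_two_pi]
  have key : ∀ x, ψ (sin x) ≤ 2 * (ψ (sin x) * |cos x|) := by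
    intro x
    rcases le_total (1 / 2) |sin x| with h | h
    · rw [hz _ h, zero_mul, mul_zero]
    · have h1 : 1 / 2 ≤ |cos x| := by
        by_contra h2
        have h3 := sin_sq_add_cos_sq x
        rw [← sq_abs (sin x), ← sq_abs (cos x)] at h3
        nlinarith [abs_nonneg (sin x), abs_nonneg (cos x)]
      nlinarith [h0 (sin x)]
  have sub : ∀ a b : ℝ, ∫ x in a..b, ψ (sin x) * cos x = ∫ y in sin a..sin b, ψ y := fun a b =>
    intervalIntegral.integral_comp_mul_deriv (fun x _ => hasDerivAt_sin x)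
      continuous_cos.continuousOn hc
  have hpi := pi_pos
  have e1 := hper.intervalIntegral_add_eq 0 (-(π / 2))
  rw [zero_add] at e1
  rw [e1, ← intervalIntegral.integral_add_adjacent_intervals (b := π / 2)
    (hc1.intervalIntegrable _ _) (hc1.intervalIntegrable _ _)]
  have a1 : ∫ x in -(π / 2)..π / 2, ψ (sin x) ≤
      ∫ x in -(π / 2)..π / 2, 2 * (ψ (sin x) * cos x) := by
    refine intervalIntegral.integral_mono_on (by linarith) (hc1.intervalIntegrable _ _)
      ((continuous_const.mul hc2).intervalIntegrable _ _) fun x hx => ?_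
    have := key x
    rwa [abs_of_nonneg (cos_nonneg_of_mem_Icc hx)] at this
  have a2 : ∫ x in π / 2..-(π / 2) + 2 * π, ψ (sin x) ≤
      ∫ x in π / 2..-(π / 2) + 2 * π, -2 * (ψ (sin x) * cos x) := by
    refine intervalIntegral.integral_mono_on (by linarith) (hc1.intervalIntegrable _ _)
      ((continuous_const.mul hc2).intervalIntegrable _ _) fun x hx => ?_
    have := key x
    rw [abs_of_nonpos (cos_nonpos_of_pi_div_two_le_of_le hx.1 (by linarith [hx.2]))] at this
    linarith
  rw [intervalIntegral.integral_const_mul, sub, sin_neg, sin_pi_div_two] at a1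
  rw [intervalIntegral.integral_const_mul, sub, sin_add_two_pi, sin_neg, sin_pi_div_two,
    intervalIntegral.integral_symm (-1) 1] at a2
  linarith

/-- Correction to a periodic function of mean zero. -/
theorem exists_mean_zero : ∃ c : ℝ, 1 ≤ c ∧ ∀ (ψ : ℝ → ℝ) (S m : ℝ), Continuous ψ →
    (∀ y, 0 ≤ ψ y) → (∀ y, ψ y ≤ S) → (∀ y, 1 / 2 ≤ |y| → ψ y = 0) →
    ∫ y in (-1 : ℝ)..1, ψ y ≤ m → ∃ φ : ℝ → ℝ, Continuous φ ∧ Function.Periodic φ (2 * π) ∧
      ∫ x in (0 : ℝ)..2 * π, φ x = 0 ∧ (∀ x, |φ x| ≤ c * S) ∧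
      (∀ x, |sin x| ≤ 1 / 2 → φ x = ψ (sin x)) ∧ ∀ x, -(c * m) ≤ φ x := by
  have hpi := pi_pos
  have hpi4 := pi_le_four
  set q : ℝ → ℝ := fun x => max (|sin x| - 1 / 2) 0 with hq
  have hqc : Continuous q := ((continuous_sin.abs).sub continuous_const).max continuous_const
  have hq0 : ∀ x, 0 ≤ q x := fun x => le_max_right _ _
  have hq1 : ∀ x, q x ≤ 1 / 2 := fun x => max_le (by linarith [abs_sin_le_one x]) (by norm_num)
  have hQ : 0 < ∫ x in (0 : ℝ)..2 * π, q x :=
    intervalIntegral.integral_pos (by linarith) hqc.continuousOn (fun x _ => hq0 x)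
      ⟨π / 2, ⟨by linarith, by linarith⟩, by
        simp only [hq, sin_pi_div_two, abs_one]
        norm_num⟩
  set Q : ℝ := ∫ x in (0 : ℝ)..2 * π, q x with hQd
  have hQ' : 0 < Q⁻¹ := inv_pos.2 hQ
  refine ⟨1 + 4 * Q⁻¹, by linarith, fun ψ S m hc h0 hS hz hm => ?_⟩
  have hc1 : Continuous fun x => ψ (sin x) := hc.comp continuous_sin
  set μ : ℝ := ∫ x in (0 : ℝ)..2 * π, ψ (sin x) with hμ
  have hμ0 : 0 ≤ μ := intervalIntegral.integral_nonneg (by linarith) fun x _ => h0 _
  have hμ1 : μ ≤ 4 * m := (int_sin_le_EstA hc h0 hz).trans (by linarith)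
  have hS0 : 0 ≤ S := (h0 0).trans (hS 0)
  have hμ2 : μ ≤ 8 * S := by
    have := intervalIntegral.integral_mono_on (μ := MeasureTheory.volume)
      (show (0 : ℝ) ≤ 2 * π by linarith) (hc1.intervalIntegrable _ _)
      ((continuous_const (y := S)).intervalIntegrable _ _) fun x _ => hS (sin x)
    rw [intervalIntegral.integral_const, smul_eq_mul] at this
    nlinarith
  have b1 : ∀ x, 0 ≤ μ * Q⁻¹ * q x := fun x => mul_nonneg (mul_nonneg hμ0 hQ'.le) (hq0 x)
  have b2 : ∀ x, μ * Q⁻¹ * q x ≤ μ * Q⁻¹ * (1 / 2) := fun x =>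
    mul_le_mul_of_nonneg_left (hq1 x) (mul_nonneg hμ0 hQ'.le)
  have b3 := mul_le_mul_of_nonneg_right hμ1 hQ'.le
  have b4 := mul_le_mul_of_nonneg_right hμ2 hQ'.le
  have b5 := mul_nonneg hS0 hQ'.le
  have b6 := mul_nonneg hμ0 hQ'.le
  refine ⟨fun x => ψ (sin x) - μ * Q⁻¹ * q x, hc1.sub (continuous_const.mul hqc), fun x => ?_, ?_,
    fun x => ?_, fun x hx => ?_, fun x => ?_⟩
  · simp only [hq, sin_add_two_pi]
  · beta_reduce
    rw [intervalIntegral.integral_sub (hc1.intervalIntegrable _ _)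
      ((hqc.intervalIntegrable _ _).const_mul _), intervalIntegral.integral_const_mul,
      ← hμ, ← hQd, inv_mul_cancel_right₀ hQ.ne', sub_self]
  · rw [abs_le]
    constructor <;> nlinarith [b1 x, b2 x, h0 (sin x), hS (sin x)]
  · have : q x = 0 := max_eq_right (by linarith)
    simp only [this, mul_zero, sub_zero]
  · nlinarith [b1 x, b2 x, h0 (sin x)]

/-- The singularity of order `2/3` is integrable, uniformly. -/
theorem exists_sing : ∃ c : ℝ, 0 < c ∧ ∀ (ψ : ℝ → ℝ) (x₀ b : ℝ), Continuous ψ → |x₀| ≤ 5 →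
    0 ≤ b → (∀ x, |x| ≤ 1 / 2 → ψ x ^ 3 * (x - x₀) ^ 2 ≤ b ^ 3) →
    ∫ x in (-1 / 2 : ℝ)..1 / 2, ψ x ≤ c * b := by
  set G : ℝ → ℝ := fun x => |x| ^ (-2 / 3 : ℝ) with hG
  have hG0 : ∀ x, 0 ≤ G x := fun x => rpow_nonneg (abs_nonneg x) _
  have i1 : IntervalIntegrable G MeasureTheory.volume 0 6 :=
    (intervalIntegral.intervalIntegrable_rpow' (r := -2 / 3) (by norm_num)).congr fun x hx => by
      rw [uIoc_of_le (by norm_num)] at hx
      simp only [hG, abs_of_pos hx.1]
  have i2 : IntervalIntegrable G MeasureTheory.volume (-6) 6 := by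
    have h := (IntervalIntegrable.iff_comp_neg (f := G) (a := 0) (b := 6)).1 i1
    simp only [hG, abs_neg, neg_zero] at h
    exact h.symm.trans i1
  have hI : 0 ≤ ∫ x in (-6 : ℝ)..6, G x :=
    intervalIntegral.integral_nonneg (by norm_num) fun x _ => hG0 x
  refine ⟨(∫ x in (-6 : ℝ)..6, G x) + 1, by linarith, fun ψ x₀ b hc hx₀ hb h => ?_⟩
  rw [abs_le] at hx₀
  have i3 : IntervalIntegrable G MeasureTheory.volume (-1 / 2 - x₀) (1 / 2 - x₀) := by
    refine i2.mono_set ?_
    rw [uIcc_of_le (by linarith), uIcc_of_le (by norm_num)]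
    exact Icc_subset_Icc (by linarith [hx₀.2]) (by linarith [hx₀.1])
  have i4 := i3.comp_sub_right x₀
  rw [sub_add_cancel, sub_add_cancel] at i4
  have a1 : ∫ x in (-1 / 2 : ℝ)..1 / 2, ψ x ≤ ∫ x in (-1 / 2 : ℝ)..1 / 2, b * G (x - x₀) := by
    refine intervalIntegral.integral_mono_ae_restrict (by norm_num) (hc.intervalIntegrable _ _)
      (i4.const_mul b) ((MeasureTheory.ae_restrict_iff' measurableSet_Icc).2
        (((countable_singleton x₀).ae_notMem MeasureTheory.volume).mono fun x hx hx' => ?_))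
    have ht : 0 < |x - x₀| := abs_pos.2 (sub_ne_zero.2 hx)
    have e : G (x - x₀) ^ 3 * (x - x₀) ^ 2 = 1 := by
      rw [← sq_abs (x - x₀), hG]
      beta_reduce
      rw [← rpow_natCast, ← rpow_natCast, ← rpow_mul ht.le, ← rpow_add ht]
      norm_num
    by_contra h1
    rw [not_le] at h1
    have h2 := pow_lt_pow_left₀ h1 (mul_nonneg hb (hG0 _)) three_ne_zero
    have h3 := mul_lt_mul_of_pos_right h2 (show 0 < (x - x₀) ^ 2 by rw [← sq_abs]; positivity)
    rw [mul_pow, mul_assoc, e, mul_one] at h3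
    exact absurd (h x (abs_le.2 ⟨by linarith [hx'.1], hx'.2⟩)) (not_le.2 h3)
  rw [intervalIntegral.integral_const_mul, intervalIntegral.integral_comp_sub_right] at a1
  have a2 := intervalIntegral.integral_mono_interval (f := G) (μ := MeasureTheory.volume)
    (c := -6) (d := 6) (a := -1 / 2 - x₀) (b := 1 / 2 - x₀) (by linarith [hx₀.2]) (by linarith)
    (by linarith [hx₀.1]) (Eventually.of_forall hG0) i2
  nlinarith [mul_le_mul_of_nonneg_left a2 hb]

end Pool.Agent.P.MP_de3acd_gt
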