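import Pool.Agent.P.MP_de3acd_gt.IDefs

/-! Generating Hamiltonians. -/

open Set Real Filter Topology
open scoped ContDiff NNReal

namespace Pool.Agent.P.MP_de3acd_gt

variable {Γ : Subgroup (Equiv.Perm E)} {ε ε' : ℝ} {φ ψ : E → E} {F : E → ℝ} {X : E → E}
  {H : ℝ → E → ℝ} {Φ : ℝ → ℝ → E → E} {L C δ : ℝ}

theorem om_smul_GenL (c : ℝ) (w v : E) : om (c • w) v = c * om w v := by
  simp only [om, ar, Prod.smul_fst, Prod.smul_snd, smul_eq_mul]
  ring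

theorem eq_of_om_GenL {w w' : E} (h : ∀ u, om w u = om w' u) : w = w' := by
  have h1 := h ((1, 0), 0, 0)
  have h2 := h ((0, 1), 0, 0)
  have h3 := h (0, (1, 0), 0)
  have h4 := h (0, (0, 1), 0)
  have h5 := h (0, 0, (1, 0))
  have h6 := h (0, 0, (0, 1))
  simp [om, ar] at h1 h2 h3 h4 h5 h6
  exact Prod.ext (Prod.ext h2 h1) (Prod.ext (Prod.ext h4 h3) (Prod.ext h6 h5))

theorem gam_eq_add_GenL {n : ℕ} {γ : Equiv.Perm E} (hγ : γ ∈ Gam n) (z : E) :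
    ∃ w : E, w.1 ∈ Z2 ∧ w.2.1.2 ∈ Z1 ∧ ∀ z' : E, z'.2.2 = z.2.2 → γ z' = z' + w := by
  obtain ⟨m, l, h1, -, h3⟩ := hγ
  refine ⟨(l.1, l.2.1, l.2.2 + ((cat n ^ m) z.2.2 - z.2.2)), h1.1, h1.2.1.2, fun z' hz => ?_⟩
  rw [h3]
  refine Prod.ext rfl (Prod.ext rfl ?_)
  simp only [Prod.snd_add, hz]
  abel

theorem Base.eqv_gam (h : Base H Φ L C) (hδ : δ ∈ Icc (0 : ℝ) 1) {n : ℕ} {γ : Equiv.Perm E}
    (hγ : γ ∈ Gam n) (s : ℝ) (z : E) : Φ δ s (γ z) = γ (Φ δ s z) := by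
  obtain ⟨w, h1, h2, h3⟩ := gam_eq_add_GenL hγ z
  rw [h3 z rfl, h.eqv δ hδ s z w h1 h2, h3 _ (h.cons δ hδ s z).2]

theorem Base.gen (h : Base H Φ L C) (hδ : δ ∈ Icc (0 : ℝ) 1) (n : ℕ) (T : ℝ) :
    Gen (Gam n) (fun _ z => T * H δ z) (Φ δ T) := by
  refine ⟨contDiff_const.mul ((h.smooth δ).comp contDiff_snd), fun γ hγ s z => ?_,
    fun s => Φ δ (s * T), fun z => ?_, fun z => ?_, fun z s => ?_⟩
  · obtain ⟨w, h1, h2, h3⟩ := gam_eq_add_GenL hγ z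
    rw [h3 z rfl, h.inv δ z w h1 h2]
  · simp only [zero_mul, h.zero δ hδ]
  · simp only [one_mul]
  · obtain ⟨w, hw, hw'⟩ := h.ode δ hδ z (s * T)
    refine ⟨T • w, ?_, fun v => ?_⟩
    · have := hw.scomp s (hasDerivAt_mul_const T)
      exact this
    · rw [om_smul_GenL, hw', fderiv_const_mul ((h.smooth δ).differentiable (by simp) _)]
      rfl

theorem Base.iterate (h : Base H Φ L C) (hδ : δ ∈ Icc (0 : ℝ) 1) (T : ℝ) (k : ℕ) :
    (Φ δ T)^[k] = Φ δ (k * T) := by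
  induction k with
  | zero =>
    funext z
    simp only [Function.iterate_zero, id, Nat.cast_zero, zero_mul, h.zero δ hδ]
  | succ k ih =>
    funext z
    rw [Function.iterate_succ_apply, ih, ← h.add δ hδ, Nat.cast_succ, add_mul, one_mul]

theorem Base.cl (h : Base H Φ L C) (hδ : δ ∈ Icc (0 : ℝ) 1) (n : ℕ) {T : ℝ} (hT : 0 ≤ T) :
    Cl (Gam n) (T * δ) (Φ 0 T) (Φ δ T) := by
  refine ⟨_, _, h.gen ⟨le_rfl, zero_le_one⟩ n T, h.gen hδ n T, fun s z => ?_⟩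
  have := h.close δ z
  rw [abs_of_nonneg hδ.1] at this
  rw [← mul_sub, abs_mul, abs_of_nonneg hT]
  exact mul_le_mul_of_nonneg_left this hT

theorem Cl.mono (h : Cl Γ ε φ ψ) (hε : ε ≤ ε') : Cl Γ ε' φ ψ := by
  obtain ⟨F, G, h1, h2, h3⟩ := h
  exact ⟨F, G, h1, h2, fun s z => (h3 s z).trans hε⟩

theorem Shear.mono (h : Shear Γ ε F X) (hε : ε ≤ ε') : Shear Γ ε' F X :=
  ⟨h.smooth, h.inv, h.vf, h.line, fun z => (h.le z).trans hε⟩

theorem Shear.eqv (hΓ : Good Γ) (h : Shear Γ ε F X) {γ : Equiv.Perm E} (hγ : γ ∈ Γ) (z : E) :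
    γ z + X (γ z) = γ (z + X z) := by
  obtain ⟨A, b, hA, -, -, hb⟩ := hΓ.aff γ hγ
  have hF : Differentiable ℝ F := h.smooth.differentiable (by simp)
  have hd : HasFDerivAt (fun x : E => A x + b) (LinearMap.toContinuousLinearMap A) z :=
    (LinearMap.toContinuousLinearMap A).hasFDerivAt.add_const b
  have hc := (hF (A z + b)).hasFDerivAt.comp z hd
  have he : (F ∘ fun x : E => A x + b) = F := funext fun x => by
    rw [Function.comp_apply, ← hb, h.inv γ hγ]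
  rw [he] at hc
  have key : X (γ z) = A (X z) := by
    refine eq_of_om_GenL fun u => ?_
    obtain ⟨v, hv⟩ := γ.surjective (u + b)
    rw [hb, add_left_inj] at hv
    rw [← hv, hA, h.vf, h.vf, hc.fderiv, hb]
    rfl
  rw [key, hb, hb, map_add]
  abel

theorem exists_step_GenL (a : ℝ) : ∃ (ρ : ℝ → ℝ) (D : ℝ), ContDiff ℝ ∞ ρ ∧
    (∀ s, 3 * s ≤ a → ρ s = 0) ∧ (∀ s, a + 1 ≤ 3 * s → ρ s = 1) ∧ ∀ s, |deriv ρ s| ≤ D := by
  have hs : ContDiff ℝ ∞ fun s : ℝ => smoothTransition (3 * s - a) :=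
    smoothTransition.contDiff.comp ((contDiff_const.mul contDiff_id).sub contDiff_const)
  have h0 : ∀ s, 3 * s ≤ a → smoothTransition (3 * s - a) = 0 := fun s h =>
    smoothTransition.zero_of_nonpos (by linarith)
  have h1 : ∀ s, a + 1 ≤ 3 * s → smoothTransition (3 * s - a) = 1 := fun s h =>
    smoothTransition.one_of_one_le (by linarith)
  have hc : HasCompactSupport (deriv fun s : ℝ => smoothTransition (3 * s - a)) := by
    refine HasCompactSupport.intro (isCompact_Icc (a := a / 3) (b := (a + 1) / 3)) fun x hx => ?_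
    rw [mem_Icc, not_and_or, not_le, not_le] at hx
    rcases hx with hx | hx
    · have : (fun s : ℝ => smoothTransition (3 * s - a)) =ᶠ[𝓝 x] fun _ => 0 := by
        filter_upwards [Iio_mem_nhds hx] with s hs'
        exact h0 s (by linarith [mem_Iio.1 hs'])
      rw [this.deriv_eq, deriv_const]
    · have : (fun s : ℝ => smoothTransition (3 * s - a)) =ᶠ[𝓝 x] fun _ => 1 := by
        filter_upwards [Ioi_mem_nhds hx] with s hs'
        exact h1 s (by linarith [mem_Ioi.1 hs'])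
      rw [this.deriv_eq, deriv_const]
  obtain ⟨D, hD⟩ := (hs.continuous_deriv (by simp)).bounded_above_of_compact_support hc
  exact ⟨_, D, hs, h0, h1, hD⟩

theorem Gen.diff_GenL {G : ℝ → E → ℝ} (h : Gen Γ G φ) (s : ℝ) : Differentiable ℝ (G s) :=
  (h.smooth.comp (contDiff_const.prodMk contDiff_id)).differentiable (by simp)

theorem Gen.smooth_GenL {G : ℝ → E → ℝ} (h : Gen Γ G φ) {ρ : ℝ → ℝ} (hρ : ContDiff ℝ ∞ ρ) :
    ContDiff ℝ ∞ fun p : ℝ × E => deriv ρ p.1 * G (ρ p.1) p.2 :=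
  (((contDiff_infty_iff_deriv.1 hρ).2).comp contDiff_fst).mul
    (h.smooth.comp ((hρ.comp contDiff_fst).prodMk contDiff_snd))

theorem exists_cl_shear : ∃ c : ℝ, 1 ≤ c ∧ ∀ (Γ : Subgroup (Equiv.Perm E)) (ε : ℝ) (φ ψ : E → E)
    (F : E → ℝ) (X : E → E), Cl Γ ε φ ψ → Shear Γ ε F X →
      Cl Γ (c * ε) φ fun z => ψ z + X (ψ z) := by
  obtain ⟨ρ₁, D₁, s₁, a₁, b₁, d₁⟩ := exists_step_GenL 0
  obtain ⟨ρ₂, D₂, s₂, a₂, b₂, d₂⟩ := exists_step_GenL 2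
  have hD₁ : 0 ≤ D₁ := (abs_nonneg _).trans (d₁ 0)
  have hD₂ : 0 ≤ D₂ := (abs_nonneg _).trans (d₂ 0)
  have e₁ : ∀ s, HasDerivAt ρ₁ (deriv ρ₁ s) s := fun s =>
    (s₁.differentiable (by simp) s).hasDerivAt
  have e₂ : ∀ s, HasDerivAt ρ₂ (deriv ρ₂ s) s := fun s =>
    (s₂.differentiable (by simp) s).hasDerivAt
  refine ⟨D₁ + D₂ + 1, by linarith, ?_⟩
  rintro Γ ε φ ψ F X ⟨F₁, G₁, hF, hG, hFG⟩ hS
  have hε : 0 ≤ ε := (abs_nonneg _).trans (hS.le 0)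
  have hFd : Differentiable ℝ F := hS.smooth.differentiable (by simp)
  refine ⟨fun s z => deriv ρ₁ s * F₁ (ρ₁ s) z,
    fun s z => deriv ρ₁ s * G₁ (ρ₁ s) z + deriv ρ₂ s * F z,
    ⟨hF.smooth_GenL s₁, fun γ hγ s z => by rw [hF.inv γ hγ], ?_⟩,
    ⟨(hG.smooth_GenL s₁).add ((((contDiff_infty_iff_deriv.1 s₂).2).comp contDiff_fst).mul
      (hS.smooth.comp contDiff_snd)), fun γ hγ s z => by rw [hG.inv γ hγ, hS.inv γ hγ], ?_⟩,
    fun s z => ?_⟩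
  · obtain ⟨Φ, h0, h1, h2⟩ := hF.flow
    refine ⟨fun s => Φ (ρ₁ s), fun z => ?_, fun z => ?_, fun z s => ?_⟩
    · simp only [a₁ 0 (by norm_num), h0]
    · simp only [b₁ 1 (by norm_num), h1]
    · obtain ⟨w, hw, hw'⟩ := h2 z (ρ₁ s)
      refine ⟨deriv ρ₁ s • w, hw.scomp s (e₁ s), fun v => ?_⟩
      rw [om_smul_GenL, hw', fderiv_const_mul (hF.diff_GenL _ _)]
      rfl
  · obtain ⟨Φ, h0, h1, h2⟩ := hG.flow
    have hfd : ∀ s p v, fderiv ℝ (fun z => deriv ρ₁ s * G₁ (ρ₁ s) z + deriv ρ₂ s * F z) p v =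
        deriv ρ₁ s * fderiv ℝ (G₁ (ρ₁ s)) p v + deriv ρ₂ s * fderiv ℝ F p v := fun s p v => by
      have := (((hG.diff_GenL (ρ₁ s) p).hasFDerivAt.const_mul (deriv ρ₁ s)).fun_add
        ((hFd p).hasFDerivAt.const_mul (deriv ρ₂ s))).fderiv
      rw [this]
      rfl
    refine ⟨fun s z => Φ (ρ₁ s) z + ρ₂ s • X (Φ (ρ₁ s) z), fun z => ?_, fun z => ?_,
      fun z s => ?_⟩
    · simp only [a₁ 0 (by norm_num), a₂ 0 (by norm_num), h0, zero_smul, add_zero]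
    · simp only [b₁ 1 (by norm_num), b₂ 1 (by norm_num), h1, one_smul]
    · rcases lt_or_ge s (2 / 3) with hs | hs
      · have hz : ρ₂ =ᶠ[𝓝 s] fun _ => 0 := by
          filter_upwards [Iio_mem_nhds hs] with t ht
          exact a₂ t (by linarith [mem_Iio.1 ht])
        obtain ⟨w, hw, hw'⟩ := h2 z (ρ₁ s)
        refine ⟨deriv ρ₁ s • w, (hw.scomp s (e₁ s)).congr_of_eventuallyEq ?_, fun v => ?_⟩
        · filter_upwards [hz] with t ht
          simp only [ht, zero_smul, add_zero, Function.comp_apply]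
        · rw [hfd, hz.deriv_eq, deriv_const, zero_mul, add_zero, om_smul_GenL, hw']
          simp only [hz.eq_of_nhds, zero_smul, add_zero]
      · have hs' : 1 / 3 < s := by linarith
        have hz : ρ₁ =ᶠ[𝓝 s] fun _ => 1 := by
          filter_upwards [Ioi_mem_nhds hs'] with t ht
          exact b₁ t (by linarith [mem_Ioi.1 ht])
        refine ⟨deriv ρ₂ s • X (Φ 1 z),
          (((e₂ s).smul_const (X (Φ 1 z))).const_add (Φ 1 z)).congr_of_eventuallyEq ?_,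
          fun v => ?_⟩
        · filter_upwards [hz] with t ht
          simp only [ht]
        · rw [hfd, hz.deriv_eq, deriv_const, zero_mul, zero_add, om_smul_GenL, ← hS.vf]
          simp only [hz.eq_of_nhds, hS.line]
  · have k1 : |deriv ρ₁ s * (F₁ (ρ₁ s) z - G₁ (ρ₁ s) z)| ≤ D₁ * ε := by
      rw [abs_mul]
      exact mul_le_mul (d₁ s) (hFG _ _) (abs_nonneg _) hD₁
    have k2 : |deriv ρ₂ s * F z| ≤ D₂ * ε := by
      rw [abs_mul]
      exact mul_le_mul (d₂ s) (hS.le _) (abs_nonneg _) hD₂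
    have k3 := abs_sub (deriv ρ₁ s * (F₁ (ρ₁ s) z - G₁ (ρ₁ s) z)) (deriv ρ₂ s * F z)
    have k4 : deriv ρ₁ s * F₁ (ρ₁ s) z - (deriv ρ₁ s * G₁ (ρ₁ s) z + deriv ρ₂ s * F z) =
        deriv ρ₁ s * (F₁ (ρ₁ s) z - G₁ (ρ₁ s) z) - deriv ρ₂ s * F z := by ring
    show |deriv ρ₁ s * F₁ (ρ₁ s) z - (deriv ρ₁ s * G₁ (ρ₁ s) z + deriv ρ₂ s * F z)| ≤ _
    rw [k4]
    nlinarith

end Pool.Agent.P.MP_de3acd_gt
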