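import Pool.Agent.P.MP_de3acd_gt.Cat

/-! Fixed points in the fibre. -/

open Set Real Filter Topology
open scoped ContDiff NNReal

namespace Pool.Agent.P.MP_de3acd_gt

/-- The perturbation. -/
noncomputable def rhoFib (σ : ℝ) (w : Pl) : Pl := (-(σ * sin w.2), σ * sin (w.1 - σ * sin w.2))

theorem Fb_eq_Fib (n : ℕ) (σ : ℝ) (m : ℤ) (y : Pl) :
    Fb n σ m y = ((cat n ^ m) y - y) + rhoFib σ ((cat n ^ m) y) := by
  refine Prod.ext ?_ ?_
  · simp [Fb, sh, ar, rhoFib]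
    ring
  · simp [Fb, sh, ar, rhoFib]
    rw [← neg_sub ((cat n ^ m) y).1 (σ * sin ((cat n ^ m) y).2), sin_neg]
    ring

theorem deriv_Fib (σ : ℝ) (w : Pl) : ∃ D : Pl →L[ℝ] Pl, HasFDerivAt (rhoFib σ) D w ∧ ∀ ξ, D ξ =
    (-(σ * (cos w.2 * ξ.2)), σ * (cos (w.1 - σ * sin w.2) * (ξ.1 - σ * (cos w.2 * ξ.2)))) := by
  have h1 := (hasFDerivAt_snd (𝕜 := ℝ) (p := w)).sin.const_mul σ
  have h2 := ((hasFDerivAt_fst (𝕜 := ℝ) (p := w)).sub h1).sin.const_mul σ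
  exact ⟨_, h1.neg.prodMk h2, fun ξ => by simp⟩

theorem bound_Fib {σ a b c x y r : ℝ} (h0 : 0 < σ) (h1 : σ ≤ 1) (ha : |a| ≤ |y|)
    (hb : |b| ≤ |x - σ * c|) (hc : |c| ≤ |y|) (hx : |x| ≤ r) (hy : |y| ≤ r) :
    ‖((-(σ * a), σ * b) : Pl)‖ ≤ 2 * σ * r := by
  have hr : 0 ≤ r := (abs_nonneg _).trans hx
  have h2 : |x - σ * c| ≤ 2 * r := by
    have := abs_sub x (σ * c)
    rw [abs_mul, abs_of_pos h0] at this
    nlinarith [abs_nonneg c]
  rw [Prod.norm_def, max_le_iff]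
  simp only [norm_neg, norm_mul, Real.norm_eq_abs, abs_of_pos h0]
  constructor <;> nlinarith

theorem cos_mul_Fib (t x : ℝ) : |cos t * x| ≤ |x| := by
  rw [abs_mul]
  exact mul_le_of_le_one_left (abs_nonneg _) (abs_cos_le_one t)

theorem lip_Fib {σ : ℝ} (h0 : 0 < σ) (h1 : σ ≤ 1) (w w' : Pl) :
    ‖rhoFib σ w - rhoFib σ w'‖ ≤ 2 * σ * ‖w - w'‖ := by
  have e : rhoFib σ w - rhoFib σ w' = (-(σ * (sin w.2 - sin w'.2)),
      σ * (sin (w.1 - σ * sin w.2) - sin (w'.1 - σ * sin w'.2))) := by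
    refine Prod.ext ?_ ?_ <;> simp [rhoFib] <;> ring
  rw [e]
  refine bound_Fib (c := sin w.2 - sin w'.2) (x := w.1 - w'.1) h0 h1 (abs_sin_sub_sin_le _ _)
    ((abs_sin_sub_sin_le _ _).trans (le_of_eq ?_)) (abs_sin_sub_sin_le _ _)
    (norm_fst_le (w - w')) (norm_snd_le (w - w'))
  congr 1
  ring

theorem small_Fib {x : ℝ} (h : x ∈ Z1) (h1 : |x| ≤ 1) : x = 0 := by
  obtain ⟨a, rfl⟩ := mem_Z1.1 h
  by_cases ha : a = 0
  · simp [ha]
  have h2 : (1 : ℝ) ≤ |(a : ℝ)| := by exact_mod_cast Int.one_le_abs ha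
  rw [abs_mul, abs_of_pos two_pi_pos] at h1
  nlinarith [pi_gt_three]

theorem sin_mul_Fib {σ : ℝ} (h0 : 0 < σ) (h1 : σ ≤ 1) (t : ℝ) : |σ * sin t| ≤ 1 := by
  rw [abs_mul, abs_of_pos h0]
  exact mul_le_one₀ h1 (abs_nonneg _) (abs_sin_le_one t)

theorem zero_Fib {σ : ℝ} (h0 : 0 < σ) (h1 : σ ≤ 1) {y : Pl} (h : rhoFib σ y ∈ Z2) :
    sin y.1 = 0 ∧ sin y.2 = 0 := by
  have a := small_Fib (mem_Z2.1 h).1 (by rw [rhoFib, abs_neg]; exact sin_mul_Fib h0 h1 _)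
  have b := small_Fib (mem_Z2.1 h).2 (sin_mul_Fib h0 h1 _)
  simp only [rhoFib, neg_eq_zero, mul_eq_zero, h0.ne', false_or] at a b
  rw [a, mul_zero, sub_zero] at b
  exact ⟨b, a⟩

theorem sin_zero_Fib {x : ℝ} (hx : x ∈ Ico 0 (2 * π)) (h : sin x = 0) : x = 0 ∨ x = π := by
  rcases hx.1.eq_or_lt with h1 | h1
  · exact Or.inl h1.symm
  · have := (sin_eq_zero_iff_of_lt_of_lt (x := x - π) (by linarith) (by linarith [hx.2])).1
      (by rw [sin_sub_pi, h, neg_zero])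
    exact Or.inr (by linarith)

theorem cos_ne_Fib {x : ℝ} (h : sin x = 0) : cos x ≠ 0 := fun h' => by
  have := sin_sq_add_cos_sq x
  rw [h, h'] at this
  norm_num at this

theorem int_Fib {x : ℝ} (h : x ∈ Z1) {N : ℕ} (h1 : |x| ≤ 2 * π * N) :
    ∃ a ∈ Finset.Icc (-(N : ℤ)) N, x = 2 * π * a := by
  obtain ⟨a, rfl⟩ := mem_Z1.1 h
  rw [abs_mul, abs_of_pos two_pi_pos] at h1
  have h2 : |(a : ℝ)| ≤ N := le_of_mul_le_mul_left h1 two_pi_pos
  have h3 : |a| ≤ N := by exact_mod_cast h2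
  exact ⟨a, Finset.mem_Icc.2 (abs_le.1 h3), rfl⟩

theorem fib {n : ℕ} (hn : 3 ≤ n) (m₀ : ℕ) : ∃ σ₀ > 0, ∀ σ ∈ Ioc (0 : ℝ) σ₀,
    (∀ m : ℤ, m.natAbs ≤ m₀ → ∀ y, Fb n σ m y ∈ Z2 →
      ∃ D : Pl →L[ℝ] Pl, HasFDerivAt (Fb n σ m) D y ∧ Function.Injective D) ∧
    ∃ Y : Finset Pl, (Y.card : ℝ) ≤ 49 * (12 * (n : ℝ) ^ 2) ^ m₀ ∧ ∀ m : ℤ, m.natAbs ≤ m₀ →
      ∀ y : Pl, y.1 ∈ Ico 0 (2 * π) → y.2 ∈ Ico 0 (2 * π) → Fb n σ m y ∈ Z2 → y ∈ Y := by
  classical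
  have hK : ∀ m : ℤ, ∃ K : ℝ, 0 < K ∧ (m ≠ 0 → ∀ y : Pl, ‖y‖ ≤ K * ‖(cat n ^ m) y - y‖) :=
    fun m => by
      by_cases hm : m = 0
      · exact ⟨1, one_pos, fun h => absurd hm h⟩
      · obtain ⟨K, h1, h2⟩ := cat_zpow_sub hn hm
        exact ⟨K, h1, fun _ => h2⟩
  choose K hK0 hK using hK
  set P : ℕ := (2 * n) ^ m₀ with hP
  have hP1 : 1 ≤ P := Nat.one_le_pow _ _ (by omega)
  have hP1' : (1 : ℝ) ≤ P := by exact_mod_cast hP1
  set S : ℝ := ∑ m ∈ Finset.Icc (-(m₀ : ℤ)) m₀, K m with hS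
  have hmem : ∀ m : ℤ, m.natAbs ≤ m₀ → m ∈ Finset.Icc (-(m₀ : ℤ)) m₀ := fun m hm =>
    Finset.mem_Icc.2 (by omega)
  have hKS : ∀ m : ℤ, m.natAbs ≤ m₀ → K m ≤ S := fun m hm =>
    Finset.single_le_sum (fun m _ => (hK0 m).le) (hmem m hm)
  have hS0 : 0 < S := (hK0 0).trans_le (hKS 0 (by simp))
  have hB : ∀ m : ℤ, m.natAbs ≤ m₀ → ∀ y : Pl, ‖(cat n ^ m) y‖ ≤ P * ‖y‖ := fun m hm y => by
    refine (norm_cat_zpow_le (by omega) m y).trans (mul_le_mul_of_nonneg_right ?_ (norm_nonneg _))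
    rw [hP]
    push_cast
    have : (3 : ℝ) ≤ n := by exact_mod_cast hn
    exact pow_le_pow_right₀ (by linarith) hm
  refine ⟨min 1 (1 / (4 * P * S)), lt_min one_pos (by positivity), fun σ hσ => ?_⟩
  have h0 := hσ.1
  have h1 : σ ≤ 1 := hσ.2.trans (min_le_left _ _)
  have h2 : σ * (4 * P * S) ≤ 1 := (le_div_iff₀ (by positivity)).1 (hσ.2.trans (min_le_right _ _))
  have key : ∀ m : ℤ, m.natAbs ≤ m₀ → m ≠ 0 → ∀ d r : Pl, (cat n ^ m) d - d + r = 0 →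
      ‖r‖ ≤ 2 * σ * ‖(cat n ^ m) d‖ → d = 0 := fun m hm hm0 d r e hr => by
    have a := hK m hm0 d
    rw [eq_neg_of_add_eq_zero_left e, norm_neg] at a
    have b : ‖r‖ ≤ 2 * σ * (P * ‖d‖) := hr.trans (by gcongr; exact hB m hm d)
    have c : K m * ‖r‖ ≤ S * (2 * σ * (P * ‖d‖)) :=
      mul_le_mul (hKS m hm) b (norm_nonneg _) hS0.le
    have f := mul_le_mul_of_nonneg_right h2 (norm_nonneg d)
    exact norm_le_zero_iff.1 (by nlinarith)
  have e0 : Fb n σ 0 = rhoFib σ := by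
    funext y
    rw [Fb_eq_Fib, zpow_zero]
    change y - y + rhoFib σ y = _
    rw [sub_self, zero_add]
  refine ⟨fun m hm y hy => ?_, ?_⟩
  · by_cases hm0 : m = 0
    · subst hm0
      rw [e0] at hy ⊢
      obtain ⟨a, b⟩ := zero_Fib h0 h1 hy
      obtain ⟨D, hD, hD'⟩ := deriv_Fib σ y
      refine ⟨D, hD, (injective_iff_map_eq_zero D).2 fun ξ hξ => ?_⟩
      rw [hD', b, mul_zero, sub_zero, Prod.mk_eq_zero] at hξ
      simp only [neg_eq_zero, mul_eq_zero, h0.ne', false_or, cos_ne_Fib a, cos_ne_Fib b] at hξ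
      refine Prod.ext ?_ hξ.1
      simpa [hξ.1] using hξ.2
    · obtain ⟨D, hD, hD'⟩ := deriv_Fib σ ((cat n ^ m) y)
      have hL := ((cat n ^ m : Pl ≃L[ℝ] Pl) : Pl →L[ℝ] Pl).hasFDerivAt (x := y)
      have h3 := (hL.sub (hasFDerivAt_id y)).add (HasFDerivAt.comp y (g := rhoFib σ) hD hL)
      refine ⟨_, h3.congr_of_eventuallyEq (Eventually.of_forall fun z => Fb_eq_Fib n σ m z),
        (injective_iff_map_eq_zero _).2 fun ξ hξ => key m hm hm0 ξ (D ((cat n ^ m) ξ)) hξ ?_⟩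
      rw [hD']
      exact bound_Fib h0 h1 (cos_mul_Fib _ _) (cos_mul_Fib _ _) (cos_mul_Fib _ _)
        (norm_fst_le ((cat n ^ m) ξ)) (norm_snd_le ((cat n ^ m) ξ))
  · have hY : ∀ m : ℤ, ∃ Y : Finset Pl, Y.card ≤ 49 * P ^ 2 ∧ (m.natAbs ≤ m₀ →
        ∀ y : Pl, y.1 ∈ Ico 0 (2 * π) → y.2 ∈ Ico 0 (2 * π) → Fb n σ m y ∈ Z2 → y ∈ Y) :=
      fun m => by
      by_cases hm : m.natAbs ≤ m₀
      swap
      · exact ⟨∅, by simp, fun h => absurd h hm⟩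
      by_cases hm0 : m = 0
      · subst hm0
        refine ⟨{0, π} ×ˢ {0, π}, ?_, fun _ y a b hy => ?_⟩
        · rw [Finset.card_product]
          have := Finset.card_le_two (a := (0 : ℝ)) (b := π)
          nlinarith
        · rw [e0] at hy
          obtain ⟨c, d⟩ := zero_Fib h0 h1 hy
          simpa using ⟨sin_zero_Fib a c, sin_zero_Fib b d⟩
      have hinj : Function.Injective (Fb n σ m) := fun y y' h => by
        refine sub_eq_zero.1 (key m hm hm0 _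
          (rhoFib σ ((cat n ^ m) y) - rhoFib σ ((cat n ^ m) y')) ?_ ?_)
        · rw [Fb_eq_Fib, Fb_eq_Fib] at h
          rw [map_sub, ← sub_eq_zero.2 h]
          abel
        · rw [map_sub]; exact lip_Fib h0 h1 _ _
      let I : Finset ℤ := Finset.Icc (-((P + 2 : ℕ) : ℤ)) (P + 2 : ℕ)
      have hI : I.card ≤ 7 * P := by
        simp only [I, Int.card_Icc]
        omega
      refine ⟨((I ×ˢ I).image fun a : ℤ × ℤ => ((2 * π * a.1, 2 * π * a.2) : Pl)).preimage _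
        hinj.injOn, ?_, fun _ y a b hy => ?_⟩
      · rw [Finset.card_preimage]
        refine (Finset.card_filter_le _ _).trans (Finset.card_image_le.trans ?_)
        rw [Finset.card_product]
        nlinarith
      · have c : ‖y‖ ≤ 2 * π := by
          rw [Prod.norm_def, max_le_iff, Real.norm_of_nonneg a.1, Real.norm_of_nonneg b.1]
          exact ⟨a.2.le, b.2.le⟩
        have d : ‖rhoFib σ ((cat n ^ m) y)‖ ≤ 1 := by
          rw [Prod.norm_def, max_le_iff, rhoFib, norm_neg]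
          exact ⟨sin_mul_Fib h0 h1 _, sin_mul_Fib h0 h1 _⟩
        have f : ‖Fb n σ m y‖ ≤ 2 * π * (P + 2 : ℕ) := by
          rw [Fb_eq_Fib]
          have g1 := norm_add_le ((cat n ^ m) y - y) (rhoFib σ ((cat n ^ m) y))
          have g2 := norm_sub_le ((cat n ^ m) y) y
          have g3 := (hB m hm y).trans (mul_le_mul_of_nonneg_left c (by positivity))
          push_cast
          nlinarith [pi_gt_three]
        obtain ⟨u, hu, e1⟩ := int_Fib (mem_Z2.1 hy).1 ((norm_fst_le _).trans f)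
        obtain ⟨v, hv, e2⟩ := int_Fib (mem_Z2.1 hy).2 ((norm_snd_le _).trans f)
        exact Finset.mem_preimage.2 (Finset.mem_image.2
          ⟨(u, v), Finset.mem_product.2 ⟨hu, hv⟩, Prod.ext e1.symm e2.symm⟩)
    choose Y hY1 hY2 using hY
    refine ⟨(Finset.Icc (-(m₀ : ℤ)) m₀).biUnion Y, ?_, fun m hm y a b hy =>
      Finset.mem_biUnion.2 ⟨m, hmem m hm, hY2 m hm y a b hy⟩⟩
    have h3 := Finset.card_biUnion_le_card_mul (Finset.Icc (-(m₀ : ℤ)) m₀) Y _ fun m _ => hY1 m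
    have h4 : (Finset.Icc (-(m₀ : ℤ)) m₀).card ≤ 3 ^ m₀ := by
      have : ∀ k : ℕ, 2 * k + 1 ≤ 3 ^ k := fun k => by
        induction k with
        | zero => simp
        | succ k ih => rw [pow_succ]; omega
      have := this m₀
      simp only [Int.card_Icc]
      omega
    have h5 : 3 ^ m₀ * (49 * P ^ 2) = 49 * (12 * n ^ 2) ^ m₀ := by
      rw [hP, ← pow_mul, mul_comm m₀ 2, pow_mul, mul_left_comm, ← mul_pow]
      congr 2
      ring
    exact_mod_cast h3.trans ((Nat.mul_le_mul_right _ h4).trans h5.le)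

end Pool.Agent.P.MP_de3acd_gt
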