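import Pool.Agent.P.MP_de3acd_gt.Nd
import Pool.Agent.P.MP_de3acd_gt.Ent
import Pool.Agent.P.MP_de3acd_gt.Fib
import Pool.Agent.P.MP_de3acd_gt.Dyn
import Pool.Agent.P.MP_de3acd_gt.Crof
import Pool.Agent.P.MP_de3acd_gt.GenL

/-! Assembly. -/

open Set Real Filter Topology
open scoped ContDiff NNReal

namespace Pool.Agent.P.MP_de3acd_gt

variable {n : ℕ} {f : E → E} {u v : Fin 3 → ℝ} {σ σ' D : ℝ}
  {H : ℝ → E → ℝ} {Φ : ℝ → ℝ → E → E} {L C δ T : ℝ}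

theorem count {ψ : E → E} (heq : ∀ γ ∈ Gam n, ∀ z, ψ (γ z) = γ (ψ z)) (X : Finset (Fin 3 → ℝ))
    (Y : Finset Pl) (h : ∀ γ ∈ Gam n, ∀ z, ψ z = γ z → sin z.2.1.1 = 0 ∧
      ((∀ i, red z i ∈ Ico 0 (2 * π)) → red z ∈ X) ∧
      ((hat n z).1 ∈ Ico 0 (2 * π) → (hat n z).2 ∈ Ico 0 (2 * π) → hat n z ∈ Y)) :
    (fixSet (Gam n) ψ).Finite ∧ (fixSet (Gam n) ψ).ncard ≤ X.card * (2 * Y.card) := by
  classical
  let S : Finset (Q (Gam n)) := (X ×ˢ ({-π, 0} : Finset ℝ) ×ˢ Y).image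
    fun p => pr _ ((p.1 0, p.1 1), (p.2.1, p.1 2), p.2.2)
  have hS : fixSet (Gam n) ψ ⊆ S := by
    rintro _ ⟨z, rfl, hz⟩
    obtain ⟨β, hβ, e⟩ := pr_eq.1 hz
    obtain ⟨γ, hγ, a1, a2, a3, a4, a5, a6⟩ := exists_rep n z
    obtain ⟨b1, b2, b3⟩ := h (γ * β * γ⁻¹) (mul_mem (mul_mem hγ hβ) (inv_mem hγ)) (γ z)
      (by rw [heq γ hγ, ← e]; simp)
    have b4 : hat n (γ z) = (γ z).2.2 := by
      rw [hat, mt_eq_zero a3, zpow_zero]
      rfl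
    rw [b4] at b3
    refine Finset.mem_image.2 ⟨(red (γ z), (γ z).2.1.1, (γ z).2.2), Finset.mem_product.2
      ⟨b2 fun i => ?_, Finset.mem_product.2 ⟨?_, b3 a5 a6⟩⟩, pr_eq.2 ⟨γ, hγ, rfl⟩⟩
    · fin_cases i
      exacts [a1, a2, a4]
    · obtain ⟨a, ha⟩ := sin_eq_zero_iff.1 b1
      rw [← ha] at a3 ⊢
      have c1 : (-2 : ℝ) < a := by nlinarith [a3.1, pi_pos]
      have c2 : (a : ℝ) < 1 := by nlinarith [a3.2, pi_pos]
      have c3 : a = -1 ∨ a = 0 := by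
        have c1' : -2 < a := by exact_mod_cast c1
        have c2' : a < 1 := by exact_mod_cast c2
        omega
      rcases c3 with rfl | rfl <;> simp
  refine ⟨S.finite_toSet.subset hS, (ncard_le_ncard hS S.finite_toSet).trans ?_⟩
  rw [ncard_coe_finset]
  refine Finset.card_image_le.trans ?_
  rw [Finset.card_product, Finset.card_product]
  exact Nat.mul_le_mul_left _ (Nat.mul_le_mul_right _ Finset.card_le_two)

theorem norm_emb_sub (x y : Fin 3 → ℝ) : ‖emb x - emb y‖ ≤ ‖x - y‖ := by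
  have h := norm_le_pi_norm (x - y)
  simp only [emb, Prod.mk_sub_mk, sub_self, Prod.norm_mk, norm_zero, max_le_iff, norm_nonneg]
  exact ⟨⟨h 0, h 1⟩, ⟨trivial, h 2⟩, trivial⟩

theorem lip_dd_cc {A : ℝ≥0} (hA : 1 ≤ A) (h : ∀ z z', ‖f z - f z'‖ ≤ A * ‖z - z'‖) :
    LipschitzWith (2 * A) (dd f) ∧ LipschitzWith (2 * A) (cc f) := by
  have hA' : (1 : ℝ) ≤ A := hA
  have k : ∀ x y, ‖f (emb x) - f (emb y)‖ ≤ A * ‖x - y‖ := fun x y =>
    (h _ _).trans (mul_le_mul_of_nonneg_left (norm_emb_sub x y) A.2)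
  constructor <;> refine LipschitzWith.of_dist_le_mul fun x y => ?_ <;>
    rw [dist_eq_norm, dist_eq_norm, pi_norm_le_iff_of_nonneg (by positivity)] <;> intro i
  all_goals
    have a0 : |x 0 - y 0| ≤ _ := norm_le_pi_norm (x - y) 0
    have a1 : |x 1 - y 1| ≤ _ := norm_le_pi_norm (x - y) 1
    have a2 : |x 2 - y 2| ≤ _ := norm_le_pi_norm (x - y) 2
    have b0 : |(f (emb x)).1.1 - (f (emb y)).1.1| ≤ _ :=
      (norm_fst_le (f (emb x) - f (emb y)).1).trans ((norm_fst_le _).trans (k x y))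
    have b1 : |(f (emb x)).1.2 - (f (emb y)).1.2| ≤ _ :=
      (norm_snd_le (f (emb x) - f (emb y)).1).trans ((norm_fst_le _).trans (k x y))
    have b2 : |(f (emb x)).2.1.1 - (f (emb y)).2.1.1| ≤ _ :=
      (norm_fst_le (f (emb x) - f (emb y)).2.1).trans
        ((norm_fst_le _).trans ((norm_snd_le _).trans (k x y)))
    have c : ‖x - y‖ ≤ A * ‖x - y‖ := le_mul_of_one_le_left (norm_nonneg _) hA'
    have c' := norm_nonneg (x - y)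
    rw [abs_le] at a0 a1 a2 b0 b1 b2
    fin_cases i <;> simp only [dd, cc, Real.norm_eq_abs, abs_le] <;> constructor <;> simp <;>
      linarith

theorem norm_dd_le {A : ℝ} (h : ∀ z, ‖f z - z‖ ≤ A) (x : Fin 3 → ℝ) : ‖dd f x‖ ≤ A := by
  rw [pi_norm_le_iff_of_nonneg ((norm_nonneg _).trans (h 0))]
  intro i
  fin_cases i
  · exact (norm_fst_le (f (emb x) - emb x).1).trans ((norm_fst_le _).trans (h _))
  · exact (norm_snd_le (f (emb x) - emb x).1).trans ((norm_fst_le _).trans (h _))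
  · have := (norm_fst_le (f (emb x) - emb x).2.1).trans
      ((norm_fst_le _).trans ((norm_snd_le _).trans (h _)))
    simpa [emb, dd] using this

theorem wind_le (h : Base H Φ L C) {ε₁ ε' : ℝ} {k : ℕ} (hk : 1 ≤ k) (h0 : 0 < ε₁) (h1 : ε₁ ≤ 1)
    (h2 : ε' ≤ ε₁ / (32 * C)) (h3 : ε' ≤ 1) (hu : ‖u‖ ≤ ε') (hv : ‖v‖ ≤ ε') {z : E} {m : ℤ}
    (a0 : RR (Φ (ε₁ / (k * (2 * π))) (k * (2 * π))) u v z 0 ∈ Z1)
    (a2 : RR (Φ (ε₁ / (k * (2 * π))) (k * (2 * π))) u v z 2 = -(2 * π * m)) :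
    m.natAbs ≤ k / 8 + 1 := by
  have hk' : (1 : ℝ) ≤ k := by exact_mod_cast hk
  have hT : 1 ≤ k * (2 * π) := by nlinarith [pi_gt_three]
  have hC := h.C_pos
  set T := k * (2 * π) with hTe
  have hT0 : 0 < T := by linarith
  have w := h.wind (ε₁ / T) ⟨by positivity, (div_le_one hT0).2 (h1.trans hT)⟩ T (emb (red z))
    hT0.le _ a0
  have t : ∀ i x, |tr (u i) (v i) x| ≤ 2 * ε' := fun i x =>
    (abs_tr_le _ _ _).trans (by
      linarith [(norm_le_pi_norm u i).trans hu, (norm_le_pi_norm v i).trans hv,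
        Real.norm_eq_abs (u i), Real.norm_eq_abs (v i)])
  have e1 : (Φ (ε₁ / T) T (emb (red z))).1.1 - (emb (red z)).1.1 - RR (Φ (ε₁ / T) T) u v z 0 =
      -tr (u 0) (v 0) (cc (Φ (ε₁ / T) T) (red z) 0) := by
    simp [RR, Rm, dd, emb]
  have e2 : (Φ (ε₁ / T) T (emb (red z))).2.1.1 - (emb (red z)).2.1.1 =
      -(2 * π * m) - tr (u 2) (v 2) (cc (Φ (ε₁ / T) T) (red z) 2) := by
    rw [← a2]
    simp [RR, Rm, dd, emb]
  rw [e1, e2, abs_neg] at w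
  have w1 : C / (ε₁ / T) * |tr (u 0) (v 0) (cc (Φ (ε₁ / T) T) (red z) 0)| ≤ T / 16 := by
    refine (mul_le_mul_of_nonneg_left ((t 0 _).trans (mul_le_mul_of_nonneg_left h2 zero_le_two))
      (by positivity)).trans (le_of_eq ?_)
    field_simp
    norm_num
  have w2 : |2 * π * m| ≤ T / 8 + 2 := by
    have := t 2 (cc (Φ (ε₁ / T) T) (red z) 2)
    rw [abs_le] at w this ⊢
    constructor <;> linarith [w.1, w.2]
  rw [abs_mul, abs_of_pos two_pi_pos, hTe] at w2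
  have w3 : 8 * |(m : ℝ)| < k + 8 := by nlinarith [pi_gt_three]
  have w4 : 8 * |m| < k + 8 := by exact_mod_cast w3
  rw [Int.abs_eq_natAbs] at w4
  omega

theorem num_le {A k : ℕ} (hn : 12 ≤ n) {B L : ℝ} (hB : 0 ≤ B) {a b : ℕ}
    (hA : A ≤ a * (2 * b)) (ha : (a : ℝ) ≤ B * (2 * exp (L * (k * (2 * π)))) ^ 9)
    (hb : (b : ℝ) ≤ 49 * (12 * (n : ℝ) ^ 2) ^ (k / 8 + 1)) :
    (A : ℝ) ≤ B * 2 ^ 9 * (98 * n ^ 3) * exp ((18 * π * L + log n / 2) * k) := by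
  have hn' : (12 : ℝ) ≤ n := by exact_mod_cast hn
  have h1 : (12 * (n : ℝ) ^ 2) ^ (k / 8 + 1) ≤ n ^ 3 * exp (log n / 2 * k) := by
    refine (pow_le_pow_left₀ (by positivity) (show 12 * (n : ℝ) ^ 2 ≤ n ^ 3 by nlinarith) _).trans ?_
    rw [pow_succ', ← pow_mul]
    refine mul_le_mul_of_nonneg_left ?_ (by positivity)
    rw [← exp_log (show (0 : ℝ) < n ^ (3 * (k / 8)) by positivity), log_pow, exp_le_exp]
    have : ((3 * (k / 8) : ℕ) : ℝ) * 2 ≤ k := by exact_mod_cast (by omega : 3 * (k / 8) * 2 ≤ k)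
    nlinarith [log_nonneg (show (1 : ℝ) ≤ n by linarith)]
  have h2 : (2 * exp (L * (k * (2 * π)))) ^ 9 = 2 ^ 9 * exp (18 * π * L * k) := by
    rw [mul_pow, ← exp_nat_mul]
    congr 2
    push_cast
    ring
  have hA' : (A : ℝ) ≤ a * (2 * b) := by exact_mod_cast hA
  rw [h2] at ha
  rw [add_mul, exp_add]
  refine hA'.trans ((mul_le_mul ha (mul_le_mul_of_nonneg_left
    (hb.trans (mul_le_mul_of_nonneg_left h1 (by norm_num))) zero_le_two) (by positivity)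
    (by positivity)).trans (le_of_eq ?_))
  ring

theorem approx (h : Base H Φ L C) (hn : 12 ≤ n) {ε : ℝ} (hε : 0 < ε) : ∃ B : ℝ, ∀ k : ℕ, 1 ≤ k →
    ∃ ψ, Cl (Gam n) ε (Φ 0 (k * (2 * π))) ψ ∧ Nondeg (Gam n) ψ ∧ (fixSet (Gam n) ψ).Finite ∧
      ((fixSet (Gam n) ψ).ncard : ℝ) ≤ B * exp ((18 * π * L + log n / 2) * k) := by
  obtain ⟨c, hc, hcl⟩ := exists_cl_shear
  obtain ⟨D, hD1, hD⟩ := exists_deriv_chi_le
  have hC := h.C_pos
  obtain ⟨ε₁, p1, p2, p3⟩ : ∃ ε₁ > 0, ε₁ ≤ 1 ∧ ε₁ ≤ ε / c ^ 4 :=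
    ⟨min 1 (ε / c ^ 4), by positivity, min_le_left _ _, min_le_right _ _⟩
  obtain ⟨ε', q1, q2, q3⟩ : ∃ ε' > 0, ε' ≤ ε₁ / 4 ∧ ε' ≤ ε₁ / (32 * C) :=
    ⟨min (ε₁ / 4) (ε₁ / (32 * C)), by positivity, min_le_left _ _, min_le_right _ _⟩
  obtain ⟨B, hB, hcr⟩ := crofton (Fin 3) q1
  refine ⟨B * 2 ^ 9 * (98 * n ^ 3), fun k hk => ?_⟩
  have hk' : (1 : ℝ) ≤ k := by exact_mod_cast hk
  have hT : 1 ≤ k * (2 * π) := by nlinarith [pi_gt_three]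
  have hT0 : 0 < k * (2 * π) := by linarith
  have hδ : ε₁ / (k * (2 * π)) ∈ Icc (0 : ℝ) 1 :=
    ⟨by positivity, (div_le_one hT0).2 (p2.trans hT)⟩
  have hw := fun u v hu hv z m => wind_le (u := u) (v := v) h hk p1 p2 q3 (by linarith) hu hv
    (z := z) (m := m)
  have c0 := h.cl hδ n hT0.le
  rw [mul_div_cancel₀ _ hT0.ne'] at c0
  have hs := h.str hδ (k * (2 * π))
  have he := fun γ (hγ : γ ∈ Gam n) => h.eqv_gam hδ hγ (k * (2 * π))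
  have hL : 0 ≤ L * (k * (2 * π)) := mul_nonneg h.L_nonneg hT0.le
  let A : ℝ≥0 := ⟨exp (L * (k * (2 * π))), (exp_pos _).le⟩
  have hA : 1 ≤ A := one_le_exp hL
  obtain ⟨l1, l2⟩ := lip_dd_cc hA fun z z' => h.lip _ hδ _ z z' hT0.le
  have l3 := norm_dd_le fun z => h.disp _ hδ _ z hT0.le
  generalize Φ (ε₁ / (k * (2 * π))) (k * (2 * π)) = f at *
  obtain ⟨u, v, hu, hv, r1, X, r2, r3⟩ := hcr (2 * A) (one_le_mul_of_one_le_of_one_le one_le_two hA)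
    _ _ l1 l2 fun x => (l3 x).trans (by
      have := add_one_le_exp (L * (k * (2 * π)))
      change _ ≤ 2 * exp _
      linarith)
  obtain ⟨σ₀, s0, hf⟩ := fib (n := n) (by omega) (k / 8 + 1)
  obtain ⟨σ', s1, s2, s3⟩ : ∃ σ' > 0, σ' ≤ σ₀ ∧ σ' ≤ ε' / (8 * D) :=
    ⟨min σ₀ (ε' / (8 * D)), by positivity, min_le_left _ _, min_le_right _ _⟩
  rw [le_div_iff₀ (by positivity)] at s3
  obtain ⟨f1, Y, f2, f3⟩ := hf σ' ⟨s1, s2⟩
  obtain ⟨F1, g1⟩ := shear_b n hu hv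
  obtain ⟨F2, g2⟩ := shear_a n hu hv (abs_of_pos q1).le
  obtain ⟨F3, g3⟩ := shear_f n σ' (e := (1, 0)) fun l hl => by simpa [ar] using hl.2
  obtain ⟨F4, g4⟩ := shear_f n σ' (e := (0, 1)) fun l hl => by simpa [ar] using hl.1
  have hd := fun m l γ z => fix_data (n := n) (u := u) (v := v) (m := m) (l := l) (γ := γ) (z := z)
    hs q1 (by linarith) s1.le hD (by nlinarith)
  have s4 : |σ'| ≤ ε₁ := by
    rw [abs_of_pos s1]
    nlinarith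
  have n1 : ε₁ ≤ c * ε₁ := le_mul_of_one_le_left p1.le hc
  have n2 : c * ε₁ ≤ c * (c * ε₁) := le_mul_of_one_le_left (by positivity) hc
  have n3 : c * (c * ε₁) ≤ c * (c * (c * ε₁)) := le_mul_of_one_le_left (by positivity) hc
  have c1 := hcl _ _ _ _ _ _ c0 (g1.mono (by linarith))
  have c2 := hcl _ _ _ _ _ _ c1 (g2.mono (by linarith))
  have c3 := hcl _ _ _ _ _ _ c2 (g3.mono (by linarith))
  have c4 := hcl _ _ _ _ _ _ c3 (g4.mono (by linarith))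
  obtain ⟨k1, k2⟩ := count (n := n) (ψ := psi n f u v ε' σ') (fun γ hγ z => by
      simp only [psi, stp, he γ hγ, g1.eqv (good_gam n) hγ, g2.eqv (good_gam n) hγ,
        g3.eqv (good_gam n) hγ, g4.eqv (good_gam n) hγ]) X Y
    fun γ ⟨m, l, hγ⟩ z hz => by
      obtain ⟨a1, a2, a3, a4⟩ := hd m l γ z hγ hz
      exact ⟨a3, fun hx => r3 _ hx a1, fun y1 y2 => f3 (-m)
        (by rw [Int.natAbs_neg]; exact hw u v hu hv z m (a1 0) a2) _ y1 y2 a4⟩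
  refine ⟨psi n f u v ε' σ', c4.mono ?_, fun γ ⟨m, l, hγ⟩ z hz => ?_, k1,
    num_le hn hB k2 r2 f2⟩
  · rw [le_div_iff₀ (by positivity)] at p3
    linarith
  · obtain ⟨a1, a2, a3, a4⟩ := hd m l γ z hγ hz
    obtain ⟨R', b1, b2⟩ := r1 _ a1
    obtain ⟨F', b3, b4⟩ := f1 (-m)
      (by rw [Int.natAbs_neg]; exact hw u v hu hv z m (a1 0) a2) _ a4
    exact nondeg_at hs q1 hγ (a1 0) a2 a3 b1 b2 b3 b4

theorem main : ∃ (Γ : Subgroup (Equiv.Perm E)) (hΓ : Good Γ) (H : ℝ → E → ℝ) (φ : E → E)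
    (f : Q Γ → Q Γ) (h : ℝ), Gen Γ H φ ∧ (∀ z, f (pr Γ z) = pr Γ (φ z)) ∧ 0 ≤ h ∧
      (h : EReal) < htop hΓ f ∧ ∀ ε : ℝ, 0 < ε → ∃ C : ℝ, ∀ k : ℕ, 1 ≤ k →
        ∃ (F G : ℝ → E → ℝ) (ψ : E → E), Gen Γ F φ^[k] ∧ Gen Γ G ψ ∧
          (∀ s z, |F s z - G s z| ≤ ε) ∧ Nondeg Γ ψ ∧ (fixSet Γ ψ).Finite ∧
          ((fixSet Γ ψ).ncard : ℝ) ≤ C * Real.exp (h * k) := by
  obtain ⟨H, Φ, L, C, h⟩ := exists_base
  have h0 : (0 : ℝ) ∈ Icc (0 : ℝ) 1 := ⟨le_rfl, zero_le_one⟩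
  obtain ⟨n, hn⟩ := exists_nat_gt (max 12 (exp (36 * π * L)))
  have hn1 : (12 : ℝ) < n := (le_max_left _ _).trans_lt hn
  have hn2 : 12 ≤ n := by exact_mod_cast hn1.le
  have hn3 : 36 * π * L < log n :=
    (lt_log_iff_exp_lt (by linarith)).2 ((le_max_right _ _).trans_lt hn)
  have hL := h.L_nonneg
  let f : Q (Gam n) → Q (Gam n) := Quotient.map' (Φ 0 (2 * π)) fun z z' hz => by
    obtain ⟨γ, hγ, rfl⟩ := pr_eq.1 (Quotient.sound hz)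
    exact Quotient.exact (pr_eq.2 ⟨γ, hγ, (h.eqv_gam h0 hγ _ z').symm⟩)
  refine ⟨Gam n, good_gam n, _, Φ 0 (2 * π), f, 18 * π * L + log n / 2, h.gen h0 n _,
    fun _ => rfl, by have := log_nonneg (show (1 : ℝ) ≤ n by linarith); positivity,
    lt_of_lt_of_le (EReal.coe_lt_coe_iff.2 (by linarith))
      (entropy_ge (by omega) _ f fun y => ?_), fun ε hε => ?_⟩
  · change pr _ (Φ 0 (2 * π) (0, 0, y)) = _
    rw [h.line]
    refine pr_eq.2 ⟨gam n (-1) (0, (2 * π, 0), 0), gam_mem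
      ⟨zero_mem _, ⟨mem_Z1.2 ⟨1, by simp⟩, zero_mem _⟩, zero_mem _⟩ (by simp), ?_⟩
    have := cat_zpow_neg n 1 y
    rw [zpow_one] at this
    change ((0 : Pl), (0 : Pl), (cat n ^ (-1 : ℤ)) (cat n y)) + _ = _
    rw [this]
    simp
  · obtain ⟨B, hB⟩ := approx h hn2 hε
    refine ⟨B, fun k hk => ?_⟩
    obtain ⟨ψ, ⟨F, G, a1, a2, a3⟩, a4⟩ := hB k hk
    exact ⟨F, G, ψ, h.iterate h0 _ k ▸ a1, a2, a3, a4⟩

end Pool.Agent.P.MP_de3acd_gt
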