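import Pool.Agent.P.MP_de3acd_gt.IDefs

/-! The deck group. -/

open Set Real Filter Topology
open scoped ContDiff NNReal

namespace Pool.Agent.P.MP_de3acd_gt

theorem floor_mem_Grp (x : ℝ) : -(2 * π * ⌊x / (2 * π)⌋) ∈ Z1 := neg_mem (mem_Z1.2 ⟨_, rfl⟩)

theorem floor_Ico_Grp (x : ℝ) : x + -(2 * π * ⌊x / (2 * π)⌋) ∈ Ico 0 (2 * π) := by
  have h1 := (le_div_iff₀ two_pi_pos).1 (Int.floor_le (x / (2 * π)))
  have h2 := (div_lt_iff₀ two_pi_pos).1 (Int.lt_floor_add_one (x / (2 * π)))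
  constructor <;> linarith

theorem finite_int_Grp (R : ℝ) : {a : ℤ | |2 * π * a| ≤ R}.Finite := by
  refine (Set.finite_Icc (-⌈R⌉) ⌈R⌉).subset fun a ha => abs_le.1 ?_
  have h1 : |2 * π * a| ≤ R := ha
  rw [abs_mul, abs_of_pos two_pi_pos] at h1
  have h2 : |(a : ℝ)| ≤ ⌈R⌉ :=
    ((le_mul_of_one_le_left (abs_nonneg _) (by linarith [pi_gt_three])).trans h1).trans
      (Int.le_ceil R)
  exact_mod_cast h2

theorem finite_Z1_Grp (R : ℝ) : {x : ℝ | x ∈ Z1 ∧ ‖x‖ ≤ R}.Finite := by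
  refine ((finite_int_Grp R).image fun a : ℤ => 2 * π * a).subset ?_
  rintro x ⟨h1, h2⟩
  obtain ⟨a, rfl⟩ := mem_Z1.1 h1
  exact ⟨a, h2, rfl⟩

theorem finite_Z2_Grp (R : ℝ) : {x : Pl | x ∈ Z2 ∧ ‖x‖ ≤ R}.Finite :=
  ((finite_Z1_Grp R).prod (finite_Z1_Grp R)).subset fun x h =>
    ⟨⟨h.1.1, (norm_fst_le x).trans h.2⟩, h.1.2, (norm_snd_le x).trans h.2⟩

theorem finite_Z6_Grp (R : ℝ) : {x : E | x ∈ Z6 ∧ ‖x‖ ≤ R}.Finite :=
  ((finite_Z2_Grp R).prod ((finite_Z2_Grp R).prod (finite_Z2_Grp R))).subset fun x h =>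
    ⟨⟨h.1.1, (norm_fst_le x).trans h.2⟩,
      ⟨h.1.2.1, ((norm_fst_le x.2).trans (norm_snd_le x)).trans h.2⟩,
      h.1.2.2, ((norm_snd_le x.2).trans (norm_snd_le x)).trans h.2⟩

theorem exists_rep (n : ℕ) (z : E) : ∃ γ ∈ Gam n, (γ z).1.1 ∈ Ico 0 (2 * π) ∧
    (γ z).1.2 ∈ Ico 0 (2 * π) ∧ (γ z).2.1.1 ∈ Ico (-(3 * π / 2)) (π / 2) ∧
    (γ z).2.1.2 ∈ Ico 0 (2 * π) ∧ (γ z).2.2.1 ∈ Ico 0 (2 * π) ∧ (γ z).2.2.2 ∈ Ico 0 (2 * π) := by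
  refine ⟨gam n (mt z.2.1.1) ((-(2 * π * ⌊z.1.1 / (2 * π)⌋), -(2 * π * ⌊z.1.2 / (2 * π)⌋)),
    (-(2 * π * mt z.2.1.1), -(2 * π * ⌊z.2.1.2 / (2 * π)⌋)),
    (-(2 * π * ⌊(hat n z).1 / (2 * π)⌋), -(2 * π * ⌊(hat n z).2 / (2 * π)⌋))),
    gam_mem ⟨⟨floor_mem_Grp _, floor_mem_Grp _⟩, ⟨floor_mem_Grp _, floor_mem_Grp _⟩,
      floor_mem_Grp _, floor_mem_Grp _⟩ rfl, floor_Ico_Grp _, floor_Ico_Grp _, ?_,
    floor_Ico_Grp _, floor_Ico_Grp _, floor_Ico_Grp _⟩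
  obtain ⟨h1, h2⟩ := floor_Ico_Grp (z.2.1.1 + 3 * π / 2)
  change z.2.1.1 + -(2 * π * (⌊(z.2.1.1 + 3 * π / 2) / (2 * π)⌋ : ℤ)) ∈ _
  constructor <;> linarith

theorem good_gam (n : ℕ) : Good (Gam n) := by
  have hc : ∀ m : ℤ, Continuous fun z : E => ((z.1, z.2.1, (cat n ^ m) z.2.2) : E) := fun m => by
    fun_prop
  refine ⟨?_, ?_, ⟨?_⟩, ⟨fun {K L} hK hL => ?_⟩, ⟨?_⟩⟩
  · rintro γ ⟨m, l, h1, -, h3⟩
    refine ⟨LinearMap.id.prodMap (LinearMap.id.prodMap (cat n ^ m).toLinearEquiv.toLinearMap), l,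
      fun u v => ?_, fun u hu => ⟨hu.1, hu.2.1, cat_zpow_mem n m hu.2.2⟩, h1, h3⟩
    exact congrArg (fun x => ar u.1 v.1 + ar u.2.1 v.2.1 + x) (ar_cat_zpow n m u.2.2 v.2.2)
  · rintro γ ⟨m, l, -, h2, h3⟩ z hz
    rw [h3] at hz
    have e1 : l.1 = 0 := add_eq_left.1 (congrArg (fun x : E => x.1) hz)
    have e2 : l.2.1 = 0 := add_eq_left.1 (congrArg (fun x : E => x.2.1) hz)
    have e3 : m = 0 := by
      rw [e2, Prod.fst_zero, eq_comm, neg_eq_zero] at h2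
      exact_mod_cast (mul_eq_zero.1 h2).resolve_left two_pi_pos.ne'
    subst e3
    have e4 : l.2.2 = 0 := add_eq_left.1 (congrArg (fun x : E => x.2.2) hz)
    have e5 : l = 0 := Prod.ext e1 (Prod.ext e2 e4)
    refine Equiv.ext fun w => ?_
    rw [h3, e5, add_zero]
    rfl
  · rintro ⟨γ, m, l, -, -, h3⟩
    exact ((hc m).add continuous_const).congr fun z => (h3 z).symm
  · obtain ⟨R, hR⟩ := (hK.prod hL).exists_bound_of_continuousOn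
      (f := fun p : E × E => p.1.2.1.1 - p.2.2.1.1) (by fun_prop)
    choose S hS using fun m : ℤ => (hK.prod hL).exists_bound_of_continuousOn
      (f := fun p : E × E => p.2 - ((p.1.1, p.1.2.1, (cat n ^ m) p.1.2.2) : E))
      (continuous_snd.sub ((hc m).comp continuous_fst)).continuousOn
    refine (((finite_int_Grp R).biUnion fun m _ =>
      (finite_Z6_Grp (S m)).image (gam n m)).preimage Subtype.val_injective.injOn).subset ?_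
    rintro ⟨γ, m, l, h1, h2, h3⟩ ⟨w, ⟨z, hz, hw⟩, hw'⟩
    have e : w = ((z.1, z.2.1, (cat n ^ m) z.2.2) : E) + l := hw.symm.trans (h3 z)
    refine mem_biUnion (x := m) ?_ ⟨l, ⟨h1, ?_⟩, Equiv.ext fun x => (h3 x).symm⟩
    · have h := hR (z, w) ⟨hz, hw'⟩
      simp only [e, Prod.snd_add, Prod.fst_add, h2, sub_add_cancel_left, neg_neg] at h
      exact h
    · have h := hS m (z, w) ⟨hz, hw'⟩
      simp only [e, add_sub_cancel_left] at h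
      exact h
  · have hp : Continuous (pr (Gam n)) := continuous_quotient_mk'
    refine ((isCompact_closedBall (0 : E) (2 * π)).image hp).of_isClosed_subset isClosed_univ ?_
    rintro ⟨z⟩ -
    obtain ⟨γ, hγ, h1, h2, h3, h4, h5, h6⟩ := exists_rep n z
    refine ⟨γ z, ?_, pr_eq.2 ⟨γ, hγ, rfl⟩⟩
    have k : ∀ x : ℝ, x ∈ Ico 0 (2 * π) → ‖x‖ ≤ 2 * π := fun x hx => by
      rw [Real.norm_of_nonneg hx.1]
      exact hx.2.le
    have k3 : ‖(γ z).2.1.1‖ ≤ 2 * π :=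
      abs_le.2 ⟨by linarith [h3.1, pi_pos], by linarith [h3.2, pi_pos]⟩
    rw [mem_closedBall_zero_iff]
    exact max_le (max_le (k _ h1) (k _ h2))
      (max_le (max_le k3 (k _ h4)) (max_le (k _ h5) (k _ h6)))

end Pool.Agent.P.MP_de3acd_gt
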