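import Pool.Agent.P.MP_de3acd_gt.Shr

/-! The perturbed map and its fixed points. -/

open Set Real Filter Topology
open scoped ContDiff NNReal

namespace Pool.Agent.P.MP_de3acd_gt

noncomputable section

/-- The reduced coordinates. -/
def red (z : E) : Fin 3 → ℝ := ![z.1.1, z.1.2, z.2.1.2]

/-- A section. -/
def emb (x : Fin 3 → ℝ) : E := ((x 0, x 1), (0, x 2), 0)

/-- The displacement. -/
def dd (f : E → E) (x : Fin 3 → ℝ) : Fin 3 → ℝ :=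
  ![(f (emb x)).1.1 - x 0, (f (emb x)).1.2 - x 1, (f (emb x)).2.1.1]

/-- The angles. -/
def cc (f : E → E) (x : Fin 3 → ℝ) : Fin 3 → ℝ := ![(f (emb x)).1.2, x 0, x 2]

/-- One shear. -/
def stp (X : E → E) (z : E) : E := z + X z

/-- The perturbed map. -/
def psi (n : ℕ) (f : E → E) (u v : Fin 3 → ℝ) (σ σ' : ℝ) (z : E) : E :=
  stp (Xf n σ' (0, 1)) (stp (Xf n σ' (1, 0)) (stp (Xa u v σ) (stp (Xb u v) (f z))))

/-- The shape of the maps of the base system. -/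
def Str (f : E → E) : Prop := ∀ z, f z = ((z.1.1 + dd f (red z) 0, z.1.2 + dd f (red z) 1),
  (z.2.1.1 + dd f (red z) 2, z.2.1.2), z.2.2)

/-- The reduced displacement at a point. -/
def RR (f : E → E) (u v : Fin 3 → ℝ) (z : E) : Fin 3 → ℝ := Rm (dd f) (cc f) u v (red z)

end

variable {n : ℕ} {f : E → E} {u v : Fin 3 → ℝ} {σ σ' D : ℝ} {z l : E} {m : ℤ} {γ : E → E}

theorem Base.str {H : ℝ → E → ℝ} {Φ : ℝ → ℝ → E → E} {L C δ : ℝ} (h : Base H Φ L C)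
    (hδ : δ ∈ Icc (0 : ℝ) 1) (s : ℝ) : Str (Φ δ s) := by
  intro z
  have e : z = emb (red z) + (0, (z.2.1.1, 0), z.2.2) := by simp [emb, red]
  have h1 := h.eqv δ hδ s (emb (red z)) (0, (z.2.1.1, 0), z.2.2) (zero_mem _) (zero_mem _)
  have h2 := h.cons δ hδ s z
  rw [← e] at h1
  refine Prod.ext (Prod.ext ?_ ?_) (Prod.ext (Prod.ext ?_ h2.1) h2.2) <;> rw [h1] <;>
    simp [dd, red, add_comm]

theorem two_shears (h : Str f) (z : E) : stp (Xa u v σ) (stp (Xb u v) (f z)) =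
    ((z.1.1 + RR f u v z 0, z.1.2 + (RR f u v z 1 - tr (u 1) (v 1) z.1.1 +
      tr (u 1) (v 1) (z.1.1 + RR f u v z 0))),
      (z.2.1.1 + RR f u v z 2, z.2.1.2 + σ * sin (z.2.1.1 + RR f u v z 2)), z.2.2) := by
  have e0 : cc f (red z) 0 = z.1.2 + dd f (red z) 1 := by simp [cc, dd, red]
  have e1 : cc f (red z) 1 = z.1.1 := rfl
  have e2 : cc f (red z) 2 = z.2.1.2 := rfl
  rw [h z]
  simp only [stp, Xa, Xb, RR, Rm, e0, e1, e2, Prod.mk_add_mk, add_zero, add_assoc,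
    add_sub_cancel_right]

theorem stp_Xf_fst (e : Pl) (z : E) : (stp (Xf n σ e) z).1 = z.1 := add_zero _

theorem stp_Xf_t (e : Pl) (z : E) : (stp (Xf n σ e) z).2.1.1 = z.2.1.1 := add_zero _

theorem stp_Xf_κ (e : Pl) (z : E) : (stp (Xf n σ e) z).2.1.2 =
    z.2.1.2 - σ * deriv chi z.2.1.1 * cos (ar e (hat n z)) := (sub_eq_add_neg _ _).symm

theorem stp_Xf (e : Pl) (h : sin z.2.1.1 < 1 / 2) : stp (Xf n σ e) z =
    (z.1, z.2.1, (cat n ^ (-mt z.2.1.1)) (sh σ e ((cat n ^ mt z.2.1.1) z.2.2))) := by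
  refine Prod.ext (add_zero _) (Prod.ext ?_ ?_)
  · simp [stp, Xf, deriv_chi_eq_zero h]
  · simp only [stp, Xf, Prod.snd_add, chi_eq_one h.le, sh, cat_zpow_neg, map_smul, hat,
      mul_one, neg_smul, sub_eq_add_neg, map_add, map_neg]

theorem two_fib (h : sin z.2.1.1 < 1 / 2) : stp (Xf n σ (0, 1)) (stp (Xf n σ (1, 0)) z) =
    (z.1, z.2.1, (cat n ^ (-mt z.2.1.1)) (sh σ (0, 1) (sh σ (1, 0)
      ((cat n ^ mt z.2.1.1) z.2.2)))) := by
  have k := cat_zpow_neg n (-mt z.2.1.1)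
  rw [neg_neg] at k
  rw [stp_Xf (0, 1) (by rwa [stp_Xf_t]), stp_Xf_t, stp_Xf (1, 0) h]
  simp only [k]

theorem two_fib' (n : ℕ) (σ : ℝ) (z : E) : ∃ c, |c| ≤ 2 ∧ ∃ y,
    stp (Xf n σ (0, 1)) (stp (Xf n σ (1, 0)) z) =
      (z.1, (z.2.1.1, z.2.1.2 - σ * deriv chi z.2.1.1 * c), y) := by
  refine ⟨cos (ar (1, 0) (hat n z)) + cos (ar (0, 1) (hat n (stp (Xf n σ (1, 0)) z))),
    (abs_add_le _ _).trans ((add_le_add (abs_cos_le_one _) (abs_cos_le_one _)).trans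
      one_add_one_eq_two.le), _, Prod.ext ?_ (Prod.ext (Prod.ext ?_ ?_) rfl)⟩
  · rw [stp_Xf_fst, stp_Xf_fst]
  · rw [stp_Xf_t, stp_Xf_t]
  · rw [stp_Xf_κ, stp_Xf_κ, stp_Xf_t]
    ring

theorem psi_eq (h : Str f) (hs : sin (z.2.1.1 + RR f u v z 2) < 1 / 2) : psi n f u v σ σ' z =
    ((z.1.1 + RR f u v z 0, z.1.2 + (RR f u v z 1 - tr (u 1) (v 1) z.1.1 +
      tr (u 1) (v 1) (z.1.1 + RR f u v z 0))),
      (z.2.1.1 + RR f u v z 2, z.2.1.2 + σ * sin (z.2.1.1 + RR f u v z 2)),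
      (cat n ^ (-mt (z.2.1.1 + RR f u v z 2))) (sh σ' (0, 1) (sh σ' (1, 0)
        ((cat n ^ mt (z.2.1.1 + RR f u v z 2)) z.2.2)))) := by
  rw [psi, two_shears h]
  exact two_fib hs

theorem tr_add {x a : ℝ} (u v : ℝ) (h : a ∈ Z1) : tr u v (x + a) = tr u v x := by
  obtain ⟨b, rfl⟩ := mem_Z1.1 h
  rw [tr, tr, mul_comm (2 * π), cos_add_int_mul_two_pi, sin_add_int_mul_two_pi]

theorem eq_zero_of_mem_Z1 {a : ℝ} (h : a ∈ Z1) (h' : |a| < 2 * π) : a = 0 := by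
  obtain ⟨b, rfl⟩ := mem_Z1.1 h
  rw [abs_mul, abs_of_pos two_pi_pos, mul_lt_iff_lt_one_right two_pi_pos] at h'
  have : b = 0 := Int.abs_lt_one_iff.1 (by exact_mod_cast h')
  simp [this]

theorem fib_eq (n : ℕ) (σ : ℝ) (a m : ℤ) (y : Pl) :
    (cat n ^ (-(a - m))) (sh σ (0, 1) (sh σ (1, 0) ((cat n ^ (a - m)) y))) - (cat n ^ m) y =
      (cat n ^ (-(a - m))) (Fb n σ (-m) ((cat n ^ a) y)) := by
  rw [Fb, map_sub, ← cat_zpow_add, ← cat_zpow_add, show -m + a = a - m by ring,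
    show -(a - m) + a = m by ring]

theorem fix_data (h : Str f) (hσ : 0 < σ) (hσ1 : σ ≤ 1) (hσ' : 0 ≤ σ') (hD : ∀ t, |deriv chi t| ≤ D)
    (hs : 4 * σ' * D < σ) (hγ : IsG n m l γ) (hz : psi n f u v σ σ' z = γ z) :
    (∀ i, RR f u v z i ∈ Z1) ∧ RR f u v z 2 = -(2 * π * m) ∧ sin z.2.1.1 = 0 ∧
      Fb n σ' (-m) (hat n z) ∈ Z2 := by
  obtain ⟨hl, hm, hγ⟩ := hγ
  rw [hγ] at hz
  obtain ⟨c, hc, y, a⟩ := two_fib' n σ' (stp (Xa u v σ) (stp (Xb u v) (f z)))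
  rw [← psi, hz, two_shears h] at a
  have b0 : RR f u v z 0 = l.1.1 := add_left_cancel (congrArg (fun w : E => w.1.1) a).symm
  have b1 : RR f u v z 1 = l.1.2 := by
    have : _ = l.1.2 := add_left_cancel (congrArg (fun w : E => w.1.2) a).symm
    rwa [b0, tr_add _ _ hl.1.1, sub_add_cancel] at this
  have b2 : RR f u v z 2 = l.2.1.1 := add_left_cancel (congrArg (fun w : E => w.2.1.1) a).symm
  have e : z.2.1.1 + RR f u v z 2 = z.2.1.1 - 2 * π * m := by rw [b2, hm, sub_eq_add_neg]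
  have b3 : sin (z.2.1.1 + RR f u v z 2) = sin z.2.1.1 := by
    rw [e, mul_comm, sin_sub_int_mul_two_pi]
  have b4 : z.2.1.2 + l.2.1.2 = z.2.1.2 + σ * sin (z.2.1.1 + RR f u v z 2) -
      σ' * deriv chi (z.2.1.1 + RR f u v z 2) * c := congrArg (fun w : E => w.2.1.2) a
  have b5 : |σ' * deriv chi (z.2.1.1 + RR f u v z 2) * c| ≤ σ' * D * 2 := by
    rw [abs_mul, abs_mul, abs_of_nonneg hσ']
    exact mul_le_mul (mul_le_mul_of_nonneg_left (hD _) hσ') hc (abs_nonneg _)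
      (mul_nonneg hσ' ((abs_nonneg _).trans (hD 0)))
  have b6 := abs_le.1 (abs_sin_le_one (z.2.1.1 + RR f u v z 2))
  have b7 : l.2.1.2 = 0 := by
    refine eq_zero_of_mem_Z1 hl.2.1.2 (abs_lt.2 ⟨?_, ?_⟩) <;>
      nlinarith [abs_le.1 b5, pi_gt_three]
  have b8 : sin (z.2.1.1 + RR f u v z 2) < 1 / 2 := by
    by_contra hh
    nlinarith [abs_le.1 b5, not_lt.1 hh]
  rw [deriv_chi_eq_zero b8, b7] at b4
  have b9 : sin (z.2.1.1 + RR f u v z 2) = 0 :=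
    (mul_eq_zero.1 (by linarith : σ * sin (z.2.1.1 + RR f u v z 2) = 0)).resolve_left hσ.ne'
  refine ⟨fun i => ?_, b2.trans hm, b3 ▸ b9, ?_⟩
  · fin_cases i
    exacts [b0 ▸ hl.1.1, b1 ▸ hl.1.2, b2 ▸ hl.2.1.1]
  · rw [psi_eq h b8, e, mt_sub] at hz
    have k : _ = (cat n ^ m) z.2.2 + l.2.2 := congrArg (fun w : E => w.2.2) hz
    have k' := (fib_eq n σ' (mt z.2.1.1) m z.2.2).symm.trans (sub_eq_of_eq_add' k)
    have := cat_zpow_mem n (- -(mt z.2.1.1 - m)) hl.2.2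
    rwa [← k', cat_zpow_neg] at this

end Pool.Agent.P.MP_de3acd_gt
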