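import Pool.Agent.P.MP_de3acd_gt.Defs

/-! Internal definitions: the cat map, the group, the shears, the base system. -/

open Set Real
open scoped ContDiff

namespace Pool.Agent.P.MP_de3acd_gt

noncomputable section

/-- The matrix with rows `(n, 1)` and `(n - 1, 1)`. -/
def cat (n : ℕ) : Pl ≃L[ℝ] Pl :=
  LinearEquiv.toContinuousLinearEquiv
    { toFun := fun y => (n * y.1 + y.2, (n - 1) * y.1 + y.2)
      invFun := fun y => (y.1 - y.2, (1 - n) * y.1 + n * y.2)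
      map_add' := fun x y => Prod.ext (by simp; ring) (by simp; ring)
      map_smul' := fun c y => Prod.ext (by simp; ring) (by simp; ring)
      left_inv := fun y => Prod.ext (by simp; ring) (by simp; ring)
      right_inv := fun y => Prod.ext (by simp; ring) (by simp; ring) }

theorem cat_apply (n : ℕ) (y : Pl) : cat n y = (n * y.1 + y.2, (n - 1) * y.1 + y.2) := rfl

theorem cat_inv_apply (n : ℕ) (y : Pl) :
    (cat n)⁻¹ y = (y.1 - y.2, (1 - n) * y.1 + n * y.2) := rfl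

/-- `γ` is the affine map with winding `m` and translation part `l`. -/
def IsG (n : ℕ) (m : ℤ) (l : E) (γ : E → E) : Prop :=
  l ∈ Z6 ∧ l.2.1.1 = -(2 * π * m) ∧ ∀ z, γ z = (z.1, z.2.1, (cat n ^ m) z.2.2) + l

theorem mem_Z1 {x : ℝ} : x ∈ Z1 ↔ ∃ a : ℤ, x = 2 * π * a := by
  simp only [Z1, AddSubgroup.mem_zmultiples_iff, zsmul_eq_mul]
  exact ⟨fun ⟨a, h⟩ => ⟨a, by rw [← h, mul_comm]⟩, fun ⟨a, h⟩ => ⟨a, by rw [h, mul_comm]⟩⟩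

theorem mem_Z2 {y : Pl} : y ∈ Z2 ↔ y.1 ∈ Z1 ∧ y.2 ∈ Z1 := Iff.rfl

theorem mem_Z6 {z : E} : z ∈ Z6 ↔ z.1 ∈ Z2 ∧ z.2.1 ∈ Z2 ∧ z.2.2 ∈ Z2 := Iff.rfl

theorem cat_zpow_mem (n : ℕ) (m : ℤ) {y : Pl} (h : y ∈ Z2) : (cat n ^ m) y ∈ Z2 := by
  have k : ∀ (a : ℤ) {x : ℝ}, x ∈ Z1 → (a : ℝ) * x ∈ Z1 := fun a x hx => by
    rw [← zsmul_eq_mul]
    exact zsmul_mem hx a
  induction m using Int.induction_on generalizing y with
  | zero => exact h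
  | succ m ih =>
    rw [zpow_add_one]
    refine ih (y := cat n y) ⟨add_mem ?_ h.2, add_mem ?_ h.2⟩
    · exact_mod_cast k n h.1
    · exact_mod_cast k (n - 1) h.1
  | pred m ih =>
    rw [zpow_sub_one]
    refine ih (y := (cat n)⁻¹ y) (mem_Z2.2 ⟨sub_mem (mem_Z2.1 h).1 (mem_Z2.1 h).2, add_mem ?_ ?_⟩)
    · exact_mod_cast k (1 - n) h.1
    · exact_mod_cast k n h.2

theorem cat_zpow_add (n : ℕ) (m m' : ℤ) (y : Pl) :
    (cat n ^ (m + m')) y = (cat n ^ m) ((cat n ^ m') y) := by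
  rw [zpow_add]
  rfl

theorem cat_zpow_neg (n : ℕ) (m : ℤ) (y : Pl) : (cat n ^ (-m)) ((cat n ^ m) y) = y := by
  rw [← cat_zpow_add, neg_add_cancel, zpow_zero]
  rfl

theorem ar_cat_zpow (n : ℕ) (m : ℤ) (u v : Pl) : ar ((cat n ^ m) u) ((cat n ^ m) v) = ar u v := by
  induction m using Int.induction_on generalizing u v with
  | zero => rfl
  | succ m ih =>
    rw [zpow_add_one]
    refine (ih (cat n u) (cat n v)).trans ?_
    simp only [cat_apply, ar]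
    ring
  | pred m ih =>
    rw [zpow_sub_one]
    refine (ih ((cat n)⁻¹ u) ((cat n)⁻¹ v)).trans ?_
    simp only [cat_inv_apply, ar]
    ring

/-- The deck group. -/
def Gam (n : ℕ) : Subgroup (Equiv.Perm E) where
  carrier := {γ | ∃ m l, IsG n m l γ}
  one_mem' := ⟨0, 0, zero_mem _, by simp, fun z => (add_zero z).symm⟩
  mul_mem' := by
    rintro a b ⟨m, l, h1, h2, h3⟩ ⟨m', l', k1, k2, k3⟩
    refine ⟨m + m', l + (l'.1, l'.2.1, (cat n ^ m) l'.2.2),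
      add_mem h1 ⟨k1.1, k1.2.1, cat_zpow_mem n m k1.2.2⟩, ?_, fun z => ?_⟩
    · simp only [Prod.snd_add, Prod.fst_add, h2, k2]
      push_cast
      ring
    · rw [Equiv.Perm.mul_apply, h3, k3, cat_zpow_add]
      refine Prod.ext ?_ (Prod.ext ?_ ?_) <;> simp only [Prod.fst_add, Prod.snd_add, map_add] <;>
        abel
  inv_mem' := by
    rintro a ⟨m, l, h1, h2, h3⟩
    refine ⟨-m, -(l.1, l.2.1, (cat n ^ (-m)) l.2.2),
      neg_mem ⟨h1.1, h1.2.1, cat_zpow_mem n _ h1.2.2⟩, ?_, fun z => ?_⟩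
    · simp [h2]
    · rw [Equiv.Perm.inv_eq_iff_eq, h3]
      have := cat_zpow_neg n (-m)
      rw [neg_neg] at this
      refine Prod.ext (by simp) (Prod.ext (by simp) ?_)
      simp only [Prod.snd_add, Prod.snd_neg, map_add, map_neg, this, neg_add_cancel_right]

/-- The elements of the deck group. -/
def gam (n : ℕ) (m : ℤ) (l : E) : Equiv.Perm E where
  toFun z := (z.1, z.2.1, (cat n ^ m) z.2.2) + l
  invFun z := ((z - l).1, (z - l).2.1, (cat n ^ (-m)) (z - l).2.2)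
  left_inv z := by simp only [add_sub_cancel_right, cat_zpow_neg]
  right_inv z := by
    have := cat_zpow_neg n (-m) (z - l).2.2
    rw [neg_neg] at this
    simp only [this, Prod.mk.eta, sub_add_cancel]

theorem gam_mem {n : ℕ} {m : ℤ} {l : E} (h : l ∈ Z6) (h' : l.2.1.1 = -(2 * π * m)) :
    gam n m l ∈ Gam n := ⟨m, l, h, h', fun _ => rfl⟩

theorem pr_eq {Γ : Subgroup (Equiv.Perm E)} {z z' : E} :
    pr Γ z = pr Γ z' ↔ ∃ γ ∈ Γ, γ z' = z := by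
  rw [pr, pr, Quotient.eq, MulAction.orbitRel_apply]
  exact ⟨fun ⟨γ, h⟩ => ⟨γ.1, γ.2, h⟩, fun ⟨γ, h, h'⟩ => ⟨⟨γ, h⟩, h'⟩⟩

/-- Time-one maps of Hamiltonians that are uniformly close. -/
def Cl (Γ : Subgroup (Equiv.Perm E)) (ε : ℝ) (φ ψ : E → E) : Prop :=
  ∃ F G, Gen Γ F φ ∧ Gen Γ G ψ ∧ ∀ s z, |F s z - G s z| ≤ ε

/-- `z ↦ z + X z` is the time-one map of the autonomous Hamiltonian `F`, of size at most `ε`. -/
structure Shear (Γ : Subgroup (Equiv.Perm E)) (ε : ℝ) (F : E → ℝ) (X : E → E) : Prop where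
  smooth : ContDiff ℝ ∞ F
  inv : ∀ γ ∈ Γ, ∀ z, F (γ z) = F z
  vf : ∀ z v, om (X z) v = fderiv ℝ F z v
  line : ∀ z (s : ℝ), X (z + s • X z) = X z
  le : ∀ z, |F z| ≤ ε

/-- The size of a trigonometric shear. -/
def tr (u v c : ℝ) : ℝ := u * cos c - v * sin c

/-- First shear. -/
def Xb (u v : Fin 3 → ℝ) (z : E) : E := ((tr (u 0) (v 0) z.1.2, 0), (tr (u 2) (v 2) z.2.1.2, 0), 0)

/-- Second shear. -/
def Xa (u v : Fin 3 → ℝ) (σ : ℝ) (z : E) : E :=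
  ((0, tr (u 1) (v 1) z.1.1), (0, σ * sin z.2.1.1), 0)

/-- The cut-off in the direction of the mapping torus. -/
def chi (t : ℝ) : ℝ := smoothTransition (3 - 4 * sin t)

/-- The index of the fundamental domain. -/
def mt (t : ℝ) : ℤ := ⌊(t + 3 * π / 2) / (2 * π)⌋

/-- The fibre coordinate. -/
def hat (n : ℕ) (z : E) : Pl := (cat n ^ mt z.2.1.1) z.2.2

/-- Shears along the fibre. -/
def Xf (n : ℕ) (σ : ℝ) (e : Pl) (z : E) : E :=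
  (0, (0, -(σ * deriv chi z.2.1.1 * cos (ar e (hat n z)))),
    -(σ * chi z.2.1.1 * sin (ar e (hat n z))) • (cat n ^ (-mt z.2.1.1)) e)

/-- The shear of the plane. -/
def sh (σ : ℝ) (e y : Pl) : Pl := y - (σ * sin (ar e y)) • e

/-- The displacement in the fibre. -/
def Fb (n : ℕ) (σ : ℝ) (m : ℤ) (y : Pl) : Pl := sh σ (0, 1) (sh σ (1, 0) ((cat n ^ m) y)) - y

/-- The reduced displacement. -/
def Rm {ι : Type} (d c : (ι → ℝ) → ι → ℝ) (u v x : ι → ℝ) : ι → ℝ :=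
  fun i => d x i + tr (u i) (v i) (c x i)

/-- The profile functions. -/
structure Prof (α ν B : ℝ → ℝ) : Prop where
  α_smooth : ContDiff ℝ ∞ α
  ν_smooth : ContDiff ℝ ∞ ν
  B_smooth : ContDiff ℝ ∞ B
  α_eq : ∀ x, |x| ≤ 1 / 2 → α x = 1 + x
  α_zero : ∀ x, 1 ≤ |x| → α x = 0
  α_le : ∀ x, |α x| ≤ 2
  ν_zero : ν 0 = 0
  ν_nonneg : ∀ x, 0 ≤ ν x
  ν_le : ∀ x, ν x ≤ 16
  ν_ge : ∀ x, 1 / 2 ≤ |x| → |x| ≤ 1 → 1 ≤ ν x
  ν_out : ∀ x, 2 ≤ |x| → ν x = 0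
  B_zero : ∀ x, x ≤ 1 / 2 → B x = 0
  B_one : ∀ x, 3 / 4 ≤ x → B x = 1
  B_nonneg : ∀ x, 0 ≤ B x
  B_le : ∀ x, B x ≤ 1

/-- The Hamiltonian with one degree of freedom and parameter `g`. -/
def h1 (α ν B : ℝ → ℝ) (M j δ g θ I : ℝ) : ℝ :=
  M * sin I ^ 3 + δ * sin I + B (cos I) * (sin I * ν (sin θ / j) + α (sin θ / j) * g)

/-- Its derivative in `I`. -/
def v1 (α ν B : ℝ → ℝ) (M j δ g θ I : ℝ) : ℝ :=
  cos I * (3 * M * sin I ^ 2 + δ + B (cos I) * ν (sin θ / j)) -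
    sin I * deriv B (cos I) * (sin I * ν (sin θ / j) + α (sin θ / j) * g)

/-- The base system. -/
structure Base (H : ℝ → E → ℝ) (Φ : ℝ → ℝ → E → E) (L C : ℝ) : Prop where
  L_nonneg : 0 ≤ L
  C_pos : 0 < C
  smooth : ∀ δ, ContDiff ℝ ∞ (H δ)
  inv : ∀ δ z (w : E), w.1 ∈ Z2 → w.2.1.2 ∈ Z1 → H δ (z + w) = H δ z
  close : ∀ δ z, |H 0 z - H δ z| ≤ |δ|
  zero : ∀ δ ∈ Icc (0 : ℝ) 1, ∀ z, Φ δ 0 z = z
  add : ∀ δ ∈ Icc (0 : ℝ) 1, ∀ s t z, Φ δ (s + t) z = Φ δ s (Φ δ t z)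
  ode : ∀ δ ∈ Icc (0 : ℝ) 1, ∀ z s, ∃ w, HasDerivAt (fun s => Φ δ s z) w s ∧
    ∀ v, om w v = fderiv ℝ (H δ) (Φ δ s z) v
  eqv : ∀ δ ∈ Icc (0 : ℝ) 1, ∀ s z (w : E), w.1 ∈ Z2 → w.2.1.2 ∈ Z1 → Φ δ s (z + w) = Φ δ s z + w
  cons : ∀ δ ∈ Icc (0 : ℝ) 1, ∀ s z, (Φ δ s z).2.1.2 = z.2.1.2 ∧ (Φ δ s z).2.2 = z.2.2
  lip : ∀ δ ∈ Icc (0 : ℝ) 1, ∀ s z z', 0 ≤ s →
    ‖Φ δ s z - Φ δ s z'‖ ≤ exp (L * s) * ‖z - z'‖
  disp : ∀ δ ∈ Icc (0 : ℝ) 1, ∀ s z, 0 ≤ s → ‖Φ δ s z - z‖ ≤ L * s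
  line : ∀ s y, Φ 0 s (0, 0, y) = (0, (s, 0), y)
  wind : ∀ δ ∈ Ioc (0 : ℝ) 1, ∀ s z, 0 ≤ s → ∀ l ∈ Z1,
    |(Φ δ s z).2.1.1 - z.2.1.1| ≤ s / 16 + C / δ * |(Φ δ s z).1.1 - z.1.1 - l|

end

end Pool.Agent.P.MP_de3acd_gt
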