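import Pool.Agent.P.MP_de3acd_gt.Fix

/-! Nondegeneracy of the fixed points. -/

open Set Real Filter Topology
open scoped ContDiff NNReal

namespace Pool.Agent.P.MP_de3acd_gt

variable {n : ℕ} {f : E → E} {u v : Fin 3 → ℝ} {σ σ' D : ℝ} {z l : E} {m : ℤ} {γ : E → E}

/-- The reduced coordinates as a linear map. -/
noncomputable def redL : E →L[ℝ] Fin 3 → ℝ :=
  LinearMap.toContinuousLinearMap
    { toFun := red
      map_add' := fun x y => by
        funext i
        fin_cases i <;> rfl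
      map_smul' := fun c x => by
        funext i
        fin_cases i <;> rfl }

theorem hasDerivAt_tr (u v c : ℝ) : HasDerivAt (tr u v) (tr (-v) u c) c := by
  have := ((hasDerivAt_cos c).const_mul u).sub ((hasDerivAt_sin c).const_mul v)
  refine this.congr_deriv ?_
  rw [tr]
  ring

theorem nondeg_at (h : Str f) (hσ : 0 < σ) (hγ : IsG n m l γ) (h0 : RR f u v z 0 ∈ Z1)
    (h2 : RR f u v z 2 = -(2 * π * m)) (ht : sin z.2.1.1 = 0)
    {R' : (Fin 3 → ℝ) →L[ℝ] Fin 3 → ℝ} (hR : HasFDerivAt (Rm (dd f) (cc f) u v) R' (red z))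
    (hR' : Function.Injective R') {F' : Pl →L[ℝ] Pl}
    (hF : HasFDerivAt (Fb n σ' (-m)) F' (hat n z)) (hF' : Function.Injective F') :
    ∃ D : E →L[ℝ] E, HasFDerivAt (fun x => psi n f u v σ σ' x - γ x) D z ∧
      Function.Injective D := by
  have r : HasFDerivAt (RR f u v) (R'.comp redL) z := hR.comp z redL.hasFDerivAt
  have ri : ∀ i, HasFDerivAt (fun x => RR f u v x i)
      ((ContinuousLinearMap.proj i).comp (R'.comp redL)) z := fun i => hasFDerivAt_pi'.1 r i
  have dθ := (hasFDerivAt_id (𝕜 := ℝ) z).fst.fst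
  have dt := (hasFDerivAt_id (𝕜 := ℝ) z).snd.fst.fst
  have dy := (hasFDerivAt_id (𝕜 := ℝ) z).snd.snd
  have e : z.2.1.1 + RR f u v z 2 = z.2.1.1 - 2 * π * m := by rw [h2, sub_eq_add_neg]
  have e1 : sin (z.2.1.1 + RR f u v z 2) = 0 := by rw [e, mul_comm, sin_sub_int_mul_two_pi, ht]
  have ct : ContinuousAt (fun x : E => x.2.1.1 + RR f u v x 2) z := (dt.add (ri 2)).continuousAt
  have ev1 : ∀ᶠ x in 𝓝 z, sin (x.2.1.1 + RR f u v x 2) < 1 / 2 :=
    (continuous_sin.continuousAt.comp ct).eventually_lt continuousAt_const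
      (by rw [Function.comp_apply, e1]; norm_num)
  have ev2 : ∀ᶠ x in 𝓝 z, mt (x.2.1.1 + RR f u v x 2) = mt z.2.1.1 - m := by
    rw [← mt_sub, ← e]
    exact ct.eventually (mt_eventually (t := z.2.1.1 + RR f u v z 2) (by rw [e1]; norm_num))
  have d1 := ((ri 1).sub ((hasDerivAt_tr (u 1) (v 1) _).comp_hasFDerivAt z dθ)).add
    ((hasDerivAt_tr (u 1) (v 1) _).comp_hasFDerivAt z (dθ.add (ri 0)))
  have d2 := ((hasDerivAt_sin _).comp_hasFDerivAt z (dt.add (ri 2))).const_mul σ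
  have d3 := (cat n ^ (-(mt z.2.1.1 - m))).hasFDerivAt.comp z
    (HasFDerivAt.comp (f := fun x : E => (cat n ^ mt z.2.1.1) x.2.2) z hF
      ((cat n ^ mt z.2.1.1).hasFDerivAt.comp z dy))
  have d := (((ri 0).prodMk d1).prodMk (((ri 2).prodMk d2).prodMk d3)).sub_const l
  refine ⟨_, d.congr_of_eventuallyEq ?_, (injective_iff_map_eq_zero _).2 fun w hw => ?_⟩
  · filter_upwards [ev1, ev2] with x k1 k2
    rw [psi_eq h k1, k2, hγ.2.2, ← sub_sub]
    congr 1
    refine Prod.ext (Prod.ext ?_ ?_) (Prod.ext (Prod.ext ?_ ?_) (fib_eq n σ' _ m x.2.2))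
    all_goals exact add_sub_cancel_left _ _
  · have c0 : R' (redL w) 0 = 0 := congrArg (fun x : E => x.1.1) hw
    have c1 : R' (redL w) 1 - tr (-v 1) (u 1) z.1.1 * w.1.1 +
        tr (-v 1) (u 1) (z.1.1 + RR f u v z 0) * (w.1.1 + R' (redL w) 0) = 0 :=
      congrArg (fun x : E => x.1.2) hw
    have c2 : R' (redL w) 2 = 0 := congrArg (fun x : E => x.2.1.1) hw
    have c3 : σ * (cos (z.2.1.1 + RR f u v z 2) * (w.2.1.1 + R' (redL w) 2)) = 0 :=
      congrArg (fun x : E => x.2.1.2) hw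
    have c4 : (cat n ^ (-(mt z.2.1.1 - m))) (F' ((cat n ^ mt z.2.1.1) w.2.2)) = 0 :=
      congrArg (fun x : E => x.2.2) hw
    rw [c0, add_zero, tr_add _ _ h0, sub_add_cancel] at c1
    have c5 : redL w = 0 := by
      refine (injective_iff_map_eq_zero _).1 hR' _ (funext fun i => ?_)
      fin_cases i
      exacts [c0, c1, c2]
    have c6 : cos (z.2.1.1 + RR f u v z 2) ≠ 0 := fun hc => by
      have := sin_sq_add_cos_sq (z.2.1.1 + RR f u v z 2)
      rw [e1, hc] at this
      norm_num at this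
    rw [c2, add_zero] at c3
    have c7 : w.2.1.1 = 0 :=
      (mul_eq_zero.1 ((mul_eq_zero.1 c3).resolve_left hσ.ne')).resolve_left c6
    have c8 : w.2.2 = 0 := by
      rwa [map_eq_zero_iff _ (ContinuousLinearEquiv.injective _), map_eq_zero_iff _ hF',
        map_eq_zero_iff _ (ContinuousLinearEquiv.injective _)] at c4
    exact Prod.ext (Prod.ext (congrFun c5 0) (congrFun c5 1))
      (Prod.ext (Prod.ext c7 (congrFun c5 2)) c8)

end Pool.Agent.P.MP_de3acd_gt
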