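import Pool.Agent.P.MP_de3acd_gt.IDefs

/-! The shears. -/

open Set Real Filter Topology
open scoped ContDiff NNReal

namespace Pool.Agent.P.MP_de3acd_gt

theorem abs_tr_le (u v c : ℝ) : |tr u v c| ≤ |u| + |v| := by
  unfold tr
  refine (abs_sub _ _).trans (add_le_add ?_ ?_) <;> rw [abs_mul]
  · exact mul_le_of_le_one_right (abs_nonneg _) (abs_cos_le_one _)
  · exact mul_le_of_le_one_right (abs_nonneg _) (abs_sin_le_one _)

theorem chi_eq_one {t : ℝ} (h : sin t ≤ 1 / 2) : chi t = 1 :=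
  smoothTransition.one_of_one_le (by linarith)

theorem deriv_chi_eq_zero {t : ℝ} (h : sin t < 1 / 2) : deriv chi t = 0 := by
  have e : chi =ᶠ[𝓝 t] fun _ => 1 := by
    filter_upwards [continuous_sin.continuousAt.eventually (gt_mem_nhds h)] with s hs
    exact chi_eq_one hs.le
  rw [e.deriv_eq, deriv_const]

theorem chi_smooth_shr : ContDiff ℝ ∞ chi := by
  unfold chi
  exact smoothTransition.contDiff.comp (by fun_prop)

theorem chi_zero_shr {t : ℝ} (h : 3 / 4 < sin t) : chi =ᶠ[𝓝 t] fun _ => 0 := by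
  filter_upwards [continuous_sin.continuousAt.eventually (lt_mem_nhds h)] with s hs
  exact smoothTransition.zero_of_nonpos (by linarith)

theorem sin_add_Z1_shr (x : ℝ) {l : ℝ} (h : l ∈ Z1) : sin (x + l) = sin x := by
  obtain ⟨a, rfl⟩ := mem_Z1.1 h
  rw [mul_comm, sin_add_int_mul_two_pi]

theorem cos_add_Z1_shr (x : ℝ) {l : ℝ} (h : l ∈ Z1) : cos (x + l) = cos x := by
  obtain ⟨a, rfl⟩ := mem_Z1.1 h
  rw [mul_comm, cos_add_int_mul_two_pi]

theorem exists_deriv_chi_le : ∃ D : ℝ, 1 ≤ D ∧ ∀ t, |deriv chi t| ≤ D := by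
  have h1 : Function.Periodic (deriv chi) (2 * π) := by
    intro t
    rw [← deriv_comp_add_const]
    congr 1
    funext s
    simp only [chi, sin_add_two_pi]
  have h2 : Continuous (deriv chi) := chi_smooth_shr.continuous_deriv (by simp)
  obtain ⟨D, hD⟩ := (h1.isBounded_of_continuous (by positivity) h2).exists_norm_le
  exact ⟨max 1 D, le_max_left _ _, fun t => (hD _ ⟨t, rfl⟩).trans (le_max_right _ _)⟩

theorem mt_sub (t : ℝ) (m : ℤ) : mt (t - 2 * π * m) = mt t - m := by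
  unfold mt
  rw [← Int.floor_sub_intCast]
  congr 1
  field_simp
  ring

theorem mt_eq_zero {t : ℝ} (h : t ∈ Ico (-(3 * π / 2)) (π / 2)) : mt t = 0 := by
  unfold mt
  have hp : 0 < 2 * π := by positivity
  rw [Int.floor_eq_zero_iff]
  exact ⟨div_nonneg (by linarith [h.1]) hp.le, (div_lt_one hp).2 (by linarith [h.2])⟩

theorem mt_eventually {t : ℝ} (h : sin t < 1) : ∀ᶠ t' in 𝓝 t, mt t' = mt t := by
  have hp : 0 < 2 * π := by positivity
  have hc : Continuous fun s : ℝ => (s + 3 * π / 2) / (2 * π) := by fun_prop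
  have h1 : (mt t : ℝ) < (t + 3 * π / 2) / (2 * π) := by
    refine lt_of_le_of_ne (Int.floor_le _) fun e => h.ne ?_
    rw [eq_div_iff hp.ne'] at e
    have e2 : t = π / 2 + ((mt t - 1 : ℤ) : ℝ) * (2 * π) := by
      push_cast
      linarith
    rw [e2, sin_add_int_mul_two_pi, sin_pi_div_two]
  have h2 : (t + 3 * π / 2) / (2 * π) < (mt t : ℝ) + 1 := Int.lt_floor_add_one _
  filter_upwards [hc.continuousAt.eventually (Ioo_mem_nhds h1 h2)] with s hs
  exact Int.floor_eq_iff.2 ⟨hs.1.le, hs.2⟩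

theorem trig_le_shr {u v : Fin 3 → ℝ} {ε : ℝ} (hu : ‖u‖ ≤ ε) (hv : ‖v‖ ≤ ε) (i : Fin 3) (c : ℝ) :
    |u i * sin c + v i * cos c| ≤ 2 * ε := by
  have h1 : |u i| ≤ ε := (norm_le_pi_norm u i).trans hu
  have h2 : |v i| ≤ ε := (norm_le_pi_norm v i).trans hv
  have h3 : |u i * sin c| ≤ |u i| := by
    rw [abs_mul]
    exact mul_le_of_le_one_right (abs_nonneg _) (abs_sin_le_one _)
  have h4 : |v i * cos c| ≤ |v i| := by
    rw [abs_mul]
    exact mul_le_of_le_one_right (abs_nonneg _) (abs_cos_le_one _)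
  linarith [abs_add_le (u i * sin c) (v i * cos c)]

theorem fd11_shr (z : E) : HasFDerivAt (fun z : E => z.1.1)
    ((ContinuousLinearMap.fst ℝ ℝ ℝ).comp (ContinuousLinearMap.fst ℝ Pl (Pl × Pl))) z :=
  ((ContinuousLinearMap.fst ℝ ℝ ℝ).comp (ContinuousLinearMap.fst ℝ Pl (Pl × Pl))).hasFDerivAt

theorem fd12_shr (z : E) : HasFDerivAt (fun z : E => z.1.2)
    ((ContinuousLinearMap.snd ℝ ℝ ℝ).comp (ContinuousLinearMap.fst ℝ Pl (Pl × Pl))) z :=
  ((ContinuousLinearMap.snd ℝ ℝ ℝ).comp (ContinuousLinearMap.fst ℝ Pl (Pl × Pl))).hasFDerivAt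

theorem fd21_shr (z : E) : HasFDerivAt (fun z : E => z.2.1.1)
    ((ContinuousLinearMap.fst ℝ ℝ ℝ).comp ((ContinuousLinearMap.fst ℝ Pl Pl).comp
      (ContinuousLinearMap.snd ℝ Pl (Pl × Pl)))) z :=
  ((ContinuousLinearMap.fst ℝ ℝ ℝ).comp ((ContinuousLinearMap.fst ℝ Pl Pl).comp
      (ContinuousLinearMap.snd ℝ Pl (Pl × Pl)))).hasFDerivAt

theorem fd22_shr (z : E) : HasFDerivAt (fun z : E => z.2.1.2)
    ((ContinuousLinearMap.snd ℝ ℝ ℝ).comp ((ContinuousLinearMap.fst ℝ Pl Pl).comp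
      (ContinuousLinearMap.snd ℝ Pl (Pl × Pl)))) z :=
  ((ContinuousLinearMap.snd ℝ ℝ ℝ).comp ((ContinuousLinearMap.fst ℝ Pl Pl).comp
      (ContinuousLinearMap.snd ℝ Pl (Pl × Pl)))).hasFDerivAt

theorem shear_b (n : ℕ) {u v : Fin 3 → ℝ} {ε : ℝ} (hu : ‖u‖ ≤ ε) (hv : ‖v‖ ≤ ε) :
    ∃ F, Shear (Gam n) (4 * ε) F (Xb u v) := by
  refine ⟨fun z => (u 0 * sin z.1.2 + v 0 * cos z.1.2) + (u 2 * sin z.2.1.2 + v 2 * cos z.2.1.2),
    by fun_prop, ?_, ?_, ?_, ?_⟩
  · rintro γ ⟨m, l, h1, h2, h3⟩ z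
    rw [h3]
    simp only [Prod.fst_add, Prod.snd_add, sin_add_Z1_shr _ h1.1.2, cos_add_Z1_shr _ h1.1.2,
      sin_add_Z1_shr _ h1.2.1.2, cos_add_Z1_shr _ h1.2.1.2]
  · intro z w
    have h := (((fd12_shr z).sin.const_mul (u 0)).fun_add ((fd12_shr z).cos.const_mul (v 0))).fun_add
      (((fd22_shr z).sin.const_mul (u 2)).fun_add ((fd22_shr z).cos.const_mul (v 2)))
    rw [h.fderiv]
    simp [om, ar, Xb, tr]
    ring
  · intro z s
    simp [Xb]
  · intro z
    linarith [abs_add_le (u 0 * sin z.1.2 + v 0 * cos z.1.2) (u 2 * sin z.2.1.2 + v 2 * cos z.2.1.2),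
      trig_le_shr hu hv 0 z.1.2, trig_le_shr hu hv 2 z.2.1.2]

theorem shear_a (n : ℕ) {u v : Fin 3 → ℝ} {ε σ : ℝ} (hu : ‖u‖ ≤ ε) (hv : ‖v‖ ≤ ε) (hσ : |σ| ≤ ε) :
    ∃ F, Shear (Gam n) (4 * ε) F (Xa u v σ) := by
  refine ⟨fun z => σ * cos z.2.1.1 - (u 1 * sin z.1.1 + v 1 * cos z.1.1),
    by fun_prop, ?_, ?_, ?_, ?_⟩
  · rintro γ ⟨m, l, h1, h2, h3⟩ z
    rw [h3]
    simp only [Prod.fst_add, Prod.snd_add, sin_add_Z1_shr _ h1.1.1, cos_add_Z1_shr _ h1.1.1,
      cos_add_Z1_shr _ h1.2.1.1]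
  · intro z w
    have h := ((fd21_shr z).cos.const_mul σ).fun_sub
      (((fd11_shr z).sin.const_mul (u 1)).fun_add ((fd11_shr z).cos.const_mul (v 1)))
    rw [h.fderiv]
    simp [om, ar, Xa, tr]
    ring
  · intro z s
    simp [Xa]
  · intro z
    have h4 : |σ * cos z.2.1.1| ≤ |σ| := by
      rw [abs_mul]
      exact mul_le_of_le_one_right (abs_nonneg _) (abs_cos_le_one _)
    linarith [abs_sub (σ * cos z.2.1.1) (u 1 * sin z.1.1 + v 1 * cos z.1.1),
      trig_le_shr hu hv 1 z.1.1, abs_nonneg σ]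

/-- the linear form `w ↦ ar e w.2.2` -/
noncomputable def arL_shr (e : Pl) : E →L[ℝ] ℝ :=
  (e.1 • ContinuousLinearMap.snd ℝ ℝ ℝ - e.2 • ContinuousLinearMap.fst ℝ ℝ ℝ).comp
    ((ContinuousLinearMap.snd ℝ Pl Pl).comp (ContinuousLinearMap.snd ℝ Pl (Pl × Pl)))

theorem arL_apply_shr (e : Pl) (z : E) : arL_shr e z = ar e z.2.2 := by
  simp [arL_shr, ar]

theorem ar_cat_shr (n : ℕ) (m : ℤ) (e y : Pl) :
    ar e ((cat n ^ m) y) = ar ((cat n ^ (-m)) e) y := by
  have := cat_zpow_neg n (-m) e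
  rw [neg_neg] at this
  rw [← ar_cat_zpow n m ((cat n ^ (-m)) e) y, this]

theorem ar_add_shr (e y y' : Pl) : ar e (y + y') = ar e y + ar e y' := by
  simp only [ar, Prod.fst_add, Prod.snd_add]
  ring

theorem shear_f (n : ℕ) (σ : ℝ) {e : Pl} (he : ∀ l ∈ Z2, ar e l ∈ Z1) :
    ∃ F, Shear (Gam n) |σ| F (Xf n σ e) := by
  have ht : Continuous fun z : E => z.2.1.1 := by fun_prop
  have h0 : ∀ z : E, 3 / 4 < sin z.2.1.1 →
      (fun z : E => σ * chi z.2.1.1 * cos (ar e (hat n z))) =ᶠ[𝓝 z] fun _ => 0 := by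
    intro z hz
    filter_upwards [ht.continuousAt.eventually (chi_zero_shr hz)] with w hw
    rw [hw, mul_zero, zero_mul]
  have h1 : ∀ z : E, sin z.2.1.1 < 1 →
      (fun z : E => σ * chi z.2.1.1 * cos (ar e (hat n z))) =ᶠ[𝓝 z]
        fun w => σ * chi w.2.1.1 * cos (arL_shr ((cat n ^ (-mt z.2.1.1)) e) w) := by
    intro z hz
    filter_upwards [ht.continuousAt.eventually (mt_eventually hz)] with w hw
    rw [hat, hw, arL_apply_shr, ar_cat_shr]
  refine ⟨fun z => σ * chi z.2.1.1 * cos (ar e (hat n z)), ?_, ?_, ?_, ?_, ?_⟩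
  · rw [contDiff_iff_contDiffAt]
    intro z
    rcases lt_or_ge (3 / 4) (sin z.2.1.1) with hz | hz
    · exact contDiffAt_const.congr_of_eventuallyEq (h0 z hz)
    · refine ContDiffAt.congr_of_eventuallyEq (ContDiff.contDiffAt ?_) (h1 z (by linarith))
      exact (contDiff_const.mul (chi_smooth_shr.comp (by fun_prop))).mul
        (ContinuousLinearMap.contDiff _).cos
  · rintro γ ⟨m, l, k1, k2, k3⟩ z
    have e1 : (γ z).2.1.1 = z.2.1.1 - 2 * π * m := by
      rw [k3]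
      simp only [Prod.fst_add, Prod.snd_add, k2]
      ring
    have e2 : (γ z).2.2 = (cat n ^ m) z.2.2 + l.2.2 := by
      rw [k3]
      simp only [Prod.snd_add]
    have e3 : chi (γ z).2.1.1 = chi z.2.1.1 := by
      rw [e1, chi, chi, mul_comm (2 * π), sin_sub_int_mul_two_pi]
    have e4 : hat n (γ z) = hat n z + (cat n ^ (mt z.2.1.1 - m)) l.2.2 := by
      rw [hat, hat, e1, e2, mt_sub, map_add, ← cat_zpow_add, sub_add_cancel]
    simp only [e3, e4, ar_add_shr, cos_add_Z1_shr _ (he _ (cat_zpow_mem n _ k1.2.2))]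
  · intro z w
    rcases lt_or_ge (3 / 4) (sin z.2.1.1) with hz | hz
    · rw [(h0 z hz).fderiv_eq]
      have e1 : chi z.2.1.1 = 0 := (chi_zero_shr hz).eq_of_nhds
      have e2 : deriv chi z.2.1.1 = 0 := by rw [(chi_zero_shr hz).deriv_eq, deriv_const]
      simp [om, ar, Xf, e1, e2]
    · rw [(h1 z (by linarith)).fderiv_eq]
      have hc : HasDerivAt chi (deriv chi z.2.1.1) z.2.1.1 :=
        (chi_smooth_shr.differentiable (by simp) _).hasDerivAt
      have h := ((hc.comp_hasFDerivAt z (fd21_shr z)).const_mul σ).fun_mul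
        (arL_shr ((cat n ^ (-mt z.2.1.1)) e)).hasFDerivAt.cos
      simp only [Function.comp_def] at h
      rw [h.fderiv]
      have e1 : arL_shr ((cat n ^ (-mt z.2.1.1)) e) z = ar e (hat n z) := by
        rw [hat, arL_apply_shr, ar_cat_shr]
      rw [e1]
      simp only [om, Xf, add_apply, smul_apply, arL_apply_shr, smul_eq_mul,
        ContinuousLinearMap.comp_apply, ContinuousLinearMap.coe_fst', ContinuousLinearMap.coe_snd']
      simp only [ar, Prod.smul_fst, Prod.smul_snd, smul_eq_mul, Prod.fst_zero, Prod.snd_zero]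
      ring
  · intro z s
    have e1 : (z + s • Xf n σ e z).2.1.1 = z.2.1.1 := by simp [Xf]
    have e2 : ar e (hat n (z + s • Xf n σ e z)) = ar e (hat n z) := by
      have e3 := cat_zpow_neg n (-mt z.2.1.1) e
      rw [neg_neg] at e3
      rw [hat, e1, hat]
      simp only [Xf, Prod.snd_add, Prod.smul_snd, map_add, map_smul, e3, ar_add_shr]
      simp only [ar, Prod.smul_fst, Prod.smul_snd, smul_eq_mul]
      ring
    conv_lhs => rw [Xf]
    rw [e1, e2]
    rfl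
  · intro z
    have k1 : |chi z.2.1.1| ≤ 1 := by
      rw [chi, abs_of_nonneg (smoothTransition.nonneg _)]
      exact smoothTransition.le_one _
    rw [abs_mul, abs_mul]
    exact (mul_le_of_le_one_right (by positivity) (abs_cos_le_one _)).trans
      (mul_le_of_le_one_right (abs_nonneg _) k1)

end Pool.Agent.P.MP_de3acd_gt
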